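import Pool.Agent.U853.AN.Cl3

/-!
# Anatomy of the violators of the inequality of Frey: the theorem in terms of the library
-/

set_option autoImplicit false

namespace Pool.Agent.U853.AN

open Finset Filter Topology Pool.Agent.N906.SZ Pool.Agent.N906.FH Pool.Agent.N692.FH

/-- a smaller rate -/
theorem Small.mono {f : ℤ → ℤ → ℝ} {κ c lam γ γ' : ℝ} {Q : ℝ → ℤ × ℤ → Prop}
    (h : Small f κ c lam γ Q) (hg : γ ≤ γ') : Small f κ c lam γ' Q := by
  obtain ⟨X₀, hX₀, h⟩ := h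
  refine ⟨X₀, hX₀, fun X F hX hF => (h X F hX hF).trans (Real.exp_le_exp.2 ?_)⟩
  have := mul_le_mul_of_nonneg_right hg (sc_nonneg X)
  linarith

/-- the union of two classes -/
theorem Small.or {f : ℤ → ℤ → ℝ} {κ c lam γ : ℝ} {Q R : ℝ → ℤ × ℤ → Prop} {m n : ℝ}
    (h : ∃ X₀ : ℝ, 3 < X₀ ∧ ∀ (X : ℝ) (F : Finset (ℤ × ℤ)), X₀ ≤ X →
      (∀ x ∈ F, Box f κ c X x ∧ Q X x) →
      (F.card : ℝ) ≤ m * Real.exp ((5 - 6 * lam) * Real.log X + γ * sc X))
    (h' : ∃ X₀ : ℝ, 3 < X₀ ∧ ∀ (X : ℝ) (F : Finset (ℤ × ℤ)), X₀ ≤ X →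
      (∀ x ∈ F, Box f κ c X x ∧ R X x) →
      (F.card : ℝ) ≤ n * Real.exp ((5 - 6 * lam) * Real.log X + γ * sc X)) :
    ∃ X₀ : ℝ, 3 < X₀ ∧ ∀ (X : ℝ) (F : Finset (ℤ × ℤ)), X₀ ≤ X →
      (∀ x ∈ F, Box f κ c X x ∧ (Q X x ∨ R X x)) →
      (F.card : ℝ) ≤ (m + n) * Real.exp ((5 - 6 * lam) * Real.log X + γ * sc X) := by
  classical
  obtain ⟨X₁, hX₁, h⟩ := h
  obtain ⟨X₂, hX₂, h'⟩ := h'
  refine ⟨max X₁ X₂, lt_max_of_lt_left hX₁, fun X F hX hF => ?_⟩
  have h1 := h X (F.filter fun x => Q X x) ((le_max_left _ _).trans hX) (by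
    intro x hx
    obtain ⟨g1, g2⟩ := mem_filter.1 hx
    exact ⟨(hF x g1).1, g2⟩)
  have h2 := h' X (F.filter fun x => ¬ Q X x) ((le_max_right _ _).trans hX) (by
    intro x hx
    obtain ⟨g1, g2⟩ := mem_filter.1 hx
    exact ⟨(hF x g1).1, (hF x g1).2.resolve_left g2⟩)
  have h3 : (F.card : ℝ) = (F.filter fun x => Q X x).card + (F.filter fun x => ¬ Q X x).card := by
    exact_mod_cast (card_filter_add_card_filter_not (s := F) (fun x => Q X x)).symm
  rw [h3]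
  linarith

theorem Small.one {f : ℤ → ℤ → ℝ} {κ c lam γ : ℝ} {Q : ℝ → ℤ × ℤ → Prop}
    (h : Small f κ c lam γ Q) :
    ∃ X₀ : ℝ, 3 < X₀ ∧ ∀ (X : ℝ) (F : Finset (ℤ × ℤ)), X₀ ≤ X →
      (∀ x ∈ F, Box f κ c X x ∧ Q X x) →
      (F.card : ℝ) ≤ 1 * Real.exp ((5 - 6 * lam) * Real.log X + γ * sc X) := by
  obtain ⟨X₀, hX₀, h⟩ := h
  exact ⟨X₀, hX₀, fun X F hX hF => (h X F hX hF).trans (le_of_eq (one_mul _).symm)⟩

/-- typical curves -/
structure Typ (f : ℤ → ℤ → ℝ) (κ ε X : ℝ) (x : ℤ × ℤ) : Prop where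
  disc : X ^ (6 - ε) ≤ |((Dd x.1 x.2 : ℤ) : ℝ)|
  height : ∀ τ, IsPer x.1 x.2 τ → (1 / 2 - ε) * Real.log X ≤ hst x.1 x.2 τ
  margin : ∀ τ, IsPer x.1 x.2 τ → hst x.1 x.2 τ ≤ κ * Real.log (f x.1 x.2) + ε * Real.log X
  additive : (qa x.1 x.2 : ℝ) ≤ Real.exp (ε * sc X)
  number : |((Sq x.1 x.2).card : ℝ) - √(12 - 1 / κ) * sc X| ≤ ε * sc X
  product : ((∏ p ∈ Sq x.1 x.2, p : ℕ) : ℝ) ≤ X ^ ε
  rest : (Bd x.1 x.2 : ℝ) ≤ X ^ ε

/-- the atypical violators -/
def Aty (f : ℤ → ℤ → ℝ) (κ c ε X : ℝ) : Set (ℤ × ℤ) := {x | Box f κ c X x ∧ ¬ Typ f κ ε X x}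

theorem anatomy {f : ℤ → ℤ → ℝ} {B : ℝ} (hB : 1 ≤ B)
    (hf : ∀ a b, Mn a b → (Nc a b : ℝ) ≤ f a b ∧ f a b ≤ B * Nc a b)
    {κ : ℝ} (h1 : 1 / 12 < κ) (h2 : κ < 1 / 10) (c : ℝ) {ε : ℝ} (hε : 0 < ε) :
    ∃ η : ℝ, 0 < η ∧ ∀ᶠ X : ℝ in atTop, ((Aty f κ c ε X).ncard : ℝ) ≤
      Real.exp (-η * sc X) * ((HV (Vi f κ c) X).ncard : ℝ) := by
  classical
  obtain ⟨σ, lam, hσ, hσ1, hlam, hl0, hl1, e1, e2⟩ := slope h1 h2
  have hf1 : ∀ a b, Mn a b → (Nc a b : ℝ) ≤ f a b := fun a b h => (hf a b h).1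
  obtain ⟨C, hC⟩ : ∃ C : ℝ, C = √(48 * lam) := ⟨_, rfl⟩
  have hC0 : 0 < C := by rw [hC]; exact Real.sqrt_pos.2 (by linarith)
  have h12 : √(12 * lam) = √(12 - 1 / κ) := by
    congr 1
    have : 4 * (12 * lam) = 4 * (12 - 1 / κ) := by
      rw [show 4 * (12 * lam) = 48 * lam by ring, e2]
      ring
    linarith
  -- the parameters
  obtain ⟨δ, hδ⟩ : ∃ δ : ℝ, δ = min (ε / 12) (1 / 2) := ⟨_, rfl⟩
  have hδ0 : 0 < δ := by rw [hδ]; exact lt_min (by positivity) (by norm_num)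
  have hδε : δ ≤ ε / 12 := by rw [hδ]; exact min_le_left _ _
  have hδ1 : δ < 1 := by
    have : δ ≤ 1 / 2 := by rw [hδ]; exact min_le_right _ _
    linarith
  obtain ⟨δ', hδ'⟩ : ∃ δ' : ℝ, δ' = min (ε / 12) (lam / 2) := ⟨_, rfl⟩
  have hδ'0 : 0 < δ' := by rw [hδ']; exact lt_min (by positivity) (by positivity)
  have hδ'ε : δ' ≤ ε / 12 := by rw [hδ']; exact min_le_left _ _
  have hδ'l : δ' < lam := by
    have : δ' ≤ lam / 2 := by rw [hδ']; exact min_le_right _ _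
    linarith
  have q1 := cls1 hf1 hσ hσ1 hlam hl0 hl1 c hδ0 hδ1
  have q2 := cls2 (f := f) (κ := κ) hl0 hl1 c
  obtain ⟨g3, hg3, q3⟩ := cls3 hf1 hσ hσ1 hlam hl0 hl1 c (ε := ε / 4) (by positivity)
  have q4 := cls4 hf h1 h2 hσ hlam hl0 c hε
  obtain ⟨g5, hg5, q5⟩ := cls5 hf1 hσ hσ1 hlam hl0 hl1 c hδ'0 hδ'l
  obtain ⟨g6, hg6, q6⟩ := cls6 hf1 hσ hσ1 hlam hl0 hl1 c hε
  obtain ⟨g7, hg7, q7⟩ := cls7 hf1 hσ hσ1 hlam hl0 hl1 c hε
  obtain ⟨g8, hg8, q8⟩ := cls8 hf1 hσ hσ1 hlam hl0 hl1 c hε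
  obtain ⟨g9, hg9, q9⟩ := cls9 hf1 hσ hσ1 hlam hl0 hl1 c (ε := ε / 2) (by positivity)
  obtain ⟨g, hg⟩ : ∃ g : ℝ, g = min C (min (min g3 g5) (min g6 (min g7 (min g8 g9)))) := ⟨_, rfl⟩
  have hg0 : 0 < g := by
    rw [hg]
    exact lt_min hC0 (lt_min (lt_min hg3 hg5) (lt_min hg6 (lt_min hg7 (lt_min hg8 hg9))))
  have gC : g ≤ C := by rw [hg]; exact min_le_left _ _
  have gr : g ≤ min (min g3 g5) (min g6 (min g7 (min g8 g9))) := by
    rw [hg]; exact min_le_right _ _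
  have k3 : g ≤ g3 := gr.trans ((min_le_left _ _).trans (min_le_left _ _))
  have k5 : g ≤ g5 := gr.trans ((min_le_left _ _).trans (min_le_right _ _))
  have k6 : g ≤ g6 := gr.trans ((min_le_right _ _).trans (min_le_left _ _))
  have k7 : g ≤ g7 := gr.trans ((min_le_right _ _).trans ((min_le_right _ _).trans
    (min_le_left _ _)))
  have k8 : g ≤ g8 := gr.trans ((min_le_right _ _).trans ((min_le_right _ _).trans
    ((min_le_right _ _).trans (min_le_left _ _))))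
  have k9 : g ≤ g9 := gr.trans ((min_le_right _ _).trans ((min_le_right _ _).trans
    ((min_le_right _ _).trans (min_le_right _ _))))
  rw [← hC] at q3 q5 q6 q7 q8 q9
  have r1 := (q1.mono (γ' := C - g) (by linarith)).one
  have r2 := (q2.mono (γ' := C - g) (by linarith)).one
  have r3 := (q3.mono (γ' := C - g) (by linarith)).one
  have r4 := (q4.mono (γ' := C - g) (by linarith)).one
  have r5 := (q5.mono (γ' := C - g) (by linarith)).one
  have r6 := (q6.mono (γ' := C - g) (by linarith)).one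
  have r7 := (q7.mono (γ' := C - g) (by linarith)).one
  have r8 := (q8.mono (γ' := C - g) (by linarith)).one
  have r9 := (q9.mono (γ' := C - g) (by linarith)).one
  obtain ⟨X₁, hX₁, hup⟩ := Small.or r1 (Small.or r2 (Small.or r3 (Small.or r4 (Small.or r5
    (Small.or r6 (Small.or r7 (Small.or r8 r9)))))))
  -- the height
  obtain ⟨C₁, hC₁⟩ := Pool.Agent.N195.FH.arch_bds
  -- the lower bound for the violators
  have hlim := lim_st_all hB hf h1 h2 c
  rw [← e1, ← e2, ← hC] at hlim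
  have hlow : ∀ᶠ X : ℝ in atTop, Real.exp ((5 - 6 * lam) * Real.log X + (C - g / 4) * sc X) ≤
      ((HV (Vi f κ c) X).ncard : ℝ) := by
    have h3 := hlim.eventually (lt_mem_nhds (show C - g / 4 < C by linarith))
    filter_upwards [h3, tendsto_sc.eventually_gt_atTop 0,
      Real.tendsto_log_atTop.eventually_ge_atTop 0] with X h4 h5 hL0
    have h6 : (C - g / 4) * sc X < Real.log ((HV (Vi f κ c) X).ncard : ℝ) -
        (5 - 6 * lam) * Real.log X := by
      have h7 : C - g / 4 < (Real.log ((HV (Vi f κ c) X).ncard : ℝ) -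
        (5 - 6 * lam) * Real.log X) / sc X := h4
      rwa [lt_div_iff₀ h5] at h7
    have h8 : 0 < ((HV (Vi f κ c) X).ncard : ℝ) := by
      rcases Nat.eq_zero_or_pos (HV (Vi f κ c) X).ncard with h9 | h9
      · exfalso
        rw [h9, Nat.cast_zero, Real.log_zero] at h6
        have h10 : 0 < (C - g / 4) * sc X := mul_pos (by linarith) h5
        have h11 : 0 ≤ (5 - 6 * lam) * Real.log X := mul_nonneg (by linarith) hL0
        linarith
      · exact_mod_cast h9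
    rw [← Real.le_log_iff_exp_le h8]
    linarith
  refine ⟨g / 2, by positivity, ?_⟩
  filter_upwards [hlow, eventually_ge_atTop X₁, tendsto_sc.eventually_ge_atTop (4 * 9 / g),
    sc_small (c := 2 / 7) (by norm_num), Real.tendsto_log_atTop.eventually_ge_atTop
      ((Real.log 186624 + 10 * Real.log 6 + C₁) / ε)] with X h3 h4 h5 h6 h7
  have hX3 : 3 < X := by linarith
  have hX0 : 0 < X := by linarith
  have hX1 : 1 ≤ X := by linarith
  have hfin : (Aty f κ c ε X).Finite :=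
    (HV_fin (Vi f κ c) X).subset fun x hx => hx.1
  have h8 := hup X hfin.toFinset h4 (by
    intro x hx
    rw [Set.Finite.mem_toFinset] at hx
    obtain ⟨hb, ht⟩ := hx
    refine ⟨hb, ?_⟩
    by_contra hcon
    push Not at hcon
    obtain ⟨n1, n2, n3, n4, n5, n6, n7, n8, n9⟩ := hcon
    apply ht
    have hM := hb.1
    have m3 := n3 n2
    have m5 := n5 n2
    have m6 := n6 n2
    have m8 := n8 n2
    have m9 := n9 n2
    have hs0 := sc_nonneg X
    have hdisc : X ^ (6 - ε) ≤ |((Dd x.1 x.2 : ℤ) : ℝ)| := by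
      refine le_trans ?_ m5.le
      have p1 : (X ^ (6 - 6 * δ)) ^ (1 - δ') ≤ Mx x.1 x.2 ^ (1 - δ') :=
        Real.rpow_le_rpow (by positivity) n1.le (by linarith)
      refine le_trans ?_ p1
      rw [← Real.rpow_mul hX0.le]
      apply Real.rpow_le_rpow_of_exponent_le hX1
      nlinarith [mul_pos hδ0 hδ'0]
    have hqa : (qa x.1 x.2 : ℝ) ≤ Real.exp (ε / 4 * sc X) := m3.le
    refine ⟨hdisc, fun τ hτ => ?_, fun τ hτ => (n4 τ hτ).le, hqa.trans ?_, ?_, m8.le, ?_⟩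
    · have p1 := ((hC₁ x.1 x.2 hM.1).2 τ hτ).1
      have hden : (0 : ℝ) < ((jE x.1 x.2).den : ℝ) := by exact_mod_cast (jE x.1 x.2).den_pos
      have hq1 : (1 : ℝ) ≤ qa x.1 x.2 := by exact_mod_cast qa_pos x.1 x.2
      have hq0 : (0 : ℝ) < qa x.1 x.2 := by linarith
      have p2 := Real.log_le_log (by positivity) (hdisc.trans (den_low hM))
      rw [Real.log_rpow hX0, Real.log_mul (by positivity) hden.ne', Real.log_mul (by norm_num)
        (by positivity), Real.log_pow, Real.log_mul (by norm_num) hq0.ne'] at p2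
      push_cast at p2
      have p3 : Real.log (qa x.1 x.2) ≤ ε / 4 * sc X := by
        rw [Real.log_le_iff_le_exp hq0]
        exact hqa
      have p4 : ε / 4 * sc X ≤ ε / 4 * (2 / 7 * Real.log X) :=
        mul_le_mul_of_nonneg_left h6 (by positivity)
      rw [div_le_iff₀ hε] at h7
      have hL0 : 0 ≤ ε * Real.log X := mul_nonneg hε.le (Real.log_nonneg hX1)
      unfold hst
      linarith
    · apply Real.exp_le_exp.2
      have := mul_nonneg hε.le hs0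
      linarith
    · rw [← h12, abs_le]
      constructor
      · have m7 := n7 n2
        by_contra hcon
        push Not at hcon
        have p1 : ((Sq x.1 x.2).card : ℝ) ≤ (√(12 * lam) - ε) * sc X := by linarith
        exact absurd hqa (not_le.2 (m7 p1))
      · linarith
    · have p1 : (Bd x.1 x.2 : ℝ) ≤ (Ra x.1 x.2 : ℝ) * (qa x.1 x.2 : ℝ) ^ 7 := by
        exact_mod_cast Bd_le x.1 x.2
      have p2 : (qa x.1 x.2 : ℝ) ^ 7 ≤ X ^ (ε / 2) := by
        calc (qa x.1 x.2 : ℝ) ^ 7 ≤ (Real.exp (ε / 4 * sc X)) ^ 7 :=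
              pow_le_pow_left₀ (Nat.cast_nonneg _) hqa 7
          _ = Real.exp (7 * (ε / 4 * sc X)) := by
              rw [← Real.exp_nat_mul]
              norm_num
          _ ≤ X ^ (ε / 2) := by
              rw [Real.rpow_def_of_pos hX0]
              apply Real.exp_le_exp.2
              have := mul_le_mul_of_nonneg_left h6 hε.le
              linarith
      calc (Bd x.1 x.2 : ℝ) ≤ _ := p1
        _ ≤ X ^ (ε / 2) * X ^ (ε / 2) := by
            apply mul_le_mul m9.le p2 (by positivity) (by positivity)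
        _ = X ^ ε := by
            rw [← Real.rpow_add hX0]
            congr 1
            ring)
  rw [← Set.ncard_eq_toFinset_card _ hfin] at h8
  rw [div_le_iff₀ hg0] at h5
  have h9 : (9 : ℝ) ≤ Real.exp (g / 4 * sc X) := by
    have := Real.add_one_le_exp (g / 4 * sc X)
    linarith
  calc ((Aty f κ c ε X).ncard : ℝ) ≤ _ := h8
    _ = 9 * Real.exp ((5 - 6 * lam) * Real.log X + (C - g) * sc X) := by norm_num
    _ ≤ Real.exp (g / 4 * sc X) * Real.exp ((5 - 6 * lam) * Real.log X + (C - g) * sc X) :=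
        mul_le_mul_of_nonneg_right h9 (Real.exp_pos _).le
    _ = Real.exp (-(g / 2) * sc X) *
        Real.exp ((5 - 6 * lam) * Real.log X + (C - g / 4) * sc X) := by
        rw [← Real.exp_add, ← Real.exp_add]
        congr 1
        ring
    _ ≤ _ := mul_le_mul_of_nonneg_left h3 (Real.exp_pos _).le

end Pool.Agent.U853.AN
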