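import Pool.Agent.U853.AN.Tilt

/-!
# Anatomy of the violators of the inequality of Frey: all blocks together
-/

set_option autoImplicit false

namespace Pool.Agent.U853.AN

open Finset Filter Topology Pool.Agent.N906.SZ Pool.Agent.N906.FH Pool.Agent.N692.FH

/-- the scale `√(log X / log log X)` -/
noncomputable def sc (X : ℝ) : ℝ := √(Real.log X / Real.log (Real.log X))

theorem sc_nonneg (X : ℝ) : 0 ≤ sc X := Real.sqrt_nonneg _

theorem sqrt_sc {ν : ℝ} (hν : 0 ≤ ν) (X : ℝ) :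
    √(ν * Real.log X / Real.log (Real.log X)) = √ν * sc X := by
  unfold sc
  rw [mul_div_assoc, Real.sqrt_mul hν]

/-- logarithms are absorbed -/
theorem absorb (c ε : ℝ) (hε : 0 < ε) :
    ∀ᶠ X : ℝ in atTop, c * Real.log X ^ 2 ≤ Real.exp (ε * sc X) := by
  have h := Pool.Agent.N92.SZ.up_asym |c| 1 (ε / 3) one_pos (by positivity)
  filter_upwards [h, Real.tendsto_log_atTop.eventually_ge_atTop 1] with X h1 h2
  rw [sqrt_sc zero_le_one, Real.sqrt_one, one_mul] at h1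
  have h3 : (|c| + 60 * Real.log X) ^ 3 ≤ Real.exp (ε / 3 * sc X) ^ 3 :=
    pow_le_pow_left₀ (by positivity) h1 3
  have h4 : Real.exp (ε / 3 * sc X) ^ 3 = Real.exp (ε * sc X) := by
    rw [← Real.exp_nat_mul]; congr 1; push_cast; ring
  rw [h4] at h3
  refine le_trans ?_ h3
  have h5 : 0 ≤ |c| := abs_nonneg c
  calc c * Real.log X ^ 2 ≤ |c| * Real.log X ^ 2 :=
        mul_le_mul_of_nonneg_right (le_abs_self c) (by positivity)
    _ ≤ (|c| + 60 * Real.log X) * (|c| + 60 * Real.log X) ^ 2 := by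
        apply mul_le_mul (by linarith) _ (by positivity) (by positivity)
        exact pow_le_pow_left₀ (by linarith) (by linarith) 2
    _ = (|c| + 60 * Real.log X) ^ 3 := by ring

/-- all blocks -/
theorem assemble {P : ℕ → ℤ → ℤ → Prop} {w : ℕ → ℝ} {μ z θ : ℝ} (hμ : 0 < μ) (hz : 0 < z)
    (hθ : 0 ≤ θ) (hθ1 : θ ≤ 1) (hw : ∀ n, 0 ≤ w n)
    (hP : ∀ n m a b, 1 ≤ m → n ∣ m → P m a b → P n a b) (hcnt : S_CNTg P w)
    (hT : TiltG w μ z θ) {lam lam₁ δ K ε : ℝ} (β : ℝ) (hlam0 : 0 < lam) (hlam6 : lam < 1 / 6)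
    (hδ : 0 ≤ δ) (hκ : 0 < 6 * lam₁ - θ * δ) (hK : 1 ≤ K) (hε : 0 < ε) :
    ∃ X₀ : ℝ, 3 < X₀ ∧ ∀ (X : ℝ) (F : Finset (ℤ × ℤ)) (N : ℤ × ℤ → ℕ) (G : ℤ × ℤ → ℝ),
      X₀ ≤ X →
      (∀ x ∈ F, Mn x.1 x.2 ∧ |(x.1 : ℝ)| ≤ X ^ 2 ∧ |(x.2 : ℝ)| ≤ X ^ 3 ∧ 1 ≤ N x ∧
        P (N x) x.1 x.2 ∧ (N x : ℝ) ^ 6 ≤ Mx x.1 x.2 ∧ 1 ≤ G x ∧
        |((Dd x.1 x.2 : ℤ) : ℝ)| * G x ≤ K * N x * Mx x.1 x.2 ^ (1 - lam) ∧
        |((Dd x.1 x.2 : ℤ) : ℝ)| ≤ Mx x.1 x.2 ^ (1 - lam + lam₁) ∧ X ^ δ ≤ K * rad (N x) ∧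
        Real.exp (β * sc X) ≤ z ^ (N x).primeFactors.card * (G x) ^ (1 / 2 : ℝ)) →
      (F.card : ℝ) ≤ Real.exp ((5 - 6 * lam) * Real.log X +
        (max 0 (√(8 * (μ * z) * (6 * lam₁ - θ * δ)) - β) + ε) * sc X) := by
  classical
  have hμz : 0 < μ * z := mul_pos hμ hz
  obtain ⟨κ, hκe⟩ : ∃ κ : ℝ, κ = 6 * lam₁ - θ * δ := ⟨_, rfl⟩
  obtain ⟨ν, hν⟩ : ∃ ν : ℝ, ν = 8 * (μ * z) * (6 * lam₁ - θ * δ) := ⟨_, rfl⟩
  have hν0 : 0 < ν := by rw [hν]; positivity
  rw [← hν]
  obtain ⟨ε₂, hε₂⟩ : ∃ ε₂ : ℝ, ε₂ = ε / (√ν + 1) := ⟨_, rfl⟩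
  have hsν : 0 ≤ √ν := Real.sqrt_nonneg _
  have hε₂0 : 0 < ε₂ := by rw [hε₂]; positivity
  have hε₂ν : ε₂ * √ν ≤ ε := by
    rw [hε₂, div_mul_eq_mul_div, div_le_iff₀ (by positivity)]
    nlinarith
  have hK0 : 0 < K := by linarith
  obtain ⟨K', hK'⟩ : ∃ K' : ℝ, K' = 2 ^ δ * (2 * K) := ⟨_, rfl⟩
  have h2δ : (1 : ℝ) ≤ 2 ^ δ := Real.one_le_rpow (by norm_num) hδ
  have hK'1 : 2 * K ≤ K' := by
    rw [hK']
    nlinarith
  obtain ⟨Xa, hXa3, ha⟩ := tilt_block hμ hz hθ hθ1 hw hcnt hT (lam := lam) (lam₁ := lam₁)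
    (δ := δ) (K := K') (ε := ε₂ / 4) hlam6 hδ hκ (by linarith) (by positivity)
  rw [← hν] at ha
  obtain ⟨Xc, hXc3, hcomp⟩ := upg_comp ν lam ε₂ hν0 hlam0 hlam6 hε₂0
  obtain ⟨C, hC, hcn⟩ := hcnt
  obtain ⟨c₁, hc₁⟩ : ∃ c₁ : ℝ, c₁ = C * w 1 * (2 * K + 1) + 1 := ⟨_, rfl⟩
  have hCw : 0 ≤ C * w 1 := mul_nonneg hC.le (hw 1)
  have hc₁0 : 1 ≤ c₁ := by rw [hc₁]; nlinarith [mul_nonneg hCw (by linarith : 0 ≤ 2 * K + 1)]
  obtain ⟨Xd, hXd⟩ := eventually_atTop.1 (absorb (9 + 4608 * c₁) (ε / 2) (by positivity))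
  refine ⟨max (max Xc Xd) (max (Xa ^ 2) 31), by
    have := le_max_right (Xa ^ 2) 31
    have := le_max_right (max Xc Xd) (max (Xa ^ 2) 31)
    linarith, ?_⟩
  intro X F N G hX hF
  have hXa : Xc ≤ X := ((le_max_left _ _).trans (le_max_left _ _)).trans hX
  have hXb : Xd ≤ X := ((le_max_right _ _).trans (le_max_left _ _)).trans hX
  have hXc : Xa ^ 2 ≤ X := ((le_max_left _ _).trans (le_max_right _ _)).trans hX
  have hX31 : (31 : ℝ) ≤ X := ((le_max_right _ _).trans (le_max_right _ _)).trans hX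
  have hX0 : 0 < X := by linarith
  have hX1 : 1 ≤ X := by linarith
  have has := hXd X hXb
  obtain ⟨s, hs⟩ : ∃ s : ℝ, s = sc X := ⟨_, rfl⟩
  rw [← hs] at has ⊢
  have hs0 : 0 ≤ s := by rw [hs]; exact sc_nonneg X
  obtain ⟨m, hm⟩ : ∃ m : ℝ, m = max 0 (√ν - β) := ⟨_, rfl⟩
  have hm0 : 0 ≤ m := by rw [hm]; exact le_max_left _ _
  have hm1 : √ν - β ≤ m := by rw [hm]; exact le_max_right _ _
  rw [← hm]
  obtain ⟨E, hE⟩ : ∃ E : ℝ, E = Real.exp ((5 - 6 * lam) * Real.log X + (m + ε / 2) * s) :=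
    ⟨_, rfl⟩
  have hE0 : 0 < E := by rw [hE]; exact Real.exp_pos _
  have hXE : X ^ (5 - 6 * lam) ≤ E := by
    rw [Real.rpow_def_of_pos hX0, hE]
    apply Real.exp_le_exp.mpr
    have : 0 ≤ (m + ε / 2) * s := by positivity
    linarith
  have hX3E : X ^ 3 ≤ E := by
    refine le_trans ?_ hXE
    rw [← Real.rpow_natCast X 3]
    apply Real.rpow_le_rpow_of_exponent_le hX1
    push_cast
    linarith
  have hsX : 0 < √X := Real.sqrt_pos.mpr hX0
  have hsX2 : √X ^ 2 = X := Real.sq_sqrt hX0.le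
  have hsX1 : 1 ≤ √X := by
    rw [Real.one_le_sqrt]; exact hX1
  have hsXX : √X ≤ X := by nlinarith
  have hsX6 : √X ^ 6 = X ^ 3 := by
    calc √X ^ 6 = (√X ^ 2) ^ 3 := by ring
      _ = X ^ 3 := by rw [hsX2]
  have hXaX : Xa ≤ √X := Real.le_sqrt_of_sq_le hXc
  have hD1 : ∀ x ∈ F, 1 ≤ |((Dd x.1 x.2 : ℤ) : ℝ)| := by
    intro x hx
    have := Int.one_le_abs (hF x hx).1.1
    exact_mod_cast this
  -- the parts
  set F1 := F.filter (fun x => Mx x.1 x.2 ≤ X ^ 3) with hF1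
  set Ak : ℕ → ℝ := fun k => 2 * X / 2 ^ k with hAk
  set Yk : ℕ → ℕ → ℝ := fun k j => Ak k ^ 6 / 2 ^ j with hYk
  set H : ℕ × ℕ → Finset (ℤ × ℤ) := fun q => F.filter (fun x => X ^ 3 < Mx x.1 x.2 ∧
    Ak q.1 ^ 6 ≤ 64 * Mx x.1 x.2 ∧ Mx x.1 x.2 ≤ Ak q.1 ^ 6 ∧
    Yk q.1 q.2 / 2 < |((Dd x.1 x.2 : ℤ) : ℝ)| ∧ |((Dd x.1 x.2 : ℤ) : ℝ)| ≤ Yk q.1 q.2) with hH
  have hAk0 : ∀ k, 0 < Ak k := fun k => by rw [hAk]; positivity
  have hAk2 : ∀ k, Ak k ≤ 2 * X := fun k => by
    rw [hAk]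
    exact div_le_self (by positivity) (one_le_pow₀ (by norm_num))
  have hc1 : (F1.card : ℝ) ≤ 9 * E := by
    have h1 := upg_box X (X ^ 2) hX0.le (by positivity) F1 (by
      intro x hx
      rw [hF1, Finset.mem_filter] at hx
      have h2 := upg_size (A := √X) hsX.le (a := x.1) (b := x.2) (by rw [hsX6]; exact hx.2)
      refine ⟨by rw [hsX2] at h2; exact h2.1, h2.2.trans ?_⟩
      calc √X ^ 3 = √X ^ 2 * √X := by ring
        _ = X * √X := by rw [hsX2]
        _ ≤ X * X := by nlinarith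
        _ = X ^ 2 := by ring)
    have hX2 : 1 ≤ X ^ 2 := one_le_pow₀ hX1
    have h3 : (2 * X + 1) * (2 * X ^ 2 + 1) ≤ 9 * X ^ 3 := by
      have h4 : 2 * X + 1 ≤ 3 * X := by linarith
      have h5 : 2 * X ^ 2 + 1 ≤ 3 * X ^ 2 := by linarith
      calc (2 * X + 1) * (2 * X ^ 2 + 1) ≤ (3 * X) * (3 * X ^ 2) :=
            mul_le_mul h4 h5 (by positivity) (by positivity)
        _ = 9 * X ^ 3 := by ring
    linarith
  have hHc : ∀ q, ((H q).card : ℝ) ≤ 32 * c₁ * E := by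
    intro q
    by_cases hne : (H q).Nonempty
    · obtain ⟨x₀, hx₀⟩ := hne
      rw [hH, Finset.mem_filter] at hx₀
      obtain ⟨hx₀F, g1, -, g2', g2, g3⟩ := hx₀
      obtain ⟨A, hA⟩ : ∃ A : ℝ, A = Ak q.1 := ⟨_, rfl⟩
      obtain ⟨Y, hY⟩ : ∃ Y : ℝ, Y = Yk q.1 q.2 := ⟨_, rfl⟩
      rw [← hA] at g2'
      rw [← hY] at g2 g3
      have hA0 : 0 < A := by rw [hA]; exact hAk0 _
      have hA2X : A ≤ 2 * X := by rw [hA]; exact hAk2 _
      have hAs : √X ≤ A := by
        refine le_of_pow_le_pow_left₀ (n := 6) (by norm_num) hA0.le ?_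
        rw [hsX6]
        linarith
      have hA1 : 1 ≤ A := hsX1.trans hAs
      have hXaA : Xa ≤ A := hXaX.trans hAs
      have hY1 : 1 ≤ Y := (hD1 x₀ hx₀F).trans g3
      have hYA : Y ≤ A ^ 6 := by
        rw [hY, hYk, hA]
        exact div_le_self (by have := hAk0 q.1; positivity) (one_le_pow₀ (by norm_num))
      have hmem : ∀ x ∈ H q, x ∈ F ∧ Rg A Y x.1 x.2 ∧ Mx x.1 x.2 ≤ A ^ 6 ∧
          Y / 2 < |((Dd x.1 x.2 : ℤ) : ℝ)| := by
        intro x hx
        rw [hH, Finset.mem_filter] at hx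
        obtain ⟨hxF, -, k2, k3, k4, k5⟩ := hx
        have h2 := upg_size (hAk0 q.1).le k3
        rw [hA, hY]
        exact ⟨hxF, ⟨h2.1, h2.2, k2, k5⟩, k3, k4⟩
      -- the threshold
      obtain ⟨Q, hQ⟩ : ∃ Q : ℝ, Q = A ^ (6 - 6 * lam) := ⟨_, rfl⟩
      have hQ0 : 0 < Q := by rw [hQ]; positivity
      have eA : (A ^ 6) ^ (1 - lam) = Q := by
        rw [← Real.rpow_natCast A 6, ← Real.rpow_mul hA0.le, hQ]
        congr 1
        push_cast
        ring
      obtain ⟨T, hTe⟩ : ∃ T : ℝ, T = Y / (2 * K * Q) := ⟨_, rfl⟩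
      have hTY : Y = 2 * K * T * Q := by
        rw [hTe]; field_simp
      have hT0 : 0 < T := by rw [hTe]; positivity
      have hA5 : Q / A = A ^ (5 - 6 * lam) := by
        rw [hQ, show (6 : ℝ) - 6 * lam = (5 - 6 * lam) + 1 by ring, Real.rpow_add hA0,
          Real.rpow_one]
        field_simp
      have hA2 : A ^ 2 ≤ A ^ (5 - 6 * lam) := by
        rw [← Real.rpow_natCast A 2]
        apply Real.rpow_le_rpow_of_exponent_le hA1
        push_cast
        linarith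
      have hAX : A ^ (5 - 6 * lam) ≤ 32 * X ^ (5 - 6 * lam) := by
        calc A ^ (5 - 6 * lam) ≤ (2 * X) ^ (5 - 6 * lam) :=
              Real.rpow_le_rpow hA0.le hA2X (by linarith)
          _ = 2 ^ (5 - 6 * lam) * X ^ (5 - 6 * lam) := Real.mul_rpow (by norm_num) hX0.le
          _ ≤ 2 ^ (5 : ℝ) * X ^ (5 - 6 * lam) := by
              apply mul_le_mul_of_nonneg_right _ (by positivity)
              exact Real.rpow_le_rpow_of_exponent_le (by norm_num) (by linarith)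
          _ = 32 * X ^ (5 - 6 * lam) := by norm_num
      by_cases hT1 : T < 1
      · have hrd1 : rd 1 = 1 := by simp [rd]
        have h1 := hcn A Y 1 hA1 hY1 le_rfl (by
          rw [hrd1]
          push_cast
          nlinarith) (H q) (by
          intro x hx
          obtain ⟨k1, k2, -, -⟩ := hmem x hx
          obtain ⟨l1, -, -, l2, l3, -⟩ := hF x k1
          exact ⟨l1, k2, hP 1 _ _ _ l2 (one_dvd _) l3⟩)
        rw [hrd1] at h1
        norm_num at h1
        have h2 : Y / A ≤ 2 * K * A ^ (5 - 6 * lam) := by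
          rw [← hA5, hTY, div_le_iff₀ hA0]
          have : 2 * K * (Q / A) * A = 2 * K * Q := by field_simp
          rw [this]
          have : 0 < 2 * K * Q := by positivity
          nlinarith
        calc ((H q).card : ℝ) ≤ C * w 1 * (Y / A + A ^ 2) := h1
          _ ≤ C * w 1 * ((2 * K + 1) * A ^ (5 - 6 * lam)) := by
              apply mul_le_mul_of_nonneg_left _ hCw
              linarith
          _ ≤ C * w 1 * ((2 * K + 1) * (32 * E)) := by
              apply mul_le_mul_of_nonneg_left _ hCw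
              apply mul_le_mul_of_nonneg_left _ (by positivity)
              exact hAX.trans (by linarith)
          _ = 32 * (C * w 1 * (2 * K + 1)) * E := by ring
          _ ≤ 32 * c₁ * E := by
              apply mul_le_mul_of_nonneg_right _ hE0.le
              rw [hc₁]
              linarith
      push Not at hT1
      have hTA : T ≤ K' * A ^ (6 * lam₁) := by
        have j1 : Mx x₀.1 x₀.2 ^ (1 - lam + lam₁) ≤ (A ^ 6) ^ (1 - lam + lam₁) ∨
            1 - lam + lam₁ < 0 := by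
          rcases lt_or_ge (1 - lam + lam₁) 0 with h | h
          · exact Or.inr h
          · left
            exact Real.rpow_le_rpow (le_trans (abs_nonneg _) (le_max_right _ _)) g2' h
        have j2 : 0 ≤ 1 - lam + lam₁ := by
          by_contra hcon
          push Not at hcon
          have j3 := (hF x₀ hx₀F).2.2.2.2.2.2.2.2.1
          have j4 : 1 < Mx x₀.1 x₀.2 := by
            refine lt_of_lt_of_le ?_ g1.le
            exact one_lt_pow₀ (by linarith) (by norm_num)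
          have j5 : Mx x₀.1 x₀.2 ^ (1 - lam + lam₁) < 1 :=
            Real.rpow_lt_one_of_one_lt_of_neg j4 hcon
          have j6 := hD1 x₀ hx₀F
          linarith
        have j1' : Mx x₀.1 x₀.2 ^ (1 - lam + lam₁) ≤ (A ^ 6) ^ (1 - lam + lam₁) := by
          rcases j1 with h | h
          · exact h
          · linarith
        have j3 := (hF x₀ hx₀F).2.2.2.2.2.2.2.2.1
        have j4 : Y / 2 < (A ^ 6) ^ (1 - lam + lam₁) := lt_of_lt_of_le g2 (j3.trans j1')
        have j5 : (A ^ 6) ^ (1 - lam + lam₁) = Q * A ^ (6 * lam₁) := by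
          rw [hQ, ← Real.rpow_add hA0, ← Real.rpow_natCast A 6, ← Real.rpow_mul hA0.le]
          congr 1
          push_cast
          ring
        have j6 : 0 < A ^ (6 * lam₁) := by positivity
        have j7 : T ≤ A ^ (6 * lam₁) := by
          rw [hTe, div_le_iff₀ (by positivity)]
          rw [j5] at j4
          have j8 : Q * A ^ (6 * lam₁) ≤ K * (Q * A ^ (6 * lam₁)) :=
            le_mul_of_one_le_left (by positivity) hK
          linarith
        have j9 : 1 ≤ K' := by linarith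
        nlinarith
      have h1 := ha A Y T (Real.exp (β * s)) (H q) N hXaA hY1 hT1 hTA (by
        rw [← hQ]
        calc Y = 2 * K * (T * Q) := by rw [hTY]; ring
          _ ≤ K' * (T * Q) := mul_le_mul_of_nonneg_right hK'1 (by positivity)
          _ = K' * T * Q := by ring) (Real.exp_pos _).le (by
        intro x hx
        obtain ⟨k1, k2, k3, k4⟩ := hmem x hx
        obtain ⟨l1, -, -, l2, l3, l4, l5, l6, -, l8, l9⟩ := hF x k1
        have hG0 : 0 < G x := by linarith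
        have hTG : T * G x ≤ N x := by
          have m1 : Mx x.1 x.2 ^ (1 - lam) ≤ Q := by
            rw [← eA]
            refine Real.rpow_le_rpow ?_ k3 (by linarith)
            exact le_trans (abs_nonneg _) (le_max_right _ _)
          have m2 : K * N x * Mx x.1 x.2 ^ (1 - lam) ≤ K * N x * Q :=
            mul_le_mul_of_nonneg_left m1 (by positivity)
          have m3 : Y / 2 * G x ≤ |((Dd x.1 x.2 : ℤ) : ℝ)| * G x :=
            mul_le_mul_of_nonneg_right k4.le hG0.le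
          have m4 : Y / 2 * G x ≤ K * N x * Q := m3.trans (l6.trans m2)
          rw [hTY] at m4
          have m5 : (K * Q) * (T * G x) ≤ (K * Q) * N x := by
            calc (K * Q) * (T * G x) = 2 * K * T * Q / 2 * G x := by ring
              _ ≤ K * N x * Q := m4
              _ = (K * Q) * N x := by ring
          exact le_of_mul_le_mul_left m5 (by positivity)
        have hTN : T ≤ N x := by
          refine le_trans ?_ hTG
          exact le_mul_of_one_le_right hT0.le l5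
        have hNA : (N x : ℝ) ≤ A :=
          le_of_pow_le_pow_left₀ (n := 6) (by norm_num) hA0.le (l4.trans k3)
        refine ⟨l1, k2, l2, hTN, hNA, l3, ?_, ?_⟩
        · have m6 : A ^ δ ≤ 2 ^ δ * X ^ δ := by
            rw [← Real.mul_rpow (by norm_num) hX0.le]
            exact Real.rpow_le_rpow hA0.le hA2X hδ
          have m7 : 2 ^ δ * X ^ δ ≤ 2 ^ δ * (K * rad (N x)) :=
            mul_le_mul_of_nonneg_left l8 (by positivity)
          refine m6.trans (m7.trans ?_)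
          rw [hK']
          have m8 : (0 : ℝ) ≤ rad (N x) := Nat.cast_nonneg _
          have m9 : 0 ≤ 2 ^ δ * (K * rad (N x)) := by positivity
          calc (2 : ℝ) ^ δ * (K * rad (N x)) ≤ 2 * (2 ^ δ * (K * rad (N x))) := by linarith
            _ = 2 ^ δ * (2 * K) * rad (N x) := by ring
        · rw [hs]
          refine l9.trans ?_
          apply mul_le_mul_of_nonneg_left _ (by positivity)
          refine Real.rpow_le_rpow hG0.le ?_ (by norm_num)
          rw [le_div_iff₀ hT0, mul_comm]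
          exact hTG)
      have h2 := hcomp X A hXa hAs hA2X
      rw [sqrt_sc hν0.le X, ← hs] at h2
      have h3 := h1.trans h2
      have h4 : ((H q).card : ℝ) ≤ 32 * E := by
        have h5 : (0 : ℝ) < Real.exp (β * s) := Real.exp_pos _
        rw [mul_comm, ← le_div_iff₀ h5] at h3
        refine h3.trans ?_
        rw [mul_div_assoc, ← Real.exp_sub, hE]
        apply mul_le_mul_of_nonneg_left _ (by norm_num)
        apply Real.exp_le_exp.2
        have h6 : (1 + ε₂ / 2) * (√ν * s) - β * s ≤ (m + ε / 2) * s := by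
          have h7 : (1 + ε₂ / 2) * √ν - β ≤ m + ε / 2 := by nlinarith
          calc (1 + ε₂ / 2) * (√ν * s) - β * s = ((1 + ε₂ / 2) * √ν - β) * s := by ring
            _ ≤ _ := mul_le_mul_of_nonneg_right h7 hs0
        linarith
      calc ((H q).card : ℝ) ≤ 32 * E := h4
        _ ≤ 32 * c₁ * E := by nlinarith
    · rw [Finset.not_nonempty_iff_eq_empty] at hne
      rw [hne]
      simp only [Finset.card_empty, Nat.cast_zero]
      positivity
  have hlogX : 3 ≤ Real.log X := by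
    rw [Real.le_log_iff_exp_le hX0]
    have h1 := Real.exp_one_lt_d9
    have h2 : Real.exp 3 = Real.exp 1 ^ 3 := by rw [← Real.exp_nat_mul]; norm_num
    rw [h2]
    have h3 : Real.exp 1 ^ 3 ≤ 2.72 ^ 3 := pow_le_pow_left₀ (Real.exp_pos _).le (by linarith) 3
    norm_num at h3
    linarith
  set K₀ : ℕ := ⌊11 * Real.log X⌋₊ with hK₀
  have hKle : (K₀ : ℝ) ≤ 11 * Real.log X := Nat.floor_le (by positivity)
  have hpow : ∀ k : ℕ, (2 : ℝ) ^ k ≤ 64 * X ^ 6 → k ≤ K₀ := by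
    intro k h5
    rw [hK₀]
    apply Nat.le_floor
    have h2k : (0 : ℝ) < 2 ^ k := by positivity
    have h6 : Real.log ((2 : ℝ) ^ k) ≤ Real.log (64 * X ^ 6) :=
      Real.log_le_log h2k h5
    rw [Real.log_pow, Real.log_mul (by norm_num) (by positivity), Real.log_pow] at h6
    have h7 : Real.log 64 = 6 * Real.log 2 := by
      rw [show (64 : ℝ) = 2 ^ 6 by norm_num, Real.log_pow]; push_cast; ring
    have h8 := Real.log_two_gt_d9
    have h8' := Real.log_two_lt_d9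
    push_cast at h6
    have h9 : (k : ℝ) * 0.6931471803 ≤ k * Real.log 2 :=
      mul_le_mul_of_nonneg_left h8.le (by positivity)
    rw [h7] at h6
    nlinarith
  have hcov : F ⊆ F1 ∪ (range (K₀ + 1) ×ˢ range (K₀ + 1)).biUnion H := by
    intro x hx
    rw [Finset.mem_union]
    by_cases hxs : Mx x.1 x.2 ≤ X ^ 3
    · left
      rw [hF1, Finset.mem_filter]
      exact ⟨hx, hxs⟩
    right
    push Not at hxs
    obtain ⟨hM, ha, hb', -⟩ := hF x hx
    have hMu := upg_mx ha hb'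
    have hM1 : 1 ≤ Mx x.1 x.2 := (hD1 x hx).trans (le_max_right _ _)
    have hM0 : 0 < Mx x.1 x.2 := by linarith
    have hDM : |((Dd x.1 x.2 : ℤ) : ℝ)| ≤ Mx x.1 x.2 := le_max_right _ _
    have hD0 : 0 < |((Dd x.1 x.2 : ℤ) : ℝ)| := by
      have := hD1 x hx
      linarith
    obtain ⟨k, hk1, hk2⟩ := exists_nat_pow_near (x := 64 * X ^ 6 / Mx x.1 x.2)
      (y := 64) (by rw [le_div_iff₀ hM0]; linarith) (by norm_num)
    have hAk6 : Ak k ^ 6 = 64 * X ^ 6 / 64 ^ k := by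
      simp only [hAk]
      rw [div_pow, mul_pow, ← pow_mul, mul_comm k 6, pow_mul]
      norm_num
    have h64k : (0 : ℝ) < 64 ^ k := by positivity
    have hk3 : Mx x.1 x.2 ≤ Ak k ^ 6 := by
      rw [hAk6, le_div_iff₀ h64k]
      rw [le_div_iff₀ hM0] at hk1
      linarith
    have hk4 : Ak k ^ 6 ≤ 64 * Mx x.1 x.2 := by
      rw [hAk6, div_le_iff₀ h64k]
      have h64 : (64 : ℝ) ^ (k + 1) = 64 ^ k * 64 := pow_succ _ _
      rw [div_lt_iff₀ hM0, h64] at hk2
      linarith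
    obtain ⟨j, hj1, hj2⟩ := exists_nat_pow_near (x := Ak k ^ 6 / |((Dd x.1 x.2 : ℤ) : ℝ)|)
      (y := 2) (by rw [le_div_iff₀ hD0]; linarith) (by norm_num)
    have h2j : (0 : ℝ) < 2 ^ j := by positivity
    rw [Finset.mem_biUnion]
    refine ⟨(k, j), ?_, ?_⟩
    · rw [Finset.mem_product, Finset.mem_range, Finset.mem_range, Nat.lt_succ_iff, Nat.lt_succ_iff]
      refine ⟨hpow k ?_, hpow j ?_⟩
      · calc (2 : ℝ) ^ k ≤ 64 ^ k := pow_le_pow_left₀ (by norm_num) (by norm_num) k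
          _ ≤ 64 * X ^ 6 / Mx x.1 x.2 := hk1
          _ ≤ 64 * X ^ 6 := div_le_self (by positivity) hM1
      · calc (2 : ℝ) ^ j ≤ Ak k ^ 6 / |((Dd x.1 x.2 : ℤ) : ℝ)| := hj1
          _ ≤ Ak k ^ 6 := div_le_self (by have := hAk0 k; positivity) (hD1 x hx)
          _ ≤ 64 * X ^ 6 := by
              rw [hAk6]
              exact div_le_self (by positivity) (one_le_pow₀ (by norm_num))
    · rw [hH, Finset.mem_filter]
      refine ⟨hx, hxs, hk4, hk3, ?_, ?_⟩
      · simp only [hYk]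
        rw [div_lt_iff₀ hD0] at hj2
        rw [div_div, div_lt_iff₀ (by positivity)]
        calc Ak k ^ 6 < 2 ^ (j + 1) * |((Dd x.1 x.2 : ℤ) : ℝ)| := hj2
          _ = |((Dd x.1 x.2 : ℤ) : ℝ)| * (2 ^ j * 2) := by ring
      · simp only [hYk]
        rw [le_div_iff₀ hD0] at hj1
        rw [le_div_iff₀ h2j]
        linarith
  have hc2 : (((range (K₀ + 1) ×ˢ range (K₀ + 1)).biUnion H).card : ℝ) ≤
      4608 * c₁ * Real.log X ^ 2 * E := by
    have hcc : (((range (K₀ + 1) ×ˢ range (K₀ + 1)).card : ℕ) : ℝ) = ((K₀ : ℝ) + 1) ^ 2 := by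
      rw [Finset.card_product, Finset.card_range]
      push_cast
      ring
    have hK12 : ((K₀ : ℝ) + 1) ^ 2 ≤ (12 * Real.log X) ^ 2 :=
      pow_le_pow_left₀ (by positivity) (by linarith) 2
    calc (((range (K₀ + 1) ×ˢ range (K₀ + 1)).biUnion H).card : ℝ) ≤
          ((∑ q ∈ range (K₀ + 1) ×ˢ range (K₀ + 1), (H q).card : ℕ) : ℝ) := by
          exact_mod_cast Finset.card_biUnion_le
      _ = ∑ q ∈ range (K₀ + 1) ×ˢ range (K₀ + 1), ((H q).card : ℝ) := by push_cast; rfl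
      _ ≤ ∑ q ∈ range (K₀ + 1) ×ˢ range (K₀ + 1), 32 * c₁ * E :=
          Finset.sum_le_sum (fun q _ => hHc q)
      _ = ((K₀ : ℝ) + 1) ^ 2 * (32 * c₁ * E) := by
          rw [Finset.sum_const, nsmul_eq_mul, hcc]
      _ ≤ (12 * Real.log X) ^ 2 * (32 * c₁ * E) :=
          mul_le_mul_of_nonneg_right hK12 (by positivity)
      _ = 4608 * c₁ * Real.log X ^ 2 * E := by ring
  have hcard : (F.card : ℝ) ≤ F1.card +
      ((range (K₀ + 1) ×ˢ range (K₀ + 1)).biUnion H).card := by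
    exact_mod_cast (Finset.card_le_card hcov).trans (Finset.card_union_le _ _)
  have hL2 : 1 ≤ Real.log X ^ 2 := one_le_pow₀ (by linarith)
  calc (F.card : ℝ) ≤ (9 + 4608 * c₁ * Real.log X ^ 2) * E := by linarith
    _ ≤ (9 + 4608 * c₁) * Real.log X ^ 2 * E := by
        apply mul_le_mul_of_nonneg_right _ hE0.le
        nlinarith
    _ ≤ Real.exp (ε / 2 * s) * E := mul_le_mul_of_nonneg_right has hE0.le
    _ = Real.exp ((5 - 6 * lam) * Real.log X + (m + ε) * s) := by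
        rw [hE, ← Real.exp_add]
        congr 1
        ring

end Pool.Agent.U853.AN
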