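import Pool.Agent.U853.AN.Cls

/-!
# Anatomy of the violators of the inequality of Frey: the exceptional classes, continued
-/

set_option autoImplicit false

namespace Pool.Agent.U853.AN

open Finset Filter Topology Pool.Agent.N906.SZ Pool.Agent.N906.FH Pool.Agent.N692.FH

variable {f : ℤ → ℤ → ℝ} {κ σ lam : ℝ}

theorem sq48 (lam : ℝ) : √(48 * lam) = 2 * √(12 * lam) := by
  rw [show 48 * lam = 2 ^ 2 * (12 * lam) by ring, Real.sqrt_mul (by norm_num),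
    Real.sqrt_sq (by norm_num)]

theorem D_le (x : ℤ × ℤ) (lam : ℝ) : |((Dd x.1 x.2 : ℤ) : ℝ)| ≤ Mx x.1 x.2 ^ (1 - lam + lam) := by
  rw [sub_add_cancel, Real.rpow_one]
  exact le_max_right _ _

theorem one_le_rad (X : ℝ) (n : ℕ) : X ^ (0 : ℝ) ≤ (rad n : ℝ) := by
  rw [Real.rpow_zero]
  exact_mod_cast rad_pos n

theorem one_le_G (h1 : lam < 1 / 6) (x : ℤ × ℤ) :
    (1 : ℝ) ≤ ((qa x.1 x.2 : ℝ) ^ (1 - 6 * lam)) ^ (1 / 2 : ℝ) := by
  refine Real.one_le_rpow (Real.one_le_rpow ?_ (by linarith)) (by norm_num)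
  exact_mod_cast qa_pos x.1 x.2

/-- class III: a large additive part -/
theorem cls3 (hf : ∀ a b, Mn a b → (Nc a b : ℝ) ≤ f a b) (hσ : σ = 12 * κ) (hσ1 : 1 < σ)
    (hlam : lam = 1 - 1 / σ) (h0 : 0 < lam) (h1 : lam < 1 / 6) (c : ℝ) {ε : ℝ} (hε : 0 < ε) :
    ∃ g : ℝ, 0 < g ∧ Small f κ c lam (√(48 * lam) - g)
      (fun X x => (nn x.1 x.2 : ℝ) ^ 6 ≤ Mx x.1 x.2 ∧ Real.exp (ε * sc X) ≤ qa x.1 x.2) := by
  have hC : 0 < √(48 * lam) := Real.sqrt_pos.2 (by linarith)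
  obtain ⟨β, hβ⟩ : ∃ β : ℝ, β = ε * (1 - 6 * lam) / 2 := ⟨_, rfl⟩
  have hβ0 : 0 < β := by
    have : 0 < 1 - 6 * lam := by linarith
    rw [hβ]
    positivity
  refine ⟨min (√(48 * lam)) β / 2, by positivity, ?_⟩
  refine clsG hf hσ hσ1 hlam h0 h1 c (z := 1) (θ := 0) (lam₁ := lam) (δ := 0) (β := β)
    (g := min (√(48 * lam)) β) one_pos le_rfl (by norm_num) le_rfl (by linarith)
    (by positivity) (min_le_left _ _) ?_ _ ⟨0, fun X _ x hx hQ => ⟨D_le x lam, one_le_rad X _, ?_⟩⟩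
  · have e : 8 * (1 * 1) * (6 * lam - 0 * 0) = 48 * lam := by ring
    rw [e]
    have := min_le_right (√(48 * lam)) β
    linarith
  · rw [one_pow, one_mul]
    have h2 : (Real.exp (ε * sc X)) ^ ((1 - 6 * lam) * (1 / 2)) ≤
        (qa x.1 x.2 : ℝ) ^ ((1 - 6 * lam) * (1 / 2)) :=
      Real.rpow_le_rpow (Real.exp_pos _).le hQ (by linarith)
    rw [← Real.rpow_mul (Nat.cast_nonneg _)]
    refine le_trans (le_of_eq ?_) h2
    rw [← Real.exp_mul, hβ]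
    congr 1
    ring

/-- class V: a small discriminant -/
theorem cls5 (hf : ∀ a b, Mn a b → (Nc a b : ℝ) ≤ f a b) (hσ : σ = 12 * κ) (hσ1 : 1 < σ)
    (hlam : lam = 1 - 1 / σ) (h0 : 0 < lam) (h1 : lam < 1 / 6) (c : ℝ) {δ : ℝ} (hδ : 0 < δ)
    (hδ1 : δ < lam) :
    ∃ g : ℝ, 0 < g ∧ Small f κ c lam (√(48 * lam) - g)
      (fun X x => (nn x.1 x.2 : ℝ) ^ 6 ≤ Mx x.1 x.2 ∧
        |((Dd x.1 x.2 : ℤ) : ℝ)| ≤ Mx x.1 x.2 ^ (1 - δ)) := by
  have hlt : √(48 * (lam - δ)) < √(48 * lam) := by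
    apply Real.sqrt_lt_sqrt <;> linarith
  have hC0 : 0 ≤ √(48 * (lam - δ)) := Real.sqrt_nonneg _
  refine ⟨(√(48 * lam) - √(48 * (lam - δ))) / 2, by linarith, ?_⟩
  refine clsG hf hσ hσ1 hlam h0 h1 c (z := 1) (θ := 0) (lam₁ := lam - δ) (δ := 0) (β := 0)
    (g := √(48 * lam) - √(48 * (lam - δ))) one_pos le_rfl (by norm_num) le_rfl (by linarith)
    (by linarith) (by linarith) ?_ _ ⟨0, fun X _ x hx hQ => ⟨?_, one_le_rad X _, ?_⟩⟩
  · have e : 8 * (1 * 1) * (6 * (lam - δ) - 0 * 0) = 48 * (lam - δ) := by ring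
    rw [e]
    linarith
  · rw [show 1 - lam + (lam - δ) = 1 - δ by ring]
    exact hQ
  · rw [one_pow, one_mul, zero_mul, Real.exp_zero]
    exact one_le_G h1 x

/-- class VI: many squared primes -/
theorem cls6 (hf : ∀ a b, Mn a b → (Nc a b : ℝ) ≤ f a b) (hσ : σ = 12 * κ) (hσ1 : 1 < σ)
    (hlam : lam = 1 - 1 / σ) (h0 : 0 < lam) (h1 : lam < 1 / 6) (c : ℝ) {ε : ℝ} (hε : 0 < ε) :
    ∃ g : ℝ, 0 < g ∧ Small f κ c lam (√(48 * lam) - g)
      (fun X x => (nn x.1 x.2 : ℝ) ^ 6 ≤ Mx x.1 x.2 ∧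
        (√(12 * lam) + ε) * sc X ≤ (Sq x.1 x.2).card) := by
  obtain ⟨C, hCe⟩ : ∃ C : ℝ, C = √(48 * lam) := ⟨_, rfl⟩
  have hC : 0 < C := by rw [hCe]; exact Real.sqrt_pos.2 (by linarith)
  have h12 : √(12 * lam) = C / 2 := by rw [hCe, sq48]; ring
  obtain ⟨t, ht⟩ : ∃ t : ℝ, t = min 1 (ε / C) := ⟨_, rfl⟩
  have ht0 : 0 < t := by rw [ht]; positivity
  have ht1 : t ≤ 1 := by rw [ht]; exact min_le_left _ _
  have htC : C * t ≤ ε := by
    have : t ≤ ε / C := by rw [ht]; exact min_le_right _ _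
    rw [le_div_iff₀ hC] at this
    linarith
  rw [← hCe]
  refine ⟨min C (t * ε) / 2, by positivity, ?_⟩
  rw [hCe]
  refine clsG hf hσ hσ1 hlam h0 h1 c (z := Real.exp (2 * t)) (θ := 0) (lam₁ := lam) (δ := 0)
    (β := 2 * t * (C / 2 + ε)) (g := min (√(48 * lam)) (t * ε)) (Real.exp_pos _) le_rfl
    (by norm_num) le_rfl (by linarith) (by rw [← hCe]; positivity) (min_le_left _ _) ?_ _
    ⟨0, fun X _ x hx hQ => ⟨D_le x lam, one_le_rad X _, ?_⟩⟩
  · have e : 8 * (1 * Real.exp (2 * t)) * (6 * lam - 0 * 0) = Real.exp t ^ 2 * (48 * lam) := by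
      rw [← Real.exp_nat_mul]
      push_cast
      ring
    rw [e, Real.sqrt_mul (by positivity), Real.sqrt_sq (Real.exp_pos _).le, ← hCe]
    have h2 := Real.abs_exp_sub_one_sub_id_le (x := t) (by rw [abs_of_pos ht0]; exact ht1)
    have h3 : Real.exp t ≤ 1 + t + t ^ 2 := by
      have := (abs_le.1 h2).2
      linarith
    have h4 : Real.exp t * C ≤ (1 + t + t ^ 2) * C := mul_le_mul_of_nonneg_right h3 hC.le
    have h5 := min_le_right C (t * ε)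
    have h6 : C * t * t ≤ ε * t := mul_le_mul_of_nonneg_right htC ht0.le
    nlinarith
  · have h2 : (Real.exp (2 * t)) ^ (nn x.1 x.2).primeFactors.card =
        Real.exp (2 * t * (nn x.1 x.2).primeFactors.card) := by
      rw [← Real.exp_nat_mul]
      congr 1
      ring
    rw [h2]
    have h3 := one_le_G h1 x
    have h4 : ((Sq x.1 x.2).card : ℝ) ≤ (nn x.1 x.2).primeFactors.card := by
      exact_mod_cast card_le_card (sq_sub hx.1)
    rw [h12] at hQ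
    have h5 : 2 * t * (C / 2 + ε) * sc X ≤ 2 * t * (nn x.1 x.2).primeFactors.card := by
      have h6 := mul_le_mul_of_nonneg_left (hQ.trans h4) (by positivity : 0 ≤ 2 * t)
      linarith
    calc Real.exp (2 * t * (C / 2 + ε) * sc X)
        ≤ Real.exp (2 * t * (nn x.1 x.2).primeFactors.card) := Real.exp_le_exp.2 h5
      _ ≤ _ := le_mul_of_one_le_right (Real.exp_pos _).le h3

/-- class VII: few squared primes -/
theorem cls7 (hf : ∀ a b, Mn a b → (Nc a b : ℝ) ≤ f a b) (hσ : σ = 12 * κ) (hσ1 : 1 < σ)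
    (hlam : lam = 1 - 1 / σ) (h0 : 0 < lam) (h1 : lam < 1 / 6) (c : ℝ) {ε : ℝ} (hε : 0 < ε) :
    ∃ g : ℝ, 0 < g ∧ Small f κ c lam (√(48 * lam) - g)
      (fun X x => (nn x.1 x.2 : ℝ) ^ 6 ≤ Mx x.1 x.2 ∧
        ((Sq x.1 x.2).card : ℝ) ≤ (√(12 * lam) - ε) * sc X ∧
        (qa x.1 x.2 : ℝ) ≤ Real.exp (ε / 4 * sc X)) := by
  obtain ⟨C, hCe⟩ : ∃ C : ℝ, C = √(48 * lam) := ⟨_, rfl⟩
  have hC : 0 < C := by rw [hCe]; exact Real.sqrt_pos.2 (by linarith)
  have h12 : √(12 * lam) = C / 2 := by rw [hCe, sq48]; ring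
  obtain ⟨t, ht⟩ : ∃ t : ℝ, t = min 1 (ε / (2 * C)) := ⟨_, rfl⟩
  have ht0 : 0 < t := by rw [ht]; positivity
  have ht1 : t ≤ 1 := by rw [ht]; exact min_le_left _ _
  have htC : C * t ≤ ε / 2 := by
    have : t ≤ ε / (2 * C) := by rw [ht]; exact min_le_right _ _
    rw [le_div_iff₀ (by positivity)] at this
    linarith
  obtain ⟨X₂, hX₂⟩ := eventually_atTop.1 (tendsto_sc.eventually_ge_atTop (8 / ε))
  rw [← hCe]
  refine ⟨min C (t * ε / 2) / 2, by positivity, ?_⟩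
  rw [hCe]
  refine clsG hf hσ hσ1 hlam h0 h1 c (z := Real.exp (-2 * t)) (θ := 0) (lam₁ := lam) (δ := 0)
    (β := -2 * t * (C / 2 - ε / 2)) (g := min (√(48 * lam)) (t * ε / 2)) (Real.exp_pos _) le_rfl
    (by norm_num) le_rfl (by linarith) (by rw [← hCe]; positivity) (min_le_left _ _) ?_ _
    ⟨X₂, fun X hX x hx hQ => ⟨D_le x lam, one_le_rad X _, ?_⟩⟩
  · have e : 8 * (1 * Real.exp (-2 * t)) * (6 * lam - 0 * 0) =
        Real.exp (-t) ^ 2 * (48 * lam) := by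
      rw [← Real.exp_nat_mul]
      push_cast
      rw [show 2 * -t = -2 * t by ring]
      ring
    rw [e, Real.sqrt_mul (by positivity), Real.sqrt_sq (Real.exp_pos _).le, ← hCe]
    have h2 := Real.abs_exp_sub_one_sub_id_le (x := -t) (by
      rw [abs_neg, abs_of_pos ht0]; exact ht1)
    have h3 : Real.exp (-t) ≤ 1 - t + t ^ 2 := by
      have := (abs_le.1 h2).2
      nlinarith
    have h4 : Real.exp (-t) * C ≤ (1 - t + t ^ 2) * C := mul_le_mul_of_nonneg_right h3 hC.le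
    have h5 := min_le_right C (t * ε / 2)
    have h6 : C * t * t ≤ ε / 2 * t := mul_le_mul_of_nonneg_right htC ht0.le
    nlinarith
  · obtain ⟨hQ1, hQ2⟩ := hQ
    have h2 : (Real.exp (-2 * t)) ^ (nn x.1 x.2).primeFactors.card =
        Real.exp (-2 * t * (nn x.1 x.2).primeFactors.card) := by
      rw [← Real.exp_nat_mul]
      congr 1
      ring
    rw [h2]
    have h3 := one_le_G h1 x
    have h4 : ((nn x.1 x.2).primeFactors.card : ℝ) ≤
        (Sq x.1 x.2).card + ((Ad x.1 x.2).card + 2) := by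
      have h5 := (card_le_card (nn_sub hx.1)).trans (card_union_le _ _)
      have h6 := card_union_le (Ad x.1 x.2) ({2, 3} : Finset ℕ)
      have h7 : ({2, 3} : Finset ℕ).card = 2 := by decide
      have h8 : (nn x.1 x.2).primeFactors.card ≤
          (Sq x.1 x.2).card + ((Ad x.1 x.2).card + 2) := by omega
      exact_mod_cast h8
    have h5 : ((Ad x.1 x.2).card : ℝ) ≤ ε / 4 * sc X := by
      have h6 := (ad_card x.1 x.2).trans hQ2
      have h7 : Real.exp ((Ad x.1 x.2).card) ≤ (4 : ℝ) ^ (Ad x.1 x.2).card := by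
        rw [← Real.exp_one_pow]
        exact pow_le_pow_left₀ (Real.exp_pos _).le (by
          have := Real.exp_one_lt_d9
          linarith) _
      exact Real.exp_le_exp.1 (h7.trans h6)
    have h6 := hX₂ X hX
    rw [div_le_iff₀ hε] at h6
    rw [h12] at hQ1
    have h7 : ((nn x.1 x.2).primeFactors.card : ℝ) ≤ (C / 2 - ε / 2) * sc X := by nlinarith
    have h8 : -2 * t * (C / 2 - ε / 2) * sc X ≤ -2 * t * (nn x.1 x.2).primeFactors.card := by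
      have h9 := mul_le_mul_of_nonneg_left h7 (by positivity : 0 ≤ 2 * t)
      linarith
    calc Real.exp (-2 * t * (C / 2 - ε / 2) * sc X)
        ≤ Real.exp (-2 * t * (nn x.1 x.2).primeFactors.card) := Real.exp_le_exp.2 h8
      _ ≤ _ := le_mul_of_one_le_right (Real.exp_pos _).le h3

/-- class VIII: a large product of the squared primes -/
theorem cls8 (hf : ∀ a b, Mn a b → (Nc a b : ℝ) ≤ f a b) (hσ : σ = 12 * κ) (hσ1 : 1 < σ)
    (hlam : lam = 1 - 1 / σ) (h0 : 0 < lam) (h1 : lam < 1 / 6) (c : ℝ) {ε : ℝ} (hε : 0 < ε) :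
    ∃ g : ℝ, 0 < g ∧ Small f κ c lam (√(48 * lam) - g)
      (fun X x => (nn x.1 x.2 : ℝ) ^ 6 ≤ Mx x.1 x.2 ∧
        X ^ ε ≤ ((∏ p ∈ Sq x.1 x.2, p : ℕ) : ℝ)) := by
  obtain ⟨δ, hδ⟩ : ∃ δ : ℝ, δ = min ε (6 * lam) := ⟨_, rfl⟩
  have hδ0 : 0 < δ := by rw [hδ]; exact lt_min hε (by linarith)
  have hδε : δ ≤ ε := by rw [hδ]; exact min_le_left _ _
  have hδl : δ ≤ 6 * lam := by rw [hδ]; exact min_le_right _ _
  have hlt : √(8 * (6 * lam - 1 / 2 * δ)) < √(48 * lam) := by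
    apply Real.sqrt_lt_sqrt <;> linarith
  have hC0 : 0 ≤ √(8 * (6 * lam - 1 / 2 * δ)) := Real.sqrt_nonneg _
  refine ⟨(√(48 * lam) - √(8 * (6 * lam - 1 / 2 * δ))) / 2, by linarith, ?_⟩
  refine clsG hf hσ hσ1 hlam h0 h1 c (z := 1) (θ := 1 / 2) (lam₁ := lam) (δ := δ) (β := 0)
    (g := √(48 * lam) - √(8 * (6 * lam - 1 / 2 * δ))) one_pos (by norm_num) le_rfl hδ0.le
    (by linarith) (by linarith) (by linarith) ?_ _
    ⟨1, fun X hX x hx hQ => ⟨D_le x lam, ?_, ?_⟩⟩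
  · have e : 8 * (1 * 1) * (6 * lam - 1 / 2 * δ) = 8 * (6 * lam - 1 / 2 * δ) := by ring
    rw [e]
    linarith
  · calc X ^ δ ≤ X ^ ε := Real.rpow_le_rpow_of_exponent_le hX hδε
      _ ≤ ((∏ p ∈ Sq x.1 x.2, p : ℕ) : ℝ) := hQ
      _ ≤ rad (nn x.1 x.2) := by
          have h2 : ∏ p ∈ Sq x.1 x.2, p ≤ rad (nn x.1 x.2) := by
            refine Finset.prod_le_prod_of_subset_of_one_le' (sq_sub hx.1) fun p hp _ => ?_
            exact (Nat.prime_of_mem_primeFactors hp).pos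
          exact_mod_cast h2
  · rw [one_pow, one_mul, zero_mul, Real.exp_zero]
    exact one_le_G h1 x

/-- class IV: a large margin -/
theorem cls4 {B : ℝ} (hf : ∀ a b, Mn a b → (Nc a b : ℝ) ≤ f a b ∧ f a b ≤ B * Nc a b)
    (hκ1 : 1 / 12 < κ) (hκ2 : κ < 1 / 10) (hσ : σ = 12 * κ)
    (hlam : lam = 1 - 1 / σ) (h0 : 0 < lam) (c : ℝ) {ε : ℝ} (hε : 0 < ε) :
    Small f κ c lam 0 (fun X x => ∃ τ, IsPer x.1 x.2 τ ∧
      κ * Real.log (f x.1 x.2) + ε * Real.log X ≤ hst x.1 x.2 τ) := by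
  -- the new slope
  obtain ⟨e, he⟩ : ∃ e : ℝ, e = min ε ((1 - 10 * κ) / 4) := ⟨_, rfl⟩
  have he0 : 0 < e := by rw [he]; exact lt_min hε (by linarith)
  have heε : e ≤ ε := by rw [he]; exact min_le_left _ _
  have heκ : e ≤ (1 - 10 * κ) / 4 := by rw [he]; exact min_le_right _ _
  have he1 : 0 < 1 - 2 * e := by linarith
  obtain ⟨κ', hκ'⟩ : ∃ κ' : ℝ, κ' = κ / (1 - 2 * e) := ⟨_, rfl⟩
  have hκκ : κ < κ' := by
    rw [hκ', lt_div_iff₀ he1]
    nlinarith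
  have hκ'2 : κ' < 1 / 10 := by
    rw [hκ', div_lt_iff₀ he1]
    linarith
  obtain ⟨σ', lam', hσ', hσ'1, hlam', hl0', hl1', -, -⟩ := slope (by linarith) hκ'2
  have hll : lam < lam' := by
    rw [hlam, hlam', hσ, hσ']
    have : 1 / (12 * κ') < 1 / (12 * κ) := by
      apply one_div_lt_one_div_of_lt <;> linarith
    linarith
  obtain ⟨C₁, hC₁⟩ := Pool.Agent.N195.FH.arch_bds
  obtain ⟨C₅, hC₅⟩ : ∃ C₅ : ℝ, C₅ = (Real.log 6912 + Real.log 64 + C₁) / 12 := ⟨_, rfl⟩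
  obtain ⟨c', hc'⟩ : ∃ c' : ℝ, c' = -(2 * e * C₅) / (1 - 2 * e) := ⟨_, rfl⟩
  obtain ⟨K, hK, hg⟩ := vi_gain (fun a b h => (hf a b h).1) hσ' hσ'1 hlam' hl0' hl1' c'
  obtain ⟨X₁, hX₁, h⟩ := saving h0 hll hl1' hK
  refine ⟨X₁, hX₁, fun X F hX hF => ?_⟩
  have hX0 : 0 < X := by linarith
  have hL0 : 0 ≤ Real.log X := Real.log_nonneg (by linarith)
  rw [zero_mul, add_zero]
  refine h X F hX fun x hx => ?_
  obtain ⟨⟨g1, g2, g3, -⟩, τ, g5, g6⟩ := hF x hx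
  refine ⟨g1, g2, g3, ?_⟩
  have hv : Vi f κ' c' x.1 x.2 := by
    refine ⟨τ, g5, ?_⟩
    have k1 := ((hC₁ x.1 x.2 g1.1).2 τ g5).2.1
    have hden : (0 : ℝ) < ((jE x.1 x.2).den : ℝ) := by exact_mod_cast (jE x.1 x.2).den_pos
    have hmax : (0 : ℝ) < max 1 |((jE x.1 x.2 : ℚ) : ℝ)| := lt_max_of_lt_left one_pos
    have k2 := Real.log_le_log (mul_pos hden hmax)
      ((den_max g1.1).trans (mul_le_mul_of_nonneg_left (upg_mx g2 g3) (by norm_num)))
    rw [Real.log_mul hden.ne' hmax.ne', Real.log_mul (by norm_num) (by positivity),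
      Real.log_mul (by norm_num) (by positivity), Real.log_pow] at k2
    push_cast at k2
    have k3 : hst x.1 x.2 τ ≤ Real.log X / 2 + C₅ := by
      unfold hst
      rw [hC₅]
      linarith
    have k4 : κ * Real.log (f x.1 x.2) + e * Real.log X ≤ hst x.1 x.2 τ := by
      have := mul_le_mul_of_nonneg_right heε hL0
      linarith
    have k5 : κ * Real.log (f x.1 x.2) ≤ (1 - 2 * e) * hst x.1 x.2 τ + 2 * e * C₅ := by
      have := mul_le_mul_of_nonneg_left k3 (by linarith : 0 ≤ 2 * e)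
      linarith
    rw [hκ', hc', div_mul_eq_mul_div, ← add_div, div_le_iff₀ he1]
    linarith
  have k6 := hg x.1 x.2 g1 hv
  refine le_trans ?_ k6
  refine le_mul_of_one_le_right (abs_nonneg _) ?_
  refine Real.one_le_rpow ?_ (by linarith)
  exact_mod_cast qa_pos x.1 x.2

end Pool.Agent.U853.AN
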