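import Pool.Agent.U853.AN.Gen

/-!
# Anatomy of the violators of the inequality of Frey: the part of the gain at the additive primes

The upper bound for the pairs of coprime divisors `(m, r)`, where the primes of `r` cost an extra
factor `rd(r) ^ ν₀`, so that they do not contribute to the main term.
-/

set_option autoImplicit false

namespace Pool.Agent.U853.AN

open Finset Filter Topology Pool.Agent.N906.SZ Pool.Agent.N906.FH
open Pool.Agent.N50.SZ (rd_pos rd_le)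

/-- the generating function with the extra cost is small -/
theorem small_gen {ν₀ η : ℝ} (hν : 0 < ν₀) (hη : 0 < η) : ∃ C : ℝ, 0 < C ∧ ∃ u₀ : ℝ, 0 < u₀ ∧
    u₀ < 1 / 2 ∧ ∀ u : ℝ, 0 < u → u < u₀ → ∀ F : Finset ℕ, (∀ n ∈ F, 1 ≤ n) →
      ∑ n ∈ F, (n : ℝ) ^ (-u) * (rd n : ℝ) ^ (-ν₀) / rd n ≤
        C * Real.exp (η / (u * Real.log (1 / u))) := by
  obtain ⟨m, hm⟩ : ∃ m : ℝ, m = min 1 (η / 2) := ⟨_, rfl⟩
  have hm0 : 0 < m := by rw [hm]; exact lt_min one_pos (by positivity)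
  have hm1 : m ≤ 1 := by rw [hm]; exact min_le_left _ _
  have hmη : 2 * m ≤ η := by
    have : m ≤ η / 2 := by rw [hm]; exact min_le_right _ _
    linarith
  obtain ⟨C, hC, h⟩ := tilt_one (z := m) (θ := 0) hm0 le_rfl (by norm_num)
  obtain ⟨u₀, h0, h1, h⟩ := h 1 one_pos
  have hev : ∀ᶠ p : ℕ in atTop, (p : ℝ) ^ (-ν₀) ≤ m := by
    have h2 : Tendsto (fun p : ℕ => (p : ℝ) ^ (-ν₀)) atTop (𝓝 0) :=
      (tendsto_rpow_neg_atTop hν).comp tendsto_natCast_atTop_atTop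
    filter_upwards [h2.eventually (gt_mem_nhds hm0)] with p hp using hp.le
  obtain ⟨p₀, hp₀⟩ := eventually_atTop.1 hev
  refine ⟨C * (1 / m) ^ (p₀ + 5), by positivity, u₀, h0, h1, fun u hu huu F hF => ?_⟩
  have h2 := h u hu huu F hF
  obtain ⟨W, hW⟩ : ∃ W : ℝ, W = (1 / m) ^ (p₀ + 5) := ⟨_, rfl⟩
  have h1m : 1 ≤ 1 / m := by rw [le_div_iff₀ hm0, one_mul]; exact hm1
  have hW0 : 0 ≤ W := by rw [hW]; positivity
  have hlog : 0 < u * Real.log (1 / u) := by
    have : 1 < 1 / u := by rw [lt_div_iff₀ hu]; linarith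
    exact mul_pos hu (Real.log_pos this)
  calc ∑ n ∈ F, (n : ℝ) ^ (-u) * (rd n : ℝ) ^ (-ν₀) / rd n
      ≤ ∑ n ∈ F, W * (1 * m ^ n.primeFactors.card * (n : ℝ) ^ (-u) *
          (rad n : ℝ) ^ (0 * u) / rd n) := by
        refine Finset.sum_le_sum fun n hn => ?_
        have hn0 : (0 : ℝ) < n := by exact_mod_cast hF n hn
        have hr0 : (0 : ℝ) < rd n := by exact_mod_cast rd_pos n
        have key : (rd n : ℝ) ^ (-ν₀) ≤ W * m ^ n.primeFactors.card := by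
          have e1 : (rd n : ℝ) ^ (-ν₀) =
              ∏ p ∈ n.primeFactors, (if 5 ≤ p then (p : ℝ) ^ (-ν₀) else 1) := by
            unfold rd
            push_cast
            rw [← Real.finsetProd_rpow _ _ fun p _ => by positivity, Finset.prod_filter]
          have e2 : ∀ p ∈ n.primeFactors, (if 5 ≤ p then (p : ℝ) ^ (-ν₀) else 1) ≤
              m * (if p < p₀ + 5 then 1 / m else 1) := by
            intro p hp
            have hp1 : (1 : ℝ) ≤ p := by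
              exact_mod_cast (Nat.prime_of_mem_primeFactors hp).one_le
            have hle : (p : ℝ) ^ (-ν₀) ≤ 1 := Real.rpow_le_one_of_one_le_of_nonpos hp1 (by linarith)
            by_cases h3 : p < p₀ + 5
            · rw [if_pos h3, mul_one_div_cancel hm0.ne']
              split_ifs
              · exact hle
              · exact le_rfl
            · rw [if_neg h3, if_pos (by omega : 5 ≤ p), mul_one]
              exact hp₀ p (by omega)
          rw [e1]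
          calc ∏ p ∈ n.primeFactors, (if 5 ≤ p then (p : ℝ) ^ (-ν₀) else 1)
              ≤ ∏ p ∈ n.primeFactors, (m * (if p < p₀ + 5 then 1 / m else 1)) :=
                Finset.prod_le_prod (fun p _ => by split_ifs <;> positivity) e2
            _ = m ^ n.primeFactors.card *
                ∏ p ∈ n.primeFactors, (if p < p₀ + 5 then 1 / m else 1) := by
                rw [Finset.prod_mul_distrib, Finset.prod_const]
            _ ≤ m ^ n.primeFactors.card * W := by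
                apply mul_le_mul_of_nonneg_left _ (by positivity)
                rw [← Finset.prod_filter, Finset.prod_const, hW]
                apply pow_le_pow_right₀ h1m
                have h4 : n.primeFactors.filter (fun p => p < p₀ + 5) ⊆ range (p₀ + 5) := by
                  intro p hp
                  exact mem_range.2 (mem_filter.1 hp).2
                have h5 := card_le_card h4
                rwa [card_range] at h5
            _ = _ := by ring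
        rw [zero_mul, Real.rpow_zero, one_mul, mul_one]
        calc (n : ℝ) ^ (-u) * (rd n : ℝ) ^ (-ν₀) / rd n
            ≤ (n : ℝ) ^ (-u) * (W * m ^ n.primeFactors.card) / rd n := by
              apply div_le_div_of_nonneg_right _ hr0.le
              exact mul_le_mul_of_nonneg_left key (by positivity)
          _ = _ := by ring
    _ = W * ∑ n ∈ F, 1 * m ^ n.primeFactors.card * (n : ℝ) ^ (-u) *
          (rad n : ℝ) ^ (0 * u) / rd n := by rw [Finset.mul_sum]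
    _ ≤ W * (C * Real.exp ((1 + 1) * (1 * m) / (u * Real.log (1 / u)))) :=
        mul_le_mul_of_nonneg_left h2 hW0
    _ ≤ W * (C * Real.exp (η / (u * Real.log (1 / u)))) := by
        apply mul_le_mul_of_nonneg_left _ hW0
        apply mul_le_mul_of_nonneg_left _ hC.le
        apply Real.exp_le_exp.2
        apply div_le_div_of_nonneg_right _ hlog.le
        linarith
    _ = C * (1 / m) ^ (p₀ + 5) * Real.exp (η / (u * Real.log (1 / u))) := by rw [hW]; ring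

theorem rd_mul {m r : ℕ} (h : m.Coprime r) : rd (m * r) = rd m * rd r := by
  unfold rd
  rw [h.primeFactors_mul, Finset.filter_union, Finset.prod_union]
  exact (Finset.disjoint_filter_filter h.disjoint_primeFactors)

/-- one block, pairs -/
theorem pair_block {lam ν₀ δ K ε η : ℝ} (hlam0 : 0 < lam) (hlam6 : lam < 1 / 6) (hν : 0 < ν₀)
    (_hδ : 0 ≤ δ) (hκ : 0 < 6 * lam - δ / 2) (hK : 1 ≤ K) (hε : 0 < ε) (hη : 0 < η)
    (hcnt : S_CNTg Cs (fun _ => 1)) :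
    ∃ X₀ : ℝ, 3 < X₀ ∧ ∀ (X Y T : ℝ) (F : Finset (ℤ × ℤ)) (M R : ℤ × ℤ → ℕ), X₀ ≤ X → 1 ≤ Y →
      1 ≤ T → T ≤ K * X ^ (6 * lam) → Y ≤ K * T * X ^ (6 - 6 * lam) →
      (∀ x ∈ F, Mn x.1 x.2 ∧ Rg X Y x.1 x.2 ∧ 1 ≤ M x ∧ 1 ≤ R x ∧ (M x).Coprime (R x) ∧
        T ≤ (M x * R x : ℕ) ∧ ((M x * R x : ℕ) : ℝ) ≤ X ∧ Cs (M x * R x) x.1 x.2 ∧
        X ^ δ ≤ K * R x ∧ T * (rd (R x) : ℝ) ^ ν₀ ≤ (M x * R x : ℕ)) →
      (F.card : ℝ) ≤ Real.exp ((5 - 6 * lam) * Real.log X +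
        (1 + ε) * √(8 * (1 + η) * (6 * lam - δ / 2) * Real.log X /
          Real.log (Real.log X))) := by
  classical
  obtain ⟨C, hC, hcnt⟩ := hcnt
  obtain ⟨C₁, hC₁, hT⟩ := tilt_one (z := 1) (θ := 0) one_pos le_rfl (by norm_num)
  obtain ⟨u₂, hu₂, hu₂2, hgen⟩ := hT (ε / 2) (half_pos hε)
  obtain ⟨C₂, hC₂, u₃, hu₃, hu₃2, hsm⟩ := small_gen (ν₀ := ν₀ / 2) (η := η / 2) (by positivity)
    (by positivity)
  have hK0 : 0 < K := by linarith
  obtain ⟨u₀, hu₀e⟩ : ∃ u₀ : ℝ, u₀ = min u₂ u₃ := ⟨_, rfl⟩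
  have hu₀ : 0 < u₀ := by rw [hu₀e]; exact lt_min hu₂ hu₃
  have hu02 : u₀ ≤ u₂ := by rw [hu₀e]; exact min_le_left _ _
  have hu03 : u₀ ≤ u₃ := by rw [hu₀e]; exact min_le_right _ _
  have hη1 : 0 < 1 + η := by linarith
  obtain ⟨κ, hκe⟩ : ∃ κ : ℝ, κ = 6 * lam - δ / 2 := ⟨_, rfl⟩
  rw [← hκe] at hκ
  -- the fixed u
  obtain ⟨u₁, hu₁⟩ : ∃ u₁ : ℝ, u₁ = u₀ / 2 := ⟨_, rfl⟩
  have hu₁0 : 0 < u₁ := by rw [hu₁]; positivity
  have hu₁1 : u₁ < u₀ := by rw [hu₁]; linarith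
  obtain ⟨G₁, hG₁⟩ : ∃ G₁ : ℝ, G₁ =
      C₁ * Real.exp ((1 + ε / 2) * (1 * 1) / (u₁ * Real.log (1 / u₁))) := ⟨_, rfl⟩
  have hG₁0 : 0 < G₁ := by rw [hG₁]; positivity
  obtain ⟨G₂, hG₂⟩ : ∃ G₂ : ℝ, G₂ =
      C₂ * Real.exp (η / 2 / (u₁ * Real.log (1 / u₁))) := ⟨_, rfl⟩
  have hG₂0 : 0 < G₂ := by rw [hG₂]; positivity
  obtain ⟨A, hA⟩ : ∃ A : ℝ, A = C * (K * K * K * (C₁ * C₂)) + C * (G₁ * G₂) := ⟨_, rfl⟩
  have hev := (Pool.Agent.N163.FH.numg hκ (half_pos hε) hu₀ hη1).and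
    ((Pool.Agent.N50.SZ.cst (κ := (1 + η) * κ / 2) (A := A) (by positivity)
      (show 0 < ε / 2 by positivity)).and (eventually_ge_atTop (2 : ℝ)))
  obtain ⟨L₀, hL₀⟩ := eventually_atTop.1 hev
  refine ⟨max (Real.exp L₀) 4, lt_max_of_lt_right (by norm_num), ?_⟩
  intro X Y T F M R hX hY hT1 hTX hYT hF
  have hX4 : 4 ≤ X := (le_max_right _ _).trans hX
  have hX0 : 0 < X := by linarith
  have hX1 : 1 ≤ X := by linarith
  obtain ⟨L, hL⟩ : ∃ L : ℝ, L = Real.log X := ⟨_, rfl⟩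
  have hLL : L₀ ≤ L := by
    rw [hL, Real.le_log_iff_exp_le hX0]
    exact (le_max_left _ _).trans hX
  obtain ⟨⟨u, hu0, huu, hunum⟩, hAs, hL2⟩ := hL₀ L hLL
  rw [← hL, ← hκe]
  have hS16 : 16 * ((1 + η) * κ / 2) * L = 8 * (1 + η) * κ * L := by ring
  rw [hS16] at hAs
  obtain ⟨S, hS⟩ : ∃ S : ℝ, S = √(8 * (1 + η) * κ * L / Real.log L) := ⟨_, rfl⟩
  rw [← hS] at hunum hAs ⊢
  have hS0 : 0 ≤ S := by rw [hS]; exact Real.sqrt_nonneg _
  have hu12 : u < 1 / 2 := by linarith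
  have hu1 : u < 1 := by linarith
  have hY0 : 0 < Y := by linarith
  have hT0 : 0 < T := by linarith
  obtain ⟨J, hJ⟩ : ∃ J : Finset (ℕ × ℕ), J = F.image (fun x => (M x, R x)) := ⟨_, rfl⟩
  obtain ⟨J1, hJ1⟩ : ∃ J1 : Finset ℕ, J1 = J.image Prod.fst := ⟨_, rfl⟩
  obtain ⟨J2, hJ2⟩ : ∃ J2 : Finset ℕ, J2 = J.image Prod.snd := ⟨_, rfl⟩
  have hD : ∀ y ∈ J, 1 ≤ y.1 ∧ 1 ≤ y.2 ∧ y.1.Coprime y.2 ∧ T ≤ (y.1 * y.2 : ℕ) ∧
      ((y.1 * y.2 : ℕ) : ℝ) ≤ X ∧ X ^ δ ≤ K * y.2 ∧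
      T * (rd y.2 : ℝ) ^ ν₀ ≤ (y.1 * y.2 : ℕ) := by
    intro y hy
    rw [hJ] at hy
    obtain ⟨x, hx, rfl⟩ := mem_image.1 hy
    obtain ⟨-, -, q1, q2, q3, q4, q5, -, q6, q7⟩ := hF x hx
    exact ⟨q1, q2, q3, q4, q5, q6, q7⟩
  have hD1 : ∀ m ∈ J1, 1 ≤ m := by
    intro m hm
    rw [hJ1] at hm
    obtain ⟨y, hy, rfl⟩ := mem_image.1 hm
    exact (hD y hy).1
  have hD2 : ∀ m ∈ J2, 1 ≤ m := by
    intro m hm
    rw [hJ2] at hm
    obtain ⟨y, hy, rfl⟩ := mem_image.1 hm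
    exact (hD y hy).2.1
  have hJsub : J ⊆ J1 ×ˢ J2 := by
    intro y hy
    rw [mem_product, hJ1, hJ2]
    exact ⟨mem_image_of_mem _ hy, mem_image_of_mem _ hy⟩
  -- products
  have hprod : ∀ g h : ℕ → ℝ, (∀ n, 0 ≤ g n) → (∀ n, 0 ≤ h n) →
      ∑ y ∈ J, g y.1 * h y.2 ≤ (∑ m ∈ J1, g m) * ∑ r ∈ J2, h r := by
    intro g h hg hh
    rw [Finset.sum_mul_sum, ← Finset.sum_product']
    exact Finset.sum_le_sum_of_subset_of_nonneg hJsub fun y _ _ => mul_nonneg (hg _) (hh _)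
  have hcard : (F.card : ℝ) ≤ ∑ y ∈ J, (C * (Y / (X * ((y.1 * y.2) * rd (y.1 * y.2) : ℕ)) +
      X ^ 2)) := by
    have e1 := card_eq_sum_card_image (fun x => (M x, R x)) F
    rw [← hJ] at e1
    rw [e1]
    push_cast
    refine Finset.sum_le_sum fun y hy => ?_
    obtain ⟨q1, q2, q3, q4, q5, q6, q7⟩ := hD y hy
    have hn1 : 1 ≤ y.1 * y.2 := Nat.mul_pos q1 q2
    have := hcnt X Y (y.1 * y.2) hX1 hY hn1 (by
      have r2 : (rd (y.1 * y.2) : ℝ) ≤ (y.1 * y.2 : ℕ) := by exact_mod_cast rd_le hn1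
      have r3 : (0 : ℝ) ≤ (y.1 * y.2 : ℕ) := Nat.cast_nonneg _
      have r4 : (0 : ℝ) ≤ rd (y.1 * y.2) := Nat.cast_nonneg _
      calc (((y.1 * y.2) * rd (y.1 * y.2) : ℕ) : ℝ)
          = ((y.1 * y.2 : ℕ) : ℝ) * (rd (y.1 * y.2) : ℝ) := by push_cast; ring
        _ ≤ X * X := mul_le_mul q5 (r2.trans q5) r4 hX0.le
        _ = X ^ 2 := by ring) {x ∈ F | (M x, R x) = y} (by
      intro x hx
      rw [mem_filter] at hx
      obtain ⟨hxF, rfl⟩ := hx
      exact ⟨(hF x hxF).1, (hF x hxF).2.1, (hF x hxF).2.2.2.2.2.2.2.1⟩)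
    rw [mul_one] at this
    push_cast at this ⊢
    exact this
  -- elementary
  have hroot : ∀ y ∈ J, (1 : ℝ) ≤ (((y.1 * y.2 : ℕ) : ℝ) / T) ^ (1 / 2 : ℝ) *
      (rd y.2 : ℝ) ^ (-(ν₀ / 2)) := by
    intro y hy
    obtain ⟨q1, q2, q3, q4, q5, q6, q7⟩ := hD y hy
    have hr0 : (0 : ℝ) < rd y.2 := by exact_mod_cast rd_pos y.2
    have h2 : (rd y.2 : ℝ) ^ ν₀ ≤ ((y.1 * y.2 : ℕ) : ℝ) / T := by
      rw [le_div_iff₀ hT0]
      linarith
    have h3 : ((rd y.2 : ℝ) ^ ν₀) ^ (1 / 2 : ℝ) ≤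
        (((y.1 * y.2 : ℕ) : ℝ) / T) ^ (1 / 2 : ℝ) :=
      Real.rpow_le_rpow (by positivity) h2 (by norm_num)
    rw [← Real.rpow_mul hr0.le] at h3
    rw [Real.rpow_neg hr0.le, ← div_eq_mul_inv, le_div_iff₀ (by positivity), one_mul]
    refine le_trans (le_of_eq ?_) h3
    congr 1
    ring
  -- the first part
  have p1 : ∑ y ∈ J, Y / (X * ((y.1 * y.2) * rd (y.1 * y.2) : ℕ)) ≤
      Y / X * T ^ (u - 1) * (K * X ^ (-(δ / 2 * u))) *
        ((C₁ * Real.exp ((1 + ε / 2) * (1 * 1) / (u * Real.log (1 / u)))) *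
          (C₂ * Real.exp (η / 2 / (u / 2 * Real.log (1 / (u / 2)))))) := by
    have g1 := hgen u hu0 (by linarith) J1 hD1
    have g2 := hsm (u / 2) (by positivity) (by linarith) J2 hD2
    have g3 : (∑ m ∈ J1, 1 * (1 : ℝ) ^ m.primeFactors.card * (m : ℝ) ^ (-u) *
        (rad m : ℝ) ^ (0 * u) / rd m) *
        (∑ r ∈ J2, (r : ℝ) ^ (-(u / 2)) * (rd r : ℝ) ^ (-(ν₀ / 2)) / rd r) ≤
        (C₁ * Real.exp ((1 + ε / 2) * (1 * 1) / (u * Real.log (1 / u)))) *
          (C₂ * Real.exp (η / 2 / (u / 2 * Real.log (1 / (u / 2))))) :=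
      mul_le_mul g1 g2 (Finset.sum_nonneg fun n _ => by positivity) (by positivity)
    have g4 := hprod (fun m => 1 * (1 : ℝ) ^ m.primeFactors.card * (m : ℝ) ^ (-u) *
      (rad m : ℝ) ^ (0 * u) / rd m) (fun r => (r : ℝ) ^ (-(u / 2)) *
      (rd r : ℝ) ^ (-(ν₀ / 2)) / rd r) (fun n => by positivity) (fun n => by positivity)
    refine le_trans ?_ (mul_le_mul_of_nonneg_left (g4.trans g3) (by positivity))
    rw [Finset.mul_sum]
    refine Finset.sum_le_sum fun y hy => ?_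
    obtain ⟨q1, q2, q3, q4, q5, q6, q7⟩ := hD y hy
    have hm0 : (0 : ℝ) < y.1 := by exact_mod_cast q1
    have hr0 : (0 : ℝ) < y.2 := by exact_mod_cast q2
    have hdm : (0 : ℝ) < rd y.1 := by exact_mod_cast rd_pos y.1
    have hdr : (0 : ℝ) < rd y.2 := by exact_mod_cast rd_pos y.2
    have hrt := hroot y hy
    rw [rd_mul q3]
    obtain ⟨n, hn⟩ : ∃ n : ℝ, n = (y.1 : ℝ) * y.2 := ⟨_, rfl⟩
    have hn' : ((y.1 * y.2 : ℕ) : ℝ) = n := by rw [hn]; push_cast; rfl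
    rw [hn'] at hrt q4
    have hn0 : 0 < n := by rw [hn]; positivity
    have k1 : (n / T) ^ (1 / 2 : ℝ) * n⁻¹ ≤ T ^ (u - 1) * n ^ (-u) := by
      have k2 : (n / T) ^ (1 / 2 : ℝ) * n⁻¹ =
          T ^ (-(1 / 2) : ℝ) * (n ^ (u - 1 / 2) * n ^ (-u)) := by
        rw [Real.div_rpow hn0.le hT0.le, Real.rpow_neg hT0.le, ← Real.rpow_add hn0,
          show u - 1 / 2 + -u = 1 / 2 - 1 by ring, Real.rpow_sub_one hn0.ne']
        field_simp
      have k3 : T ^ (u - 1) = T ^ (-(1 / 2) : ℝ) * T ^ (u - 1 / 2) := by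
        rw [← Real.rpow_add hT0]
        congr 1
        ring
      rw [k2, k3, mul_assoc]
      apply mul_le_mul_of_nonneg_left _ (by positivity)
      apply mul_le_mul_of_nonneg_right _ (by positivity)
      exact Real.rpow_le_rpow_of_nonpos hT0 q4 (by linarith)
    have k4 : (1 : ℝ) ≤ K * X ^ (-(δ / 2 * u)) * (y.2 : ℝ) ^ (u / 2) := by
      have k5 : (X ^ δ) ^ (u / 2) ≤ (K * y.2) ^ (u / 2) :=
        Real.rpow_le_rpow (by positivity) q6 (by positivity)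
      rw [Real.mul_rpow hK0.le hr0.le, ← Real.rpow_mul hX0.le] at k5
      have k6 : K ^ (u / 2) ≤ K := by
        calc K ^ (u / 2) ≤ K ^ (1 : ℝ) :=
              Real.rpow_le_rpow_of_exponent_le hK (by linarith)
          _ = K := Real.rpow_one K
      rw [Real.rpow_neg hX0.le, mul_right_comm, ← div_eq_mul_inv, le_div_iff₀ (by positivity),
        one_mul]
      calc X ^ (δ / 2 * u) = X ^ (δ * (u / 2)) := by congr 1; ring
        _ ≤ K ^ (u / 2) * (y.2 : ℝ) ^ (u / 2) := k5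
        _ ≤ K * (y.2 : ℝ) ^ (u / 2) := mul_le_mul_of_nonneg_right k6 (by positivity)
    have k7 : n ^ (-u) * (y.2 : ℝ) ^ (u / 2) = (y.1 : ℝ) ^ (-u) * (y.2 : ℝ) ^ (-(u / 2)) := by
      rw [hn, Real.mul_rpow hm0.le hr0.le, mul_assoc, ← Real.rpow_add hr0]
      congr 2
      ring
    have hc : (0 : ℝ) ≤ Y / X / (rd y.1 * rd y.2) := by positivity
    have e0 : ((y.1 * y.2 * (rd y.1 * rd y.2) : ℕ) : ℝ) = n * ((rd y.1 : ℝ) * rd y.2) := by
      rw [hn]; push_cast; ring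
    rw [e0]
    calc Y / (X * (n * ((rd y.1 : ℝ) * rd y.2)))
        = Y / X / (rd y.1 * rd y.2) * n⁻¹ * 1 := by field_simp
      _ ≤ Y / X / (rd y.1 * rd y.2) * n⁻¹ *
          ((n / T) ^ (1 / 2 : ℝ) * (rd y.2 : ℝ) ^ (-(ν₀ / 2))) :=
          mul_le_mul_of_nonneg_left hrt (by positivity)
      _ = Y / X / (rd y.1 * rd y.2) * (rd y.2 : ℝ) ^ (-(ν₀ / 2)) *
          ((n / T) ^ (1 / 2 : ℝ) * n⁻¹) := by ring
      _ ≤ Y / X / (rd y.1 * rd y.2) * (rd y.2 : ℝ) ^ (-(ν₀ / 2)) *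
          (T ^ (u - 1) * n ^ (-u)) := mul_le_mul_of_nonneg_left k1 (by positivity)
      _ ≤ Y / X / (rd y.1 * rd y.2) * (rd y.2 : ℝ) ^ (-(ν₀ / 2)) *
          (T ^ (u - 1) * n ^ (-u)) * (K * X ^ (-(δ / 2 * u)) * (y.2 : ℝ) ^ (u / 2)) :=
          le_mul_of_one_le_right (by positivity) k4
      _ = Y / X / (rd y.1 * rd y.2) * (rd y.2 : ℝ) ^ (-(ν₀ / 2)) * T ^ (u - 1) *
          (K * X ^ (-(δ / 2 * u))) * (n ^ (-u) * (y.2 : ℝ) ^ (u / 2)) := by ring
      _ = _ := by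
          rw [k7, zero_mul, Real.rpow_zero, one_pow]
          field_simp
  -- the second part
  have p2 : (J.card : ℝ) ≤ X ^ (1 / 2 : ℝ) * (X ^ (1 + u₁) * (G₁ * G₂)) := by
    have g1 := hgen u₁ hu₁0 (by linarith) J1 hD1
    have g2 := hsm u₁ hu₁0 (by linarith) J2 hD2
    rw [← hG₁] at g1
    rw [← hG₂] at g2
    have g3 := mul_le_mul g1 g2 (Finset.sum_nonneg fun n _ => by positivity) hG₁0.le
    have g4 := hprod (fun m => 1 * (1 : ℝ) ^ m.primeFactors.card * (m : ℝ) ^ (-u₁) *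
      (rad m : ℝ) ^ (0 * u₁) / rd m) (fun r => (r : ℝ) ^ (-u₁) *
      (rd r : ℝ) ^ (-(ν₀ / 2)) / rd r) (fun n => by positivity) (fun n => by positivity)
    rw [← mul_assoc]
    refine le_trans ?_ (mul_le_mul_of_nonneg_left (g4.trans g3) (by positivity))
    rw [Finset.mul_sum, card_eq_sum_ones]
    push_cast
    refine Finset.sum_le_sum fun y hy => ?_
    obtain ⟨q1, q2, q3, q4, q5, q6, q7⟩ := hD y hy
    have hm0 : (0 : ℝ) < y.1 := by exact_mod_cast q1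
    have hr0 : (0 : ℝ) < y.2 := by exact_mod_cast q2
    have hdm : (0 : ℝ) < rd y.1 := by exact_mod_cast rd_pos y.1
    have hdr : (0 : ℝ) < rd y.2 := by exact_mod_cast rd_pos y.2
    have hrt := hroot y hy
    obtain ⟨n, hn⟩ : ∃ n : ℝ, n = (y.1 : ℝ) * y.2 := ⟨_, rfl⟩
    have hn' : ((y.1 * y.2 : ℕ) : ℝ) = n := by rw [hn]; push_cast; rfl
    rw [hn'] at hrt q4 q5
    have hn0 : 0 < n := by rw [hn]; positivity
    have hrdn : (rd y.1 : ℝ) * rd y.2 ≤ n := by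
      rw [hn]
      have j1 : (rd y.1 : ℝ) ≤ y.1 := by exact_mod_cast rd_le q1
      have j2 : (rd y.2 : ℝ) ≤ y.2 := by exact_mod_cast rd_le q2
      exact mul_le_mul j1 j2 hdr.le hm0.le
    have k0 : (n / T) ^ (1 / 2 : ℝ) ≤ X ^ (1 / 2 : ℝ) := by
      refine Real.rpow_le_rpow (by positivity) ?_ (by norm_num)
      exact (div_le_self hn0.le hT1).trans q5
    have k1 : (1 : ℝ) ≤ X ^ (1 + u₁) * (n ^ (-u₁) / (rd y.1 * rd y.2)) := by
      rw [mul_div_assoc', le_div_iff₀ (by positivity), one_mul]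
      calc (rd y.1 : ℝ) * rd y.2 ≤ n := hrdn
        _ = n ^ (1 + u₁) * n ^ (-u₁) := by
            rw [← Real.rpow_add hn0, show 1 + u₁ + -u₁ = 1 by ring, Real.rpow_one]
        _ ≤ X ^ (1 + u₁) * n ^ (-u₁) := by
            apply mul_le_mul_of_nonneg_right _ (by positivity)
            exact Real.rpow_le_rpow hn0.le q5 (by linarith)
    have k7 : n ^ (-u₁) = (y.1 : ℝ) ^ (-u₁) * (y.2 : ℝ) ^ (-u₁) := by
      rw [hn, Real.mul_rpow hm0.le hr0.le]
    calc (1 : ℝ) ≤ (n / T) ^ (1 / 2 : ℝ) * (rd y.2 : ℝ) ^ (-(ν₀ / 2)) := hrt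
      _ ≤ X ^ (1 / 2 : ℝ) * (rd y.2 : ℝ) ^ (-(ν₀ / 2)) :=
          mul_le_mul_of_nonneg_right k0 (by positivity)
      _ ≤ X ^ (1 / 2 : ℝ) * (rd y.2 : ℝ) ^ (-(ν₀ / 2)) *
          (X ^ (1 + u₁) * (n ^ (-u₁) / (rd y.1 * rd y.2))) :=
          le_mul_of_one_le_right (by positivity) k1
      _ = _ := by
          rw [k7, zero_mul, Real.rpow_zero, one_pow]
          field_simp
  have hcard2 : (F.card : ℝ) ≤ C * (Y / X * T ^ (u - 1) * (K * X ^ (-(δ / 2 * u))) *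
        ((C₁ * Real.exp ((1 + ε / 2) * (1 * 1) / (u * Real.log (1 / u)))) *
          (C₂ * Real.exp (η / 2 / (u / 2 * Real.log (1 / (u / 2))))))) +
        C * X ^ 2 * (X ^ (1 / 2 : ℝ) * (X ^ (1 + u₁) * (G₁ * G₂))) := by
    refine hcard.trans ?_
    have e1 : ∑ y ∈ J, (C * (Y / (X * ((y.1 * y.2) * rd (y.1 * y.2) : ℕ)) + X ^ 2)) =
        C * (∑ y ∈ J, Y / (X * ((y.1 * y.2) * rd (y.1 * y.2) : ℕ))) +
        C * X ^ 2 * (J.card : ℝ) := by
      rw [Finset.mul_sum, ← nsmul_eq_mul', ← Finset.sum_const, ← Finset.sum_add_distrib]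
      exact Finset.sum_congr rfl fun y _ => by ring
    rw [e1]
    exact add_le_add (mul_le_mul_of_nonneg_left p1 hC.le)
      (mul_le_mul_of_nonneg_left p2 (by positivity))
  -- the sizes
  have hXe : X = Real.exp L := by rw [hL, Real.exp_log hX0]
  have s2 : X ^ 2 * (X ^ (1 / 2 : ℝ) * (X ^ (1 + u₁) * (G₁ * G₂))) ≤
      G₁ * G₂ * Real.exp ((5 - 6 * lam) * L) := by
    have k1 : X ^ (1 / 2 : ℝ) * X ^ (1 + u₁) ≤ X ^ (2 : ℝ) := by
      rw [← Real.rpow_add hX0]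
      exact Real.rpow_le_rpow_of_exponent_le hX1 (by linarith)
    rw [Real.rpow_two] at k1
    have k2 : X ^ 4 ≤ Real.exp ((5 - 6 * lam) * L) := by
      rw [hXe, ← Real.exp_nat_mul]
      apply Real.exp_le_exp.2
      push_cast
      nlinarith
    calc X ^ 2 * (X ^ (1 / 2 : ℝ) * (X ^ (1 + u₁) * (G₁ * G₂)))
        = X ^ 2 * ((X ^ (1 / 2 : ℝ) * X ^ (1 + u₁)) * (G₁ * G₂)) := by ring
      _ ≤ X ^ 2 * (X ^ 2 * (G₁ * G₂)) := by
          apply mul_le_mul_of_nonneg_left _ (by positivity)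
          exact mul_le_mul_of_nonneg_right k1 (by positivity)
      _ = G₁ * G₂ * X ^ 4 := by ring
      _ ≤ _ := mul_le_mul_of_nonneg_left k2 (by positivity)
  have s1 : Y / X * T ^ (u - 1) * (K * X ^ (-(δ / 2 * u))) ≤
      (K * K * K) * Real.exp ((5 - 6 * lam) * L + u * κ * L) := by
    have k1 : T * T ^ (u - 1) = T ^ u := by
      rw [Real.rpow_sub_one hT0.ne']; field_simp
    have k2 : T ^ u ≤ K * Real.exp (u * (6 * lam) * L) := by
      calc T ^ u ≤ (K * X ^ (6 * lam)) ^ u := Real.rpow_le_rpow hT0.le hTX hu0.le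
        _ = K ^ u * (X ^ (6 * lam)) ^ u := Real.mul_rpow hK0.le (by positivity)
        _ = K ^ u * Real.exp (u * (6 * lam) * L) := by
            congr 1
            rw [hXe, ← Real.exp_mul, ← Real.exp_mul]
            congr 1; ring
        _ ≤ K * Real.exp (u * (6 * lam) * L) := by
            apply mul_le_mul_of_nonneg_right _ (Real.exp_pos _).le
            calc K ^ u ≤ K ^ (1 : ℝ) := Real.rpow_le_rpow_of_exponent_le hK hu1.le
              _ = K := Real.rpow_one K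
    have k3 : X ^ (6 - 6 * lam) / X = Real.exp ((5 - 6 * lam) * L) := by
      rw [hXe, ← Real.exp_mul, ← Real.exp_sub]
      congr 1; ring
    have k4 : X ^ (-(δ / 2 * u)) = Real.exp (-(δ / 2 * u) * L) := by
      rw [hXe, ← Real.exp_mul]
      congr 1; ring
    calc Y / X * T ^ (u - 1) * (K * X ^ (-(δ / 2 * u)))
        ≤ (K * T * X ^ (6 - 6 * lam)) / X * T ^ (u - 1) * (K * X ^ (-(δ / 2 * u))) := by
          apply mul_le_mul_of_nonneg_right _ (by positivity)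
          apply mul_le_mul_of_nonneg_right _ (by positivity)
          exact div_le_div_of_nonneg_right hYT hX0.le
      _ = K * (X ^ (6 - 6 * lam) / X) * (T * T ^ (u - 1)) * (K * X ^ (-(δ / 2 * u))) := by ring
      _ ≤ K * (X ^ (6 - 6 * lam) / X) * (K * Real.exp (u * (6 * lam) * L)) *
          (K * X ^ (-(δ / 2 * u))) := by
          rw [k1]
          apply mul_le_mul_of_nonneg_right _ (by positivity)
          exact mul_le_mul_of_nonneg_left k2 (by positivity)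
      _ = (K * K * K) * (Real.exp ((5 - 6 * lam) * L) * Real.exp (u * (6 * lam) * L) *
          Real.exp (-(δ / 2 * u) * L)) := by
          rw [k3, k4]; ring
      _ = _ := by
          rw [← Real.exp_add, ← Real.exp_add, hκe]
          congr 2
          ring
  -- the exponents
  have hlu : 0 < Real.log (1 / u) := Real.log_pos (by rw [lt_div_iff₀ hu0]; linarith)
  have hlog : 0 < u * Real.log (1 / u) := mul_pos hu0 hlu
  have s3 : (1 + ε / 2) * (1 * 1) / (u * Real.log (1 / u)) +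
      η / 2 / (u / 2 * Real.log (1 / (u / 2))) ≤
      (1 + ε / 2) * (1 + η) / (u * Real.log (1 / u)) := by
    have k1 : Real.log (1 / u) ≤ Real.log (1 / (u / 2)) := by
      apply Real.log_le_log (by positivity)
      apply one_div_le_one_div_of_le <;> linarith
    have k2 : η / 2 / (u / 2 * Real.log (1 / (u / 2))) ≤ η / (u * Real.log (1 / u)) := by
      calc η / 2 / (u / 2 * Real.log (1 / (u / 2))) ≤ η / 2 / (u / 2 * Real.log (1 / u)) := by
            apply div_le_div_of_nonneg_left (by positivity) (by positivity)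
            exact mul_le_mul_of_nonneg_left k1 (by positivity)
        _ = η / (u * Real.log (1 / u)) := by field_simp
    calc (1 + ε / 2) * (1 * 1) / (u * Real.log (1 / u)) +
        η / 2 / (u / 2 * Real.log (1 / (u / 2)))
        ≤ (1 + ε / 2) * (1 * 1) / (u * Real.log (1 / u)) + η / (u * Real.log (1 / u)) := by
          linarith
      _ = ((1 + ε / 2) + η) / (u * Real.log (1 / u)) := by ring
      _ ≤ (1 + ε / 2) * (1 + η) / (u * Real.log (1 / u)) := by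
          apply div_le_div_of_nonneg_right _ hlog.le
          nlinarith [mul_pos hε hη]
  -- the end
  have t1 : Y / X * T ^ (u - 1) * (K * X ^ (-(δ / 2 * u))) *
        ((C₁ * Real.exp ((1 + ε / 2) * (1 * 1) / (u * Real.log (1 / u)))) *
          (C₂ * Real.exp (η / 2 / (u / 2 * Real.log (1 / (u / 2)))))) ≤
      (K * K * K * (C₁ * C₂)) *
        (Real.exp ((5 - 6 * lam) * L) * Real.exp ((1 + ε / 2) * S)) := by
    refine (mul_le_mul_of_nonneg_right s1 (by positivity)).trans ?_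
    have k5 : Real.exp ((5 - 6 * lam) * L + u * κ * L) *
        (Real.exp ((1 + ε / 2) * (1 * 1) / (u * Real.log (1 / u))) *
          Real.exp (η / 2 / (u / 2 * Real.log (1 / (u / 2))))) ≤
        Real.exp ((5 - 6 * lam) * L) * Real.exp ((1 + ε / 2) * S) := by
      rw [← Real.exp_add, ← Real.exp_add, ← Real.exp_add]
      apply Real.exp_le_exp.2
      nlinarith
    calc K * K * K * Real.exp ((5 - 6 * lam) * L + u * κ * L) *
        ((C₁ * Real.exp ((1 + ε / 2) * (1 * 1) / (u * Real.log (1 / u)))) *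
          (C₂ * Real.exp (η / 2 / (u / 2 * Real.log (1 / (u / 2))))))
        = (K * K * K * (C₁ * C₂)) * (Real.exp ((5 - 6 * lam) * L + u * κ * L) *
          (Real.exp ((1 + ε / 2) * (1 * 1) / (u * Real.log (1 / u))) *
            Real.exp (η / 2 / (u / 2 * Real.log (1 / (u / 2)))))) := by ring
      _ ≤ _ := mul_le_mul_of_nonneg_left k5 (by positivity)
  have t2 : X ^ 2 * (X ^ (1 / 2 : ℝ) * (X ^ (1 + u₁) * (G₁ * G₂))) ≤
      G₁ * G₂ * (Real.exp ((5 - 6 * lam) * L) * Real.exp ((1 + ε / 2) * S)) := by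
    refine s2.trans ?_
    apply mul_le_mul_of_nonneg_left _ (by positivity)
    have : 1 ≤ Real.exp ((1 + ε / 2) * S) := Real.one_le_exp (by positivity)
    nlinarith [Real.exp_pos ((5 - 6 * lam) * L)]
  calc (F.card : ℝ) ≤ _ := hcard2
    _ ≤ C * ((K * K * K * (C₁ * C₂)) *
          (Real.exp ((5 - 6 * lam) * L) * Real.exp ((1 + ε / 2) * S))) +
        C * (G₁ * G₂ * (Real.exp ((5 - 6 * lam) * L) * Real.exp ((1 + ε / 2) * S))) := by
        rw [mul_assoc C (X ^ 2)]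
        exact add_le_add (mul_le_mul_of_nonneg_left t1 hC.le)
          (mul_le_mul_of_nonneg_left t2 hC.le)
    _ = A * (Real.exp ((5 - 6 * lam) * L) * Real.exp ((1 + ε / 2) * S)) := by rw [hA]; ring
    _ ≤ Real.exp (ε / 2 * S) * (Real.exp ((5 - 6 * lam) * L) * Real.exp ((1 + ε / 2) * S)) :=
        mul_le_mul_of_nonneg_right hAs (by positivity)
    _ = Real.exp ((5 - 6 * lam) * L + (1 + ε) * S) := by
        rw [← Real.exp_add, ← Real.exp_add]
        congr 1; ring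

end Pool.Agent.U853.AN
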