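import Pool.Agent.U853.AN.Cl2
import Pool.Agent.U853.AN.Asm2
import Pool.Agent.U853.AN.Pair

/-!
# Anatomy of the violators of the inequality of Frey: the part of the discriminant at the additive primes
-/

set_option autoImplicit false

namespace Pool.Agent.U853.AN

open Finset Filter Topology Pool.Agent.N906.SZ Pool.Agent.N906.FH Pool.Agent.N692.FH

/-- the gain at the squared primes -/
def Ma (a b : ℤ) : ℕ := ∏ p ∈ Sq a b, p ^ ex a b p

/-- the rest of the gain -/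
def Ra (a b : ℤ) : ℕ := ∏ p ∈ (Dd a b).natAbs.primeFactors \ Sq a b, p ^ ex a b p

theorem sq_pf (a b : ℤ) : Sq a b ⊆ (Dd a b).natAbs.primeFactors := filter_subset _ _

theorem Ma_Ra (a b : ℤ) : Ma a b * Ra a b = nn a b := by
  unfold Ma Ra nn
  rw [mul_comm]
  exact Finset.prod_sdiff (sq_pf a b)

theorem Ma_pos (a b : ℤ) : 1 ≤ Ma a b :=
  Finset.prod_pos fun _ hp => pow_pos (prime_of (sq_pf a b hp)).pos _

theorem Ra_pos (a b : ℤ) : 1 ≤ Ra a b :=
  Finset.prod_pos fun _ hp => pow_pos (prime_of (mem_sdiff.1 hp).1).pos _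

theorem Ma_Ra_cop (a b : ℤ) : (Ma a b).Coprime (Ra a b) := by
  unfold Ma Ra
  refine Nat.Coprime.prod_left fun p hp => Nat.Coprime.prod_right fun r hr => ?_
  refine Nat.Coprime.pow _ _ ?_
  rw [Nat.coprime_primes (prime_of (sq_pf a b hp)) (prime_of (mem_sdiff.1 hr).1)]
  rintro rfl
  exact (mem_sdiff.1 hr).2 hp

theorem rd_Ra {a b : ℤ} (hD : Dd a b ≠ 0) : rd (Ra a b) ≤ qa a b := by
  unfold rd qa
  refine Finset.prod_le_prod_of_subset_of_one_le' ?_ fun p hp _ =>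
    (prime_of (mem_filter.1 hp).1).pos
  intro p hp
  obtain ⟨h1, h5⟩ := mem_filter.1 hp
  have hpp := Nat.prime_of_mem_primeFactors h1
  have hd := Nat.dvd_of_mem_primeFactors h1
  unfold Ra at hd
  obtain ⟨r, hr, hd⟩ := (Prime.dvd_finsetProd_iff hpp.prime _).1 hd
  have hrp := prime_of (mem_sdiff.1 hr).1
  have hpr : p = r := (Nat.prime_dvd_prime_iff_eq hpp hrp).1 (hpp.dvd_of_dvd_pow hd)
  subst hpr
  have he : ex a b p ≠ 0 := by
    intro h0
    rw [h0, pow_zero] at hd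
    exact hpp.one_lt.ne' (Nat.dvd_one.1 hd)
  obtain ⟨g1, g2⟩ := mem_sdiff.1 hr
  refine mem_filter.2 ⟨g1, h5, ?_⟩
  by_contra hpa
  apply g2
  refine mem_filter.2 ⟨g1, h5, hpa, ?_⟩
  rw [hpp.pow_dvd_iff_le_factorization (Int.natAbs_ne_zero.2 hD)]
  unfold ex at he
  rw [if_neg (by omega), if_neg hpa] at he
  omega

variable {f : ℤ → ℤ → ℝ} {κ σ lam : ℝ}

/-- class IX: a large rest -/
theorem cls9 (hf : ∀ a b, Mn a b → (Nc a b : ℝ) ≤ f a b) (hσ : σ = 12 * κ) (hσ1 : 1 < σ)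
    (hlam : lam = 1 - 1 / σ) (h0 : 0 < lam) (h1 : lam < 1 / 6) (c : ℝ) {ε : ℝ} (hε : 0 < ε) :
    ∃ g : ℝ, 0 < g ∧ Small f κ c lam (√(48 * lam) - g)
      (fun X x => (nn x.1 x.2 : ℝ) ^ 6 ≤ Mx x.1 x.2 ∧ X ^ ε ≤ (Ra x.1 x.2 : ℝ)) := by
  obtain ⟨δ, hδ⟩ : ∃ δ : ℝ, δ = min ε (6 * lam) := ⟨_, rfl⟩
  have hδ0 : 0 < δ := by rw [hδ]; exact lt_min hε (by linarith)
  have hδε : δ ≤ ε := by rw [hδ]; exact min_le_left _ _
  have hδl : δ ≤ 6 * lam := by rw [hδ]; exact min_le_right _ _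
  obtain ⟨η, hη⟩ : ∃ η : ℝ, η = δ / (24 * lam) := ⟨_, rfl⟩
  have hη0 : 0 < η := by rw [hη]; positivity
  have hηl : η * (6 * lam) = δ / 4 := by rw [hη]; field_simp; ring
  obtain ⟨ν, hν⟩ : ∃ ν : ℝ, ν = 8 * (1 + η) * (6 * lam - δ / 2) := ⟨_, rfl⟩
  have hκ : 0 < 6 * lam - δ / 2 := by linarith
  have hν0 : 0 < ν := by rw [hν]; positivity
  have hνlt : ν < 48 * lam := by
    rw [hν]
    nlinarith [mul_pos hη0 hδ0]
  have hlt : √ν < √(48 * lam) := Real.sqrt_lt_sqrt hν0.le hνlt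
  have hsν : 0 ≤ √ν := Real.sqrt_nonneg _
  obtain ⟨K, hK, hgn⟩ := vi_gain hf hσ hσ1 hlam h0 h1 c
  have hblk : Blk Cs lam ν 0 (fun x => nn x.1 x.2)
      (fun x => (qa x.1 x.2 : ℝ) ^ (1 - 6 * lam)) (fun X x => X ^ ε ≤ (Ra x.1 x.2 : ℝ)) := by
    intro K₁ ε₁ hK₁ hε₁
    have h2δ : (1 : ℝ) ≤ 2 ^ δ := Real.one_le_rpow (by norm_num) hδ0.le
    have hKK : K₁ ≤ K₁ * 2 ^ δ := le_mul_of_one_le_right (by linarith) h2δ
    obtain ⟨A₀, hA₀, h⟩ := pair_block (ν₀ := 1 - 6 * lam) (δ := δ) (K := K₁ * 2 ^ δ)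
      (ε := ε₁) (η := η) h0 h1 (by linarith) hδ0.le hκ (by linarith) hε₁ hη0 cnt3_all
    refine ⟨A₀, hA₀, fun X A Y T F hA hAX hX1 hY hT hTA hYT hF => ?_⟩
    have hA0 : 0 < A := by linarith
    rw [zero_mul, Real.exp_zero, one_mul, hν]
    refine h A Y T F (fun x => Ma x.1 x.2) (fun x => Ra x.1 x.2) hA hY hT
      (hTA.trans (mul_le_mul_of_nonneg_right hKK (by positivity)))
      (hYT.trans ?_) fun x hx => ?_
    · rw [mul_assoc, mul_assoc (K₁ * 2 ^ δ)]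
      exact mul_le_mul_of_nonneg_right hKK (by positivity)
    · obtain ⟨g1, g2, g3, g4, g5, g6, g7, g8⟩ := hF x hx
      simp only at g3 g4 g5 g6 g7 g8
      rw [Ma_Ra]
      refine ⟨g1, g2, Ma_pos _ _, Ra_pos _ _, Ma_Ra_cop _ _, g4, g6, g7, ?_, ?_⟩
      · have k1 : A ^ δ ≤ 2 ^ δ * X ^ δ := by
          rw [← Real.mul_rpow (by norm_num) (by linarith)]
          exact Real.rpow_le_rpow hA0.le hAX hδ0.le
        have k2 : X ^ δ ≤ X ^ ε := Real.rpow_le_rpow_of_exponent_le hX1 hδε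
        calc A ^ δ ≤ 2 ^ δ * X ^ δ := k1
          _ ≤ 2 ^ δ * (Ra x.1 x.2 : ℝ) :=
              mul_le_mul_of_nonneg_left (k2.trans g8) (by positivity)
          _ ≤ K₁ * (2 ^ δ * (Ra x.1 x.2 : ℝ)) := le_mul_of_one_le_left (by positivity) hK₁
          _ = _ := by ring
      · refine le_trans ?_ g5
        apply mul_le_mul_of_nonneg_left _ (by linarith)
        refine Real.rpow_le_rpow (Nat.cast_nonneg _) ?_ (by linarith)
        exact_mod_cast rd_Ra g1.1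
  refine ⟨(√(48 * lam) - √ν) / 2, by linarith, ?_⟩
  obtain ⟨X₁, hX₁, h⟩ := assemble2 (w := fun _ => 1) (fun _ => zero_le_one)
    (fun n m a b => mono_Cs n m a b) cnt3_all (K := K) (ε := (√(48 * lam) - √ν) / 2)
    h0 h1 hν0 hK (by linarith) hblk
  refine ⟨X₁, hX₁, fun X F hX hF => ?_⟩
  have h2 := h X F hX (by
    intro x hx
    obtain ⟨⟨g1, g2, g3, g4⟩, g5, g6⟩ := hF x hx
    refine ⟨g1, g2, g3, nn_pos _ _, cs_nn _ _, g5, ?_, hgn _ _ g1 g4, g6⟩
    refine Real.one_le_rpow ?_ (by linarith)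
    exact_mod_cast qa_pos x.1 x.2)
  refine h2.trans (Real.exp_le_exp.2 ?_)
  have h3 : max 0 (√ν - 0) + (√(48 * lam) - √ν) / 2 ≤ √(48 * lam) - (√(48 * lam) - √ν) / 2 := by
    rw [sub_zero, max_eq_right hsν]
    linarith
  have h4 := mul_le_mul_of_nonneg_right h3 (sc_nonneg X)
  linarith

/-- the part of the discriminant at 2, 3 and the additive primes -/
def Bd (a b : ℤ) : ℕ := ∏ p ∈ (Dd a b).natAbs.primeFactors.filter
  (fun p : ℕ => p < 5 ∨ (p : ℤ) ∣ a), p ^ (Dd a b).natAbs.factorization p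

/-- the gain at the squared primes, in terms of the discriminant -/
def Gn (a b : ℤ) : ℕ := ∏ p ∈ Sq a b, p ^ ((Dd a b).natAbs.factorization p - 1)

theorem Bd_le (a b : ℤ) : Bd a b ≤ Ra a b * qa a b ^ 7 := by
  unfold Bd
  have h1 : ∀ p ∈ (Dd a b).natAbs.primeFactors.filter (fun p : ℕ => p < 5 ∨ (p : ℤ) ∣ a),
      p ^ (Dd a b).natAbs.factorization p ≤ p ^ ex a b p * (if 5 ≤ p then p ^ 7 else 1) := by
    intro p hp
    obtain ⟨g1, g2⟩ := mem_filter.1 hp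
    have hp0 := (prime_of g1).pos
    by_cases h5 : p < 5
    · rw [if_neg (by omega), mul_one]
      unfold ex
      rw [if_pos h5]
    · rw [if_pos (by omega), ← pow_add]
      apply Nat.pow_le_pow_right hp0
      unfold ex
      rw [if_neg h5, if_pos (g2.resolve_left h5)]
      omega
  refine (Finset.prod_le_prod' h1).trans ?_
  rw [Finset.prod_mul_distrib]
  apply Nat.mul_le_mul
  · unfold Ra
    refine Finset.prod_le_prod_of_subset_of_one_le' ?_ fun p hp _ =>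
      Nat.one_le_pow _ _ (prime_of (mem_sdiff.1 hp).1).pos
    intro p hp
    obtain ⟨g1, g2⟩ := mem_filter.1 hp
    refine mem_sdiff.2 ⟨g1, fun h => ?_⟩
    obtain ⟨-, k1, k2, -⟩ := mem_filter.1 h
    rcases g2 with g2 | g2
    · omega
    · exact k2 g2
  · rw [← Finset.prod_filter, Finset.filter_filter]
    unfold qa Ad
    rw [← Finset.prod_pow]
    refine le_of_eq (Finset.prod_congr ?_ fun _ _ => rfl)
    ext p
    simp only [mem_filter]
    constructor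
    · rintro ⟨h2, h3, h4⟩
      exact ⟨h2, h4, h3.resolve_left (by omega)⟩
    · rintro ⟨h2, h3, h4⟩
      exact ⟨h2, Or.inr h4, h3⟩

theorem Dd_le {a b : ℤ} (hD : Dd a b ≠ 0) : (Dd a b).natAbs ≤ Bd a b * (Nc a b * Gn a b) := by
  have hDn : (Dd a b).natAbs ≠ 0 := Int.natAbs_ne_zero.2 hD
  obtain ⟨S, hS⟩ : ∃ S : Finset ℕ, S = (Dd a b).natAbs.primeFactors := ⟨_, rfl⟩
  have hpr : ∀ p ∈ S, p.Prime := fun p hp => Nat.prime_of_mem_primeFactors (hS ▸ hp)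
  have hDP : (Dd a b).natAbs = ∏ p ∈ S, p ^ (Dd a b).natAbs.factorization p := by
    conv_lhs => rw [← Nat.prod_factorization_pow_eq_self hDn]
    rw [hS]
    rfl
  have hB : Bd a b = ∏ p ∈ S, (if p < 5 ∨ (p : ℤ) ∣ a then
      p ^ (Dd a b).natAbs.factorization p else 1) := by
    unfold Bd
    rw [Finset.prod_filter, hS]
  have hN : Nc a b = ∏ p ∈ S, (if 5 ≤ p then (if (p : ℤ) ∣ a then p ^ 2 else p) else 1) := by
    unfold Nc
    rw [Finset.prod_filter, hS]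
  have hG : Gn a b = ∏ p ∈ S, (if 5 ≤ p ∧ ¬ (p : ℤ) ∣ a ∧ p ^ 2 ∣ (Dd a b).natAbs then
      p ^ ((Dd a b).natAbs.factorization p - 1) else 1) := by
    unfold Gn Sq
    rw [Finset.prod_filter, hS]
  rw [hB, hN, hG, ← Finset.prod_mul_distrib, ← Finset.prod_mul_distrib]
  conv_lhs => rw [hDP]
  refine Finset.prod_le_prod' fun p hp => ?_
  have hp0 := (hpr p hp).pos
  have hv : (Dd a b).natAbs.factorization p ≠ 0 := by
    rw [hS, ← Nat.support_factorization, Finsupp.mem_support_iff] at hp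
    exact hp
  by_cases h : p < 5 ∨ (p : ℤ) ∣ a
  · rw [if_pos h]
    apply Nat.le_mul_of_pos_right
    apply Nat.mul_pos
    · split_ifs <;> positivity
    · split_ifs <;> positivity
  · push Not at h
    obtain ⟨h5, ha⟩ := h
    rw [if_neg (by omega : ¬ (p < 5 ∨ (p : ℤ) ∣ a)), if_pos h5, if_neg ha, one_mul]
    by_cases h2 : p ^ 2 ∣ (Dd a b).natAbs
    · rw [if_pos ⟨h5, ha, h2⟩, ← pow_succ', Nat.sub_add_cancel (by omega)]
    · rw [if_neg (fun hh => h2 hh.2.2), mul_one]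
      rw [(hpr p hp).pow_dvd_iff_le_factorization hDn] at h2
      calc p ^ (Dd a b).natAbs.factorization p ≤ p ^ 1 :=
            Nat.pow_le_pow_right hp0 (by omega)
        _ = p := pow_one p

theorem Gn_le {a b : ℤ} (hD : Dd a b ≠ 0) :
    Gn a b * Nc a b ≤ (Dd a b).natAbs * qa a b ^ 2 := by
  have hDn : (Dd a b).natAbs ≠ 0 := Int.natAbs_ne_zero.2 hD
  obtain ⟨S, hS⟩ : ∃ S : Finset ℕ, S = (Dd a b).natAbs.primeFactors := ⟨_, rfl⟩
  have hpr : ∀ p ∈ S, p.Prime := fun p hp => Nat.prime_of_mem_primeFactors (hS ▸ hp)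
  have hDP : (Dd a b).natAbs = ∏ p ∈ S, p ^ (Dd a b).natAbs.factorization p := by
    conv_lhs => rw [← Nat.prod_factorization_pow_eq_self hDn]
    rw [hS]
    rfl
  have hN : Nc a b = ∏ p ∈ S, (if 5 ≤ p then (if (p : ℤ) ∣ a then p ^ 2 else p) else 1) := by
    unfold Nc
    rw [Finset.prod_filter, hS]
  have hG : Gn a b = ∏ p ∈ S, (if 5 ≤ p ∧ ¬ (p : ℤ) ∣ a ∧ p ^ 2 ∣ (Dd a b).natAbs then
      p ^ ((Dd a b).natAbs.factorization p - 1) else 1) := by
    unfold Gn Sq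
    rw [Finset.prod_filter, hS]
  have hq : qa a b ^ 2 = ∏ p ∈ S, (if 5 ≤ p ∧ (p : ℤ) ∣ a then p ^ 2 else 1) := by
    unfold qa Ad
    rw [← Finset.prod_pow, Finset.prod_filter, hS]
  rw [hN, hG, hq, ← Finset.prod_mul_distrib]
  conv_rhs => rw [hDP]
  rw [← Finset.prod_mul_distrib]
  refine Finset.prod_le_prod' fun p hp => ?_
  have hp0 := (hpr p hp).pos
  have hv : (Dd a b).natAbs.factorization p ≠ 0 := by
    rw [hS, ← Nat.support_factorization, Finsupp.mem_support_iff] at hp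
    exact hp
  by_cases h5 : 5 ≤ p
  · by_cases ha : (p : ℤ) ∣ a
    · rw [if_neg (fun h => h.2.1 ha), if_pos h5, if_pos ha, if_pos ⟨h5, ha⟩]
      exact Nat.mul_le_mul_right _ (Nat.one_le_pow _ _ hp0)
    · rw [if_pos h5, if_neg ha, if_neg (fun h : 5 ≤ p ∧ (p : ℤ) ∣ a => ha h.2), mul_one]
      by_cases h2 : p ^ 2 ∣ (Dd a b).natAbs
      · rw [if_pos ⟨h5, ha, h2⟩, ← pow_succ, Nat.sub_add_cancel (by omega)]
      · rw [if_neg (fun hh => h2 hh.2.2), one_mul]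
        exact Nat.le_self_pow hv p
  · rw [if_neg (fun h => h5 h.1), if_neg h5, if_neg (fun h => h5 h.1), mul_one, mul_one]
    exact Nat.one_le_pow _ _ hp0

end Pool.Agent.U853.AN
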