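import Pool.Agent.U853.AN.Tilt
import Pool.Agent.N72.SZ_EUPQ

/-!
# Anatomy of the violators of the inequality of Frey: the generating function
-/

set_option autoImplicit false

namespace Pool.Agent.U853.AN

open Finset Pool.Agent.N906.SZ Pool.Agent.N906.FH

theorem rad_le (n : ℕ) : rad n ≤ 6 * rd n := by
  unfold rad rd
  rw [← Finset.prod_filter_mul_prod_filter_not n.primeFactors (fun p => 5 ≤ p), mul_comm]
  apply Nat.mul_le_mul _ le_rfl
  have hsub : n.primeFactors.filter (fun p => ¬ 5 ≤ p) ⊆ {2, 3} := by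
    intro p hp
    obtain ⟨h1, h2⟩ := Finset.mem_filter.1 hp
    have hpp := Nat.prime_of_mem_primeFactors h1
    have h3 := hpp.two_le
    have h4 : p ≠ 4 := by
      rintro rfl
      exact absurd hpp (by norm_num)
    simp only [Finset.mem_insert, Finset.mem_singleton]
    omega
  calc ∏ p ∈ n.primeFactors.filter (fun p => ¬ 5 ≤ p), p ≤ ∏ p ∈ ({2, 3} : Finset ℕ), p := by
        refine Finset.prod_le_prod_of_subset_of_one_le' hsub fun p hp _ => ?_
        simp only [Finset.mem_insert, Finset.mem_singleton] at hp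
        omega
    _ = 6 := by decide

theorem tilt_one {z θ : ℝ} (hz : 0 < z) (hθ : 0 ≤ θ) (hθ2 : θ ≤ 1 / 2) :
    TiltG (fun _ => 1) 1 z θ := by
  refine ⟨6, by norm_num, fun ε hε => ?_⟩
  obtain ⟨u₀, h0, h1, h⟩ := Pool.Agent.N72.SZ.gupq z θ ε hz hθ hθ2 hε
  refine ⟨u₀, h0, h1, fun u hu huu F hF => ?_⟩
  have h2 := h u hu huu F hF
  rw [one_mul]
  refine le_trans ?_ (mul_le_mul_of_nonneg_left h2 (by norm_num : (0 : ℝ) ≤ 6))
  rw [Finset.mul_sum]
  refine Finset.sum_le_sum fun n hn => ?_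
  have hn0 : (0 : ℝ) < n := by exact_mod_cast hF n hn
  have hr0 : (0 : ℝ) < rd n := by exact_mod_cast Pool.Agent.N50.SZ.rd_pos n
  have hrad : (0 : ℝ) < rad n := by exact_mod_cast rad_pos n
  have hle : (rad n : ℝ) ≤ 6 * rd n := by exact_mod_cast rad_le n
  have e1 : ((∏ p ∈ n.primeFactors, p : ℕ) : ℝ) = (rad n : ℝ) := rfl
  rw [e1]
  have e2 : (rad n : ℝ) ^ (-(1 - θ * u)) = (rad n : ℝ) ^ (θ * u) * (rad n : ℝ)⁻¹ := by
    rw [show -(1 - θ * u) = θ * u - 1 by ring, Real.rpow_sub_one hrad.ne', div_eq_mul_inv]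
  rw [e2]
  have e3 : (rd n : ℝ)⁻¹ ≤ 6 * (rad n : ℝ)⁻¹ := by
    rw [← div_eq_mul_inv, le_div_iff₀ hrad, inv_mul_le_iff₀ hr0]
    linarith
  calc 1 * z ^ n.primeFactors.card * (n : ℝ) ^ (-u) * (rad n : ℝ) ^ (θ * u) / rd n
      = z ^ n.primeFactors.card * (n : ℝ) ^ (-u) * (rad n : ℝ) ^ (θ * u) * (rd n : ℝ)⁻¹ := by
        rw [one_mul, div_eq_mul_inv]
    _ ≤ z ^ n.primeFactors.card * (n : ℝ) ^ (-u) * (rad n : ℝ) ^ (θ * u) *
        (6 * (rad n : ℝ)⁻¹) := mul_le_mul_of_nonneg_left e3 (by positivity)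
    _ = _ := by ring

end Pool.Agent.U853.AN
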