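import Pool.Agent.U853.AN.Gain
import Pool.Agent.U853.AN.Asm
import Pool.Agent.U853.AN.Gen
import Pool.Agent.N906.FH.AllSt

/-!
# Anatomy of the violators of the inequality of Frey: the exceptional classes
-/

set_option autoImplicit false

namespace Pool.Agent.U853.AN

open Finset Filter Topology Pool.Agent.N906.SZ Pool.Agent.N906.FH Pool.Agent.N692.FH

/-- `den * max (1, |j|)` is at most `6912 Mx` -/
theorem den_max {a b : ℤ} (hD : Dd a b ≠ 0) :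
    ((jE a b).den : ℝ) * max 1 |((jE a b : ℚ) : ℝ)| ≤ 6912 * Mx a b := by
  have hDn : (Dd a b).natAbs ≠ 0 := Int.natAbs_ne_zero.2 hD
  have habs : |((Dd a b : ℤ) : ℝ)| = ((Dd a b).natAbs : ℝ) := by
    rw [Nat.cast_natAbs, Int.cast_abs]
  have hDpos : (0 : ℝ) < |((Dd a b : ℤ) : ℝ)| := by
    rw [habs]
    exact_mod_cast Nat.pos_of_ne_zero hDn
  have hden : ((jE a b).den : ℝ) ≤ |((Dd a b : ℤ) : ℝ)| := by
    have h1 : (((jE a b).den : ℕ) : ℤ) ∣ Dd a b := by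
      have hj : jE a b = ((6912 * a ^ 3 : ℤ) : ℚ) / ((Dd a b : ℤ) : ℚ) := by
        rw [Pool.Agent.N216.FH.jE_eq]
        push_cast
        rfl
      rw [hj, ← Rat.divInt_eq_div]
      exact Rat.den_dvd _ _
    have h2 : (((jE a b).den : ℕ) : ℤ) ≤ |Dd a b| := Int.le_of_dvd (abs_pos.2 hD)
      ((dvd_abs _ _).2 h1)
    exact_mod_cast h2
  have hMD : |((Dd a b : ℤ) : ℝ)| ≤ Mx a b := le_max_right _ _
  have hMa : |(a : ℝ)| ^ 3 ≤ Mx a b := le_max_left _ _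
  have hmax : max 1 |((jE a b : ℚ) : ℝ)| ≤ 6912 * Mx a b / |((Dd a b : ℤ) : ℝ)| := by
    rw [le_div_iff₀ hDpos]
    have h1 : |((jE a b : ℚ) : ℝ)| * |((Dd a b : ℤ) : ℝ)| = 6912 * |(a : ℝ)| ^ 3 := by
      rw [Pool.Agent.N216.FH.jE_eq]
      push_cast
      rw [abs_div, div_mul_cancel₀ _ hDpos.ne', abs_mul, abs_pow]
      norm_num
    rcases max_choice 1 |((jE a b : ℚ) : ℝ)| with h | h
    · rw [h]
      linarith [abs_nonneg ((Dd a b : ℤ) : ℝ)]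
    · rw [h, h1]
      linarith
  calc ((jE a b).den : ℝ) * max 1 |((jE a b : ℚ) : ℝ)|
      ≤ |((Dd a b : ℤ) : ℝ)| * (6912 * Mx a b / |((Dd a b : ℤ) : ℝ)|) :=
        mul_le_mul hden hmax (le_max_of_le_left zero_le_one) hDpos.le
    _ = 6912 * Mx a b := by field_simp

theorem Mx_ge {a b : ℤ} (hD : Dd a b ≠ 0) : 1 ≤ Mx a b := by
  refine le_trans ?_ (le_max_right _ _)
  have := Int.one_le_abs hD
  exact_mod_cast this

/-- the violators -/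
def Vi (f : ℤ → ℤ → ℝ) (κ c : ℝ) (a b : ℤ) : Prop :=
  ∃ τ, IsPer a b τ ∧ κ * Real.log (f a b) + c ≤ hst a b τ

/-- the gain of a violator -/
theorem vi_gain {f : ℤ → ℤ → ℝ} (hf : ∀ a b, Mn a b → (Nc a b : ℝ) ≤ f a b) {κ σ lam : ℝ}
    (hσ : σ = 12 * κ) (hσ1 : 1 < σ) (hlam : lam = 1 - 1 / σ) (h0 : 0 < lam) (h1 : lam < 1 / 6)
    (c : ℝ) :
    ∃ K : ℝ, 1 ≤ K ∧ ∀ a b, Mn a b → Vi f κ c a b →
      |((Dd a b : ℤ) : ℝ)| * (qa a b : ℝ) ^ (1 - 6 * lam) ≤ K * nn a b * Mx a b ^ (1 - lam) := by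
  obtain ⟨C₁, hC₁⟩ := Pool.Agent.N195.FH.arch_bds
  have hK : 1 ≤ Real.exp (|C₁ - 12 * c| / σ) := Real.one_le_exp (by
    have : 0 < σ := by linarith
    positivity)
  refine ⟨6912 * Real.exp (|C₁ - 12 * c| / σ), by linarith, fun a b hab hP => ?_⟩
  refine gain4 h0 h1 hK hab ?_
  obtain ⟨τ, hτ, hh⟩ := hP
  have g1 := ((hC₁ a b hab.1).2 τ hτ).2.1
  have hN : (1 : ℝ) ≤ Nc a b := by exact_mod_cast Nc_pos a b
  have g3 : Real.log (Nc a b : ℝ) ≤ Real.log (f a b) := Real.log_le_log (by linarith) (hf a b hab)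
  have hden : (0 : ℝ) < ((jE a b).den : ℝ) := by exact_mod_cast (jE a b).den_pos
  have hmax : (0 : ℝ) < max 1 |((jE a b : ℚ) : ℝ)| := lt_max_of_lt_left one_pos
  refine from_log hσ1 hlam (by linarith) (mul_pos hden hmax) ?_
  rw [Real.log_mul hden.ne' hmax.ne']
  unfold hst at hh
  have hκ : 0 < κ := by linarith
  have g4 : κ * Real.log (Nc a b : ℝ) ≤ κ * Real.log (f a b) := mul_le_mul_of_nonneg_left g3 hκ.le
  rw [hσ]
  linarith

/-! ### Asymptotics -/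

theorem tendsto_sc : Tendsto sc atTop atTop := by
  have h : Tendsto (fun L : ℝ => √(L / Real.log L)) atTop atTop := by
    refine tendsto_atTop.2 fun C => ?_
    have h1 := Pool.Agent.N50.SZ.cst (κ := 1 / 16) (η := 1) (A := Real.exp C)
      (by norm_num) one_pos
    filter_upwards [h1] with L hL
    have h2 := Real.exp_le_exp.1 hL
    rw [one_mul, show 16 * (1 / 16 : ℝ) * L = L by ring] at h2
    exact h2
  exact h.comp Real.tendsto_log_atTop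

theorem sc_small {c : ℝ} (hc : 0 < c) : ∀ᶠ X : ℝ in atTop, sc X ≤ c * Real.log X := by
  filter_upwards [Real.tendsto_log_atTop.eventually_ge_atTop (max 3 (1 / c ^ 2))] with X hX
  have h3 : 3 ≤ Real.log X := (le_max_left _ _).trans hX
  have h4 : 1 / c ^ 2 ≤ Real.log X := (le_max_right _ _).trans hX
  have h5 : 1 ≤ Real.log (Real.log X) := by
    rw [Real.le_log_iff_exp_le (by linarith)]
    have := Real.exp_one_lt_d9
    linarith
  unfold sc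
  rw [Real.sqrt_le_left (by positivity)]
  calc Real.log X / Real.log (Real.log X) ≤ Real.log X := div_le_self (by linarith) h5
    _ = 1 * Real.log X := (one_mul _).symm
    _ ≤ (c ^ 2 * Real.log X) * Real.log X := by
        apply mul_le_mul_of_nonneg_right _ (by linarith)
        rw [div_le_iff₀ (by positivity)] at h4
        linarith
    _ = (c * Real.log X) ^ 2 := by ring

/-- saving of a power -/
theorem saving {lam lam' K : ℝ} (hl : 0 < lam) (hll : lam < lam') (hl1 : lam' < 1 / 6)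
    (hK : 1 ≤ K) :
    ∃ X₀ : ℝ, 3 < X₀ ∧ ∀ (X : ℝ) (F : Finset (ℤ × ℤ)), X₀ ≤ X →
      (∀ x ∈ F, Mn x.1 x.2 ∧ |(x.1 : ℝ)| ≤ X ^ 2 ∧ |(x.2 : ℝ)| ≤ X ^ 3 ∧
        |((Dd x.1 x.2 : ℤ) : ℝ)| ≤ K * nn x.1 x.2 * Mx x.1 x.2 ^ (1 - lam')) →
      (F.card : ℝ) ≤ Real.exp ((5 - 6 * lam) * Real.log X) := by
  obtain ⟨X₁, hX₁, h⟩ := up_st lam' K 1 (by linarith) hl1 hK one_pos
  have hs : 0 < √(48 * 1 * lam') := Real.sqrt_pos.2 (by linarith)
  obtain ⟨X₂, hX₂⟩ := eventually_atTop.1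
    (sc_small (c := 6 * (lam' - lam) / (2 * √(48 * 1 * lam'))) (by
      have : 0 < lam' - lam := by linarith
      positivity))
  refine ⟨max X₁ X₂, lt_max_of_lt_left hX₁, fun X F hX hF => ?_⟩
  have h1 := h X F ((le_max_left _ _).trans hX) (by
    intro x hx
    obtain ⟨g1, g2, g3, g4⟩ := hF x hx
    exact ⟨g1, g2, g3, nn x.1 x.2, nn_pos _ _, cs_nn _ _, g4⟩)
  refine h1.trans (Real.exp_le_exp.2 ?_)
  have h2 := hX₂ X ((le_max_right _ _).trans hX)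
  rw [sqrt_sc (by linarith : (0 : ℝ) ≤ 48 * 1 * lam')]
  have h3 : (1 + 1) * (√(48 * 1 * lam') * sc X) ≤ 6 * (lam' - lam) * Real.log X := by
    calc (1 + 1) * (√(48 * 1 * lam') * sc X) = (2 * √(48 * 1 * lam')) * sc X := by ring
      _ ≤ (2 * √(48 * 1 * lam')) * (6 * (lam' - lam) / (2 * √(48 * 1 * lam')) * Real.log X) :=
          mul_le_mul_of_nonneg_left h2 (by positivity)
      _ = 6 * (lam' - lam) * Real.log X := by
          rw [← mul_assoc, mul_div_cancel₀ _ (by positivity)]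
  linarith

/-- the number `max 0 (r - β) + g / 2` -/
theorem max_le' {r β C g : ℝ} (_hg : 0 < g) (hgC : g ≤ C) (h : r - β ≤ C - g) :
    max 0 (r - β) + g / 2 ≤ C - g / 2 := by
  have : max 0 (r - β) ≤ C - g := max_le (by linarith) h
  linarith

/-! ### The classes. `f` is a conductor, `V` the violators. -/

section classes

variable {f : ℤ → ℤ → ℝ} {κ σ lam : ℝ}

/-- the common conditions -/
def Box (f : ℤ → ℤ → ℝ) (κ c X : ℝ) (x : ℤ × ℤ) : Prop :=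
  Mn x.1 x.2 ∧ |(x.1 : ℝ)| ≤ X ^ 2 ∧ |(x.2 : ℝ)| ≤ X ^ 3 ∧ Vi f κ c x.1 x.2

/-- a class is small -/
def Small (f : ℤ → ℤ → ℝ) (κ c lam γ : ℝ) (Q : ℝ → ℤ × ℤ → Prop) : Prop :=
  ∃ X₀ : ℝ, 3 < X₀ ∧ ∀ (X : ℝ) (F : Finset (ℤ × ℤ)), X₀ ≤ X →
    (∀ x ∈ F, Box f κ c X x ∧ Q X x) →
    (F.card : ℝ) ≤ Real.exp ((5 - 6 * lam) * Real.log X + γ * sc X)

/-- class I: small coefficients -/
theorem cls1 (hf : ∀ a b, Mn a b → (Nc a b : ℝ) ≤ f a b) (hσ : σ = 12 * κ) (hσ1 : 1 < σ)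
    (hlam : lam = 1 - 1 / σ) (h0 : 0 < lam) (h1 : lam < 1 / 6) (c : ℝ) {δ : ℝ} (hδ : 0 < δ)
    (hδ1 : δ < 1) :
    Small f κ c lam 0 (fun X x => Mx x.1 x.2 ≤ X ^ (6 - 6 * δ)) := by
  obtain ⟨K, hK, hg⟩ := vi_gain hf hσ hσ1 hlam h0 h1 c
  obtain ⟨X₁, hX₁, h⟩ := up_st lam K 1 h0 h1 hK one_pos
  have h48 : (0 : ℝ) < 48 * 1 * lam := by linarith
  have hs : 0 < √(48 * 1 * lam) := Real.sqrt_pos.2 h48
  obtain ⟨X₂, hX₂⟩ := eventually_atTop.1
    (sc_small (c := (5 - 6 * lam) * δ / (2 * √(48 * 1 * lam))) (by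
      have : 0 < 5 - 6 * lam := by linarith
      positivity))
  have ht : Tendsto (fun X : ℝ => X ^ (1 - δ)) atTop atTop :=
    tendsto_rpow_atTop (by linarith)
  obtain ⟨X₃, hX₃⟩ := eventually_atTop.1 (ht.eventually_ge_atTop (max X₁ X₂))
  refine ⟨max X₃ 4, lt_max_of_lt_right (by norm_num), fun X F hX hF => ?_⟩
  have hX4 : 4 ≤ X := (le_max_right _ _).trans hX
  have hX0 : 0 < X := by linarith
  have h2 := hX₃ X ((le_max_left _ _).trans hX)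
  obtain ⟨A, hA⟩ : ∃ A : ℝ, A = X ^ (1 - δ) := ⟨_, rfl⟩
  rw [← hA] at h2
  have hA0 : 0 ≤ A := by rw [hA]; positivity
  have hA6 : A ^ 6 = X ^ (6 - 6 * δ) := by
    rw [hA, ← Real.rpow_natCast, ← Real.rpow_mul hX0.le]
    congr 1
    push_cast
    ring
  have h3 := h A F ((le_max_left _ _).trans h2) (by
    intro x hx
    obtain ⟨⟨g1, g2, g3, g4⟩, g5⟩ := hF x hx
    have g6 := upg_size hA0 (a := x.1) (b := x.2) (by rw [hA6]; exact g5)
    refine ⟨g1, g6.1, g6.2, nn x.1 x.2, nn_pos _ _, cs_nn _ _, ?_⟩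
    have g7 := hg x.1 x.2 g1 g4
    refine le_trans ?_ g7
    refine le_mul_of_one_le_right (abs_nonneg _) ?_
    refine Real.one_le_rpow ?_ (by linarith)
    exact_mod_cast qa_pos x.1 x.2)
  refine h3.trans (Real.exp_le_exp.2 ?_)
  rw [sqrt_sc h48.le]
  have h4 := hX₂ A ((le_max_right _ _).trans h2)
  have hlA : Real.log A = (1 - δ) * Real.log X := by rw [hA, Real.log_rpow hX0]
  have hL0 : 0 ≤ Real.log X := Real.log_nonneg (by linarith)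
  have h5 : (1 + 1) * (√(48 * 1 * lam) * sc A) ≤ (5 - 6 * lam) * δ * Real.log X := by
    calc (1 + 1) * (√(48 * 1 * lam) * sc A) = (2 * √(48 * 1 * lam)) * sc A := by ring
      _ ≤ (2 * √(48 * 1 * lam)) *
          ((5 - 6 * lam) * δ / (2 * √(48 * 1 * lam)) * Real.log A) :=
          mul_le_mul_of_nonneg_left h4 (by positivity)
      _ = (5 - 6 * lam) * δ * Real.log A := by field_simp
      _ ≤ (5 - 6 * lam) * δ * Real.log X := by
          apply mul_le_mul_of_nonneg_left _ (by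
            have : 0 < 5 - 6 * lam := by linarith
            positivity)
          rw [hlA]
          nlinarith
  rw [hlA, zero_mul]
  nlinarith

/-- class II: a very large gain -/
theorem cls2 (h0 : 0 < lam) (h1 : lam < 1 / 6) (c : ℝ) :
    Small f κ c lam 0 (fun _ x => Mx x.1 x.2 < (nn x.1 x.2 : ℝ) ^ 6) := by
  obtain ⟨X₀, hX₀, h⟩ := saving (lam := lam) (lam' := (lam + 1 / 6) / 2) (K := 1) h0
    (by linarith) (by linarith) le_rfl
  refine ⟨X₀, hX₀, fun X F hX hF => ?_⟩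
  rw [zero_mul, add_zero]
  refine h X F hX fun x hx => ?_
  obtain ⟨⟨g1, g2, g3, g4⟩, g5⟩ := hF x hx
  refine ⟨g1, g2, g3, ?_⟩
  have hM1 := Mx_ge g1.1
  have hM0 : 0 < Mx x.1 x.2 := by linarith
  have hn : Mx x.1 x.2 ^ (1 / 6 : ℝ) ≤ nn x.1 x.2 := by
    have e : (nn x.1 x.2 : ℝ) = (((nn x.1 x.2 : ℝ)) ^ 6) ^ (1 / 6 : ℝ) := by
      rw [← Real.rpow_natCast, ← Real.rpow_mul (Nat.cast_nonneg _)]
      norm_num
    rw [e]
    exact Real.rpow_le_rpow hM0.le g5.le (by norm_num)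
  calc |((Dd x.1 x.2 : ℤ) : ℝ)| ≤ Mx x.1 x.2 := le_max_right _ _
    _ = Mx x.1 x.2 ^ (1 : ℝ) := (Real.rpow_one _).symm
    _ ≤ Mx x.1 x.2 ^ (1 / 6 + (1 - (lam + 1 / 6) / 2)) :=
        Real.rpow_le_rpow_of_exponent_le hM1 (by linarith)
    _ = Mx x.1 x.2 ^ (1 / 6 : ℝ) * Mx x.1 x.2 ^ (1 - (lam + 1 / 6) / 2) := Real.rpow_add hM0 _ _
    _ ≤ nn x.1 x.2 * Mx x.1 x.2 ^ (1 - (lam + 1 / 6) / 2) :=
        mul_le_mul_of_nonneg_right hn (by positivity)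
    _ = _ := by ring

/-- the general class -/
theorem clsG (hf : ∀ a b, Mn a b → (Nc a b : ℝ) ≤ f a b) (hσ : σ = 12 * κ) (hσ1 : 1 < σ)
    (hlam : lam = 1 - 1 / σ) (h0 : 0 < lam) (h1 : lam < 1 / 6) (c : ℝ) {z θ lam₁ δ β g : ℝ}
    (hz : 0 < z) (hθ : 0 ≤ θ) (hθ2 : θ ≤ 1 / 2) (hδ : 0 ≤ δ) (hκ : 0 < 6 * lam₁ - θ * δ)
    (hg : 0 < g) (hgC : g ≤ √(48 * lam))
    (hr : √(8 * (1 * z) * (6 * lam₁ - θ * δ)) - β ≤ √(48 * lam) - g)
    (Q : ℝ → ℤ × ℤ → Prop)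
    (hQ : ∃ X₀ : ℝ, ∀ X : ℝ, X₀ ≤ X → ∀ x : ℤ × ℤ, Mn x.1 x.2 → Q X x →
      |((Dd x.1 x.2 : ℤ) : ℝ)| ≤ Mx x.1 x.2 ^ (1 - lam + lam₁) ∧
      X ^ δ ≤ rad (nn x.1 x.2) ∧
      Real.exp (β * sc X) ≤ z ^ (nn x.1 x.2).primeFactors.card *
        ((qa x.1 x.2 : ℝ) ^ (1 - 6 * lam)) ^ (1 / 2 : ℝ)) :
    Small f κ c lam (√(48 * lam) - g / 2)
      (fun X x => (nn x.1 x.2 : ℝ) ^ 6 ≤ Mx x.1 x.2 ∧ Q X x) := by
  obtain ⟨K, hK, hgn⟩ := vi_gain hf hσ hσ1 hlam h0 h1 c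
  obtain ⟨X₂, hX₂⟩ := hQ
  obtain ⟨X₁, hX₁, h⟩ := assemble one_pos hz hθ (by linarith) (fun _ => zero_le_one)
    (fun n m a b => mono_Cs n m a b) cnt3_all (tilt_one hz hθ hθ2) (lam := lam)
    (lam₁ := lam₁) (δ := δ) (K := K) (ε := g / 2) β h0 h1 hδ hκ hK (by positivity)
  refine ⟨max X₁ X₂, lt_max_of_lt_left hX₁, fun X F hX hF => ?_⟩
  have h2 := h X F (fun x => nn x.1 x.2) (fun x => (qa x.1 x.2 : ℝ) ^ (1 - 6 * lam))
    ((le_max_left _ _).trans hX) (by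
    intro x hx
    obtain ⟨⟨g1, g2, g3, g4⟩, g5, g6⟩ := hF x hx
    obtain ⟨g7, g8, g9⟩ := hX₂ X ((le_max_right _ _).trans hX) x g1 g6
    refine ⟨g1, g2, g3, nn_pos _ _, cs_nn _ _, g5, ?_, hgn _ _ g1 g4, g7, ?_, g9⟩
    · refine Real.one_le_rpow ?_ (by linarith)
      exact_mod_cast qa_pos x.1 x.2
    · refine g8.trans (le_mul_of_one_le_left (Nat.cast_nonneg _) hK))
  refine h2.trans (Real.exp_le_exp.2 ?_)
  have h3 := max_le' hg hgC hr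
  have h4 := mul_le_mul_of_nonneg_right h3 (sc_nonneg X)
  linarith

end classes

end Pool.Agent.U853.AN
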