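import Pool.Agent.N216.FH_GAIN3
import Pool.Agent.N40.FH_DENJ

/-!
# Anatomy of the violators of the inequality of Frey: the local gains with the additive primes

`nn a b` is the whole gain, `qa a b` the product of the additive primes (at least 5), `Sq a b` the set of the
primes (at least 5) of multiplicative reduction whose square divides the discriminant. Each additive
prime `p` costs a factor `p ^ (1 - 6 lam)`.
-/

set_option autoImplicit false

namespace Pool.Agent.U853.AN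

open Pool.Agent.N906.FH Pool.Agent.N906.SZ Pool.Agent.N216.FH

/-- the exponent of `p` in the gain -/
def ex (a b : ℤ) (p : ℕ) : ℕ :=
  if p < 5 then (Dd a b).natAbs.factorization p
  else if (p : ℤ) ∣ a then (Dd a b).natAbs.factorization p - 7
  else (Dd a b).natAbs.factorization p - 1

/-- the gain -/
def nn (a b : ℤ) : ℕ := ∏ p ∈ (Dd a b).natAbs.primeFactors, p ^ ex a b p

/-- the primes at least 5 of additive reduction -/
def Ad (a b : ℤ) : Finset ℕ :=
  (Dd a b).natAbs.primeFactors.filter (fun p => 5 ≤ p ∧ (p : ℤ) ∣ a)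

/-- their product -/
def qa (a b : ℤ) : ℕ := ∏ p ∈ Ad a b, p

/-- the primes at least 5 of multiplicative reduction whose square divides the discriminant -/
def Sq (a b : ℤ) : Finset ℕ :=
  (Dd a b).natAbs.primeFactors.filter
    (fun p => 5 ≤ p ∧ ¬ (p : ℤ) ∣ a ∧ p ^ 2 ∣ (Dd a b).natAbs)

theorem ex_zero {a b : ℤ} {p : ℕ} (h : (Dd a b).natAbs.factorization p = 0) : ex a b p = 0 := by
  unfold ex
  rw [h]
  split_ifs <;> rfl

theorem prime_of {a b : ℤ} {p : ℕ} (hp : p ∈ (Dd a b).natAbs.primeFactors) : p.Prime :=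
  Nat.prime_of_mem_primeFactors hp

theorem nn_pos (a b : ℤ) : 1 ≤ nn a b :=
  Finset.prod_pos fun _ hp => pow_pos (prime_of hp).pos _

theorem qa_pos (a b : ℤ) : 1 ≤ qa a b :=
  Finset.prod_pos fun _ hp => (prime_of (Finset.mem_filter.1 hp).1).pos

theorem nn_fac (a b : ℤ) (p : ℕ) : (nn a b).factorization p = ex a b p := by
  let f : ℕ →₀ ℕ := Finsupp.onFinset (Dd a b).natAbs.primeFactors (ex a b) (by
    intro p hp
    rw [← Nat.support_factorization, Finsupp.mem_support_iff]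
    exact fun h => hp (ex_zero h))
  have hfP : f.support ⊆ (Dd a b).natAbs.primeFactors := Finsupp.support_onFinset_subset
  have hfp : ∀ p ∈ f.support, p.Prime := fun p hp => prime_of (hfP hp)
  have hn : nn a b = f.prod (fun p k => p ^ k) := by
    rw [Finsupp.prod_of_support_subset f hfP _ (by simp)]
    rfl
  have hnf : (nn a b).factorization = f := by
    rw [hn]
    exact Nat.prod_pow_factorization_eq_self hfp
  rw [hnf]
  rfl

theorem mem_nn {a b : ℤ} {p : ℕ} : p ∈ (nn a b).primeFactors ↔ ex a b p ≠ 0 := by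
  rw [← Nat.support_factorization, Finsupp.mem_support_iff, nn_fac]

theorem mem_of_ex {a b : ℤ} {p : ℕ} (h : ex a b p ≠ 0) : p ∈ (Dd a b).natAbs.primeFactors := by
  rw [← Nat.support_factorization, Finsupp.mem_support_iff]
  exact fun h' => h (ex_zero h')

theorem cs_nn (a b : ℤ) : Cs (nn a b) a b := by
  have hpow : ∀ p : ℕ, (p : ℤ) ^ (Dd a b).natAbs.factorization p ∣ Dd a b := by
    intro p
    have h1 : p ^ (Dd a b).natAbs.factorization p ∣ (Dd a b).natAbs := Nat.ordProj_dvd _ p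
    have h2 := Int.natCast_dvd.2 h1
    exact_mod_cast h2
  intro p hp
  have hp1 : ex a b p ≠ 0 := mem_nn.1 hp
  rw [nn_fac]
  constructor
  · intro h5
    have h6 : ex a b p = (Dd a b).natAbs.factorization p := by
      unfold ex
      rw [if_pos (by exact_mod_cast h5)]
    rw [h6]
    exact hpow p
  · intro h5
    by_cases hpa : (p : ℤ) ∣ a
    · right
      have h6 : ex a b p = (Dd a b).natAbs.factorization p - 7 := by
        unfold ex
        rw [if_neg (by omega), if_pos hpa]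
      rw [h6] at hp1 ⊢
      refine ⟨hpa, ?_⟩
      rw [Nat.sub_add_cancel (by omega)]
      exact hpow p
    · left
      have h6 : ex a b p = (Dd a b).natAbs.factorization p - 1 := by
        unfold ex
        rw [if_neg (by omega), if_neg hpa]
      rw [h6] at hp1 ⊢
      refine ⟨hpa, ?_⟩
      rw [Nat.sub_add_cancel (by omega)]
      exact hpow p

/-- the prime factors of the gain: those of `Sq`, some additive primes, and perhaps 2, 3 -/
theorem sq_sub {a b : ℤ} (hD : Dd a b ≠ 0) : Sq a b ⊆ (nn a b).primeFactors := by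
  intro p hp
  obtain ⟨h1, h5, hpa, h2⟩ := Finset.mem_filter.1 hp
  have hDn : (Dd a b).natAbs ≠ 0 := Int.natAbs_ne_zero.2 hD
  have h3 : 2 ≤ (Dd a b).natAbs.factorization p :=
    ((prime_of h1).pow_dvd_iff_le_factorization hDn).1 h2
  rw [mem_nn]
  unfold ex
  rw [if_neg (by omega), if_neg hpa]
  omega

theorem nn_sub {a b : ℤ} (hD : Dd a b ≠ 0) :
    (nn a b).primeFactors ⊆ Sq a b ∪ (Ad a b ∪ {2, 3}) := by
  intro p hp
  have h1 := mem_nn.1 hp
  have h2 := mem_of_ex h1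
  have hpp := prime_of h2
  have hDn : (Dd a b).natAbs ≠ 0 := Int.natAbs_ne_zero.2 hD
  rw [Finset.mem_union, Finset.mem_union]
  by_cases h5 : p < 5
  · right; right
    have h3 := hpp.two_le
    have h4 : p ≠ 4 := by
      rintro rfl
      exact absurd hpp (by norm_num)
    simp only [Finset.mem_insert, Finset.mem_singleton]
    omega
  · by_cases hpa : (p : ℤ) ∣ a
    · right; left
      exact Finset.mem_filter.2 ⟨h2, by omega, hpa⟩
    · left
      refine Finset.mem_filter.2 ⟨h2, by omega, hpa, ?_⟩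
      rw [hpp.pow_dvd_iff_le_factorization hDn]
      unfold ex at h1
      rw [if_neg h5, if_neg hpa] at h1
      omega

/-- the number of the additive primes -/
theorem ad_card (a b : ℤ) : (4 : ℝ) ^ (Ad a b).card ≤ qa a b := by
  have h : (4 : ℕ) ^ (Ad a b).card ≤ qa a b := by
    unfold qa
    calc (4 : ℕ) ^ (Ad a b).card = ∏ _p ∈ Ad a b, 4 := by rw [Finset.prod_const]
      _ ≤ ∏ p ∈ Ad a b, p := Finset.prod_le_prod' fun p hp => by
          have := (Finset.mem_filter.1 hp).2.1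
          omega
  exact_mod_cast h

/-- the local inequality -/
theorem loc' (p v γ : ℕ) (lam : ℝ) (hp : 1 ≤ p) (h0 : 0 < lam) (h1 : lam < 1 / 6)
    (hγ : min v 6 ≤ γ) :
    (p : ℝ) ^ v * (p : ℝ) ^ (1 - 6 * lam) ≤
      (p : ℝ) ^ (v - 7) * (p : ℝ) ^ 2 * ((p : ℝ) ^ γ) ^ (1 - lam) := by
  have hp' : (1 : ℝ) ≤ p := by exact_mod_cast hp
  have hp0 : (0 : ℝ) < p := by linarith
  rw [← Real.rpow_natCast (p : ℝ) v, ← Real.rpow_natCast (p : ℝ) (v - 7),
    ← Real.rpow_natCast (p : ℝ) 2, ← Real.rpow_natCast (p : ℝ) γ, ← Real.rpow_mul hp0.le,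
    ← Real.rpow_add hp0, ← Real.rpow_add hp0, ← Real.rpow_add hp0]
  apply Real.rpow_le_rpow_of_exponent_le hp'
  have hγ' : ((min v 6 : ℕ) : ℝ) ≤ γ := by exact_mod_cast hγ
  push_cast
  rcases le_or_gt v 6 with h | h
  · rw [min_eq_left h] at hγ'
    have h3 : ((v - 7 : ℕ) : ℝ) = 0 := by
      rw [Nat.sub_eq_zero_of_le (by omega)]
      simp
    rw [h3]
    have h4 : (v : ℝ) ≤ 6 := by exact_mod_cast h
    have h5 : (v : ℝ) * (1 - lam) ≤ γ * (1 - lam) :=
      mul_le_mul_of_nonneg_right hγ' (by linarith)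
    nlinarith
  · rw [min_eq_right h.le] at hγ'
    push_cast at hγ'
    have h3 : ((v - 7 : ℕ) : ℝ) = (v : ℝ) - 7 := by
      rw [Nat.cast_sub (by omega)]
      simp
    rw [h3]
    have h5 : (6 : ℝ) * (1 - lam) ≤ γ * (1 - lam) :=
      mul_le_mul_of_nonneg_right hγ' (by linarith)
    linarith

/-- the main inequality, prime by prime -/
theorem main_ineq {lam : ℝ} (h0 : 0 < lam) (h1 : lam < 1 / 6) {a b : ℤ} (hD : Dd a b ≠ 0) :
    |((Dd a b : ℤ) : ℝ)| * (qa a b : ℝ) ^ (1 - 6 * lam) ≤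
      nn a b * Nc a b * (gg a b : ℝ) ^ (1 - lam) := by
  have hDn : (Dd a b).natAbs ≠ 0 := Int.natAbs_ne_zero.2 hD
  obtain ⟨P, hP⟩ : ∃ P, P = (Dd a b).natAbs.primeFactors := ⟨_, rfl⟩
  have hPp : ∀ p ∈ P, p.Prime := fun p hp => Nat.prime_of_mem_primeFactors (hP ▸ hp)
  set g := gg a b with hg
  have hg0 : g ≠ 0 := gg_ne hD
  have hgD : g ∣ (Dd a b).natAbs := Nat.gcd_dvd_right _ _
  have hgP : g = ∏ p ∈ P, p ^ g.factorization p := by
    conv_lhs => rw [← Nat.prod_factorization_pow_eq_self hg0]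
    refine Finsupp.prod_of_support_subset _ ?_ _ (by simp)
    rw [Nat.support_factorization, hP]
    exact Nat.primeFactors_mono hgD hDn
  have hDP : (Dd a b).natAbs = ∏ p ∈ P, p ^ (Dd a b).natAbs.factorization p := by
    conv_lhs => rw [← Nat.prod_factorization_pow_eq_self hDn]
    rw [hP]
    rfl
  have hNc : Nc a b = ∏ p ∈ P, (if 5 ≤ p then (if (p : ℤ) ∣ a then p ^ 2 else p) else 1) := by
    unfold Nc
    rw [Finset.prod_filter, hP]
  have hqa : qa a b = ∏ p ∈ P, (if 5 ≤ p ∧ (p : ℤ) ∣ a then p else 1) := by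
    unfold qa Ad
    rw [Finset.prod_filter, hP]
  have hnn : nn a b = ∏ p ∈ P, p ^ ex a b p := by
    unfold nn
    rw [hP]
  have habs : |((Dd a b : ℤ) : ℝ)| = ((Dd a b).natAbs : ℝ) := by
    rw [Nat.cast_natAbs, Int.cast_abs]
  have e1 : (g : ℝ) ^ (1 - lam) = ∏ p ∈ P, ((p : ℝ) ^ g.factorization p) ^ (1 - lam) := by
    rw [Real.finsetProd_rpow _ _ fun p _ => by positivity]
    congr 1
    conv_lhs => rw [hgP]
    push_cast
    rfl
  have e2 : (qa a b : ℝ) ^ (1 - 6 * lam) =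
      ∏ p ∈ P, ((if 5 ≤ p ∧ (p : ℤ) ∣ a then (p : ℝ) else 1)) ^ (1 - 6 * lam) := by
    rw [Real.finsetProd_rpow _ _ fun p _ => by split_ifs <;> positivity]
    congr 1
    rw [hqa]
    push_cast
    rfl
  rw [habs, e1, e2]
  conv_lhs => rw [hDP]
  rw [hnn, hNc]
  push_cast
  rw [← Finset.prod_mul_distrib, ← Finset.prod_mul_distrib, ← Finset.prod_mul_distrib]
  refine Finset.prod_le_prod (fun p _ => by split_ifs <;> positivity) fun p hp => ?_
  have hpp := hPp p hp
  have hp1 : (1 : ℝ) ≤ p := by exact_mod_cast hpp.one_le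
  have hone : (1 : ℝ) ≤ ((p : ℝ) ^ g.factorization p) ^ (1 - lam) :=
    Real.one_le_rpow (one_le_pow₀ hp1) (by linarith)
  have hvp : (Dd a b).natAbs.factorization p ≠ 0 := by
    have : p ∈ (Dd a b).natAbs.factorization.support := by
      rw [Nat.support_factorization, ← hP]
      exact hp
    exact Finsupp.mem_support_iff.1 this
  by_cases h5 : p < 5
  · have h6 : ex a b p = (Dd a b).natAbs.factorization p := by
      unfold ex
      rw [if_pos h5]
    rw [h6, if_neg (by omega : ¬ (5 ≤ p ∧ (p : ℤ) ∣ a)), if_neg (by omega : ¬ 5 ≤ p),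
      Real.one_rpow]
    simp only [mul_one]
    exact le_mul_of_one_le_right (by positivity) hone
  · by_cases hpa : (p : ℤ) ∣ a
    · have h6 : ex a b p = (Dd a b).natAbs.factorization p - 7 := by
        unfold ex
        rw [if_neg h5, if_pos hpa]
      rw [h6, if_pos (⟨by omega, hpa⟩ : 5 ≤ p ∧ (p : ℤ) ∣ a), if_pos (by omega : 5 ≤ p),
        if_pos hpa]
      exact loc' p _ _ lam hpp.one_le h0 h1 (gg_fac p hpp (by omega) a b hD hpa)
    · have h6 : ex a b p = (Dd a b).natAbs.factorization p - 1 := by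
        unfold ex
        rw [if_neg h5, if_neg hpa]
      rw [h6, if_neg (fun h => hpa h.2 : ¬ (5 ≤ p ∧ (p : ℤ) ∣ a)), if_pos (by omega : 5 ≤ p),
        if_neg hpa, Real.one_rpow, mul_one, ← pow_succ, Nat.sub_add_cancel (by omega)]
      exact le_mul_of_one_le_right (by positivity) hone

/-- the gain of a violator -/
theorem gain4 {lam K : ℝ} (h0 : 0 < lam) (h1 : lam < 1 / 6) (hK : 1 ≤ K) {a b : ℤ}
    (hM : Mn a b)
    (hN : (Nc a b : ℝ) ≤ K * (((jE a b).den : ℝ) * max 1 |((jE a b : ℚ) : ℝ)|) ^ (1 - lam)) :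
    |((Dd a b : ℤ) : ℝ)| * (qa a b : ℝ) ^ (1 - 6 * lam) ≤
      6912 * K * nn a b * Mx a b ^ (1 - lam) := by
  have hD : Dd a b ≠ 0 := hM.1
  have hDn : (Dd a b).natAbs ≠ 0 := Int.natAbs_ne_zero.2 hD
  set g := gg a b with hg
  have hg0 : g ≠ 0 := gg_ne hD
  have hgD : g ∣ (Dd a b).natAbs := Nat.gcd_dvd_right _ _
  have hmain := main_ineq h0 h1 hD
  rw [← hg] at hmain
  have habs : |((Dd a b : ℤ) : ℝ)| = ((Dd a b).natAbs : ℝ) := by
    rw [Nat.cast_natAbs, Int.cast_abs]
  have hDpos : (0 : ℝ) < |((Dd a b : ℤ) : ℝ)| := by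
    rw [habs]
    exact_mod_cast Nat.pos_of_ne_zero hDn
  have hgpos : (0 : ℝ) < g := by exact_mod_cast Nat.pos_of_ne_zero hg0
  obtain ⟨D', hD'⟩ : (g : ℤ) ∣ Dd a b := Int.natCast_dvd.2 hgD
  obtain ⟨A', hA'⟩ : (g : ℤ) ∣ 6912 * a ^ 3 := by
    apply Int.natCast_dvd.2
    rw [Int.natAbs_mul, Int.natAbs_pow]
    exact Nat.gcd_dvd_left _ _
  have hD'0 : D' ≠ 0 := by
    rintro rfl
    exact hD (by rw [hD', mul_zero])
  have hgQ : ((g : ℤ) : ℚ) ≠ 0 := by exact_mod_cast hg0
  have hj : jE a b = (A' : ℚ) / (D' : ℚ) := by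
    rw [Pool.Agent.N216.FH.jE_eq]
    have h1 : (6912 * (a : ℚ) ^ 3) = ((g : ℤ) : ℚ) * A' := by exact_mod_cast hA'
    have h2 : ((Dd a b : ℤ) : ℚ) = ((g : ℤ) : ℚ) * D' := by exact_mod_cast hD'
    rw [h1, h2, mul_div_mul_left _ _ hgQ]
  have hden : ((jE a b).den : ℝ) * g ≤ |((Dd a b : ℤ) : ℝ)| := by
    have h1 : (((jE a b).den : ℕ) : ℤ) ∣ D' := by
      rw [hj, ← Rat.divInt_eq_div]
      exact Rat.den_dvd A' D'
    have h2 : (((jE a b).den : ℕ) : ℤ) ≤ |D'| := Int.le_of_dvd (abs_pos.2 hD'0)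
      ((dvd_abs _ _).2 h1)
    have h3 : ((jE a b).den : ℝ) ≤ |(D' : ℝ)| := by exact_mod_cast h2
    rw [hD']
    push_cast
    rw [abs_mul, Nat.abs_cast, mul_comm]
    exact mul_le_mul_of_nonneg_left h3 hgpos.le
  have hMD : |((Dd a b : ℤ) : ℝ)| ≤ Mx a b := le_max_right _ _
  have hMa : |(a : ℝ)| ^ 3 ≤ Mx a b := le_max_left _ _
  have hmax : max 1 |((jE a b : ℚ) : ℝ)| ≤ 6912 * Mx a b / |((Dd a b : ℤ) : ℝ)| := by
    rw [le_div_iff₀ hDpos]
    have h1 : |((jE a b : ℚ) : ℝ)| * |((Dd a b : ℤ) : ℝ)| = 6912 * |(a : ℝ)| ^ 3 := by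
      rw [Pool.Agent.N216.FH.jE_eq]
      push_cast
      rw [abs_div, div_mul_cancel₀ _ hDpos.ne', abs_mul, abs_pow]
      norm_num
    rcases max_choice 1 |((jE a b : ℚ) : ℝ)| with h | h
    · rw [h]
      linarith [abs_nonneg ((Dd a b : ℤ) : ℝ)]
    · rw [h, h1]
      linarith
  have hMpos : 0 < Mx a b := hDpos.trans_le hMD
  have hprod : ((jE a b).den : ℝ) * max 1 |((jE a b : ℚ) : ℝ)| ≤ 6912 * Mx a b / g := by
    calc ((jE a b).den : ℝ) * max 1 |((jE a b : ℚ) : ℝ)|
        ≤ (|((Dd a b : ℤ) : ℝ)| / g) * (6912 * Mx a b / |((Dd a b : ℤ) : ℝ)|) := by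
          refine mul_le_mul ?_ hmax (le_max_of_le_left zero_le_one) (by positivity)
          rw [le_div_iff₀ hgpos]
          exact hden
      _ = 6912 * Mx a b / g := by
          field_simp
  have hfin : (Nc a b : ℝ) * (g : ℝ) ^ (1 - lam) ≤ 6912 * K * Mx a b ^ (1 - lam) := by
    have h1 : (((jE a b).den : ℝ) * max 1 |((jE a b : ℚ) : ℝ)|) ^ (1 - lam) ≤
        (6912 * Mx a b / g) ^ (1 - lam) := by
      refine Real.rpow_le_rpow ?_ hprod (by linarith)
      exact mul_nonneg (by positivity) (le_max_of_le_left zero_le_one)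
    have h2 : (6912 * Mx a b / g) ^ (1 - lam) =
        6912 ^ (1 - lam) * Mx a b ^ (1 - lam) / (g : ℝ) ^ (1 - lam) := by
      rw [Real.div_rpow (by positivity) hgpos.le, Real.mul_rpow (by norm_num) hMpos.le]
    have h3 : (6912 : ℝ) ^ (1 - lam) ≤ 6912 := by
      calc (6912 : ℝ) ^ (1 - lam) ≤ 6912 ^ (1 : ℝ) :=
            Real.rpow_le_rpow_of_exponent_le (by norm_num) (by linarith)
        _ = 6912 := Real.rpow_one _
    have h4 : (0 : ℝ) < (g : ℝ) ^ (1 - lam) := Real.rpow_pos_of_pos hgpos _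
    have h5 : (0 : ℝ) < Mx a b ^ (1 - lam) := Real.rpow_pos_of_pos hMpos _
    calc (Nc a b : ℝ) * (g : ℝ) ^ (1 - lam)
        ≤ (K * (6912 ^ (1 - lam) * Mx a b ^ (1 - lam) / (g : ℝ) ^ (1 - lam))) *
          (g : ℝ) ^ (1 - lam) := by
          refine mul_le_mul_of_nonneg_right (hN.trans ?_) h4.le
          rw [← h2]
          exact mul_le_mul_of_nonneg_left h1 (by linarith)
      _ = K * 6912 ^ (1 - lam) * Mx a b ^ (1 - lam) := by
          field_simp
      _ ≤ K * 6912 * Mx a b ^ (1 - lam) := by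
          refine mul_le_mul_of_nonneg_right ?_ h5.le
          exact mul_le_mul_of_nonneg_left h3 (by linarith)
      _ = _ := by ring
  calc |((Dd a b : ℤ) : ℝ)| * (qa a b : ℝ) ^ (1 - 6 * lam)
      ≤ nn a b * Nc a b * (g : ℝ) ^ (1 - lam) := hmain
    _ = nn a b * (Nc a b * (g : ℝ) ^ (1 - lam)) := by ring
    _ ≤ nn a b * (6912 * K * Mx a b ^ (1 - lam)) :=
        mul_le_mul_of_nonneg_left hfin (by positivity)
    _ = 6912 * K * nn a b * Mx a b ^ (1 - lam) := by ring

/-- the common factor of `a ^ 3` and `b ^ 2` is small if the additive primes are -/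
theorem gcd_le' {a b : ℤ} (hmn : Mn a b) :
    Nat.gcd (a.natAbs ^ 3) (b.natAbs ^ 2) ≤ (6 * qa a b) ^ 10 := by
  set g := Nat.gcd (a.natAbs ^ 3) (b.natAbs ^ 2) with hg
  have hDn : (Dd a b).natAbs ≠ 0 := Int.natAbs_ne_zero.2 hmn.1
  have hg0 : g ≠ 0 := by
    intro h0
    rw [hg, Nat.gcd_eq_zero_iff] at h0
    have ha : a = 0 := Int.natAbs_eq_zero.1 (pow_eq_zero_iff (by norm_num) |>.1 h0.1)
    have hb : b = 0 := Int.natAbs_eq_zero.1 (pow_eq_zero_iff (by norm_num) |>.1 h0.2)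
    apply hmn.1
    rw [ha, hb]
    rfl
  have hfac : ∀ p, g.factorization p ≤ 10 := by
    intro p
    by_contra hcon
    push Not at hcon
    by_cases hp : p.Prime
    · have h1 : p ^ 11 ∣ g := (hp.pow_dvd_iff_le_factorization hg0).2 hcon
      have h2 : p ^ 4 ∣ a.natAbs := Pool.Agent.N40.FH.pow_dvd_root hp 3 4 11
        (h1.trans (Nat.gcd_dvd_left _ _)) (by norm_num)
      have h3 : p ^ 6 ∣ b.natAbs := Pool.Agent.N40.FH.pow_dvd_root hp 2 6 11
        (h1.trans (Nat.gcd_dvd_right _ _)) (by norm_num)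
      apply hmn.2 p hp
      constructor
      · have := Int.natCast_dvd.2 h2
        exact_mod_cast this
      · have := Int.natCast_dvd.2 h3
        exact_mod_cast this
    · rw [Nat.factorization_eq_zero_of_not_prime _ hp] at hcon
      omega
  have hsub : g.primeFactors ⊆ {2, 3} ∪ Ad a b := by
    intro p hp
    have hpp := Nat.prime_of_mem_primeFactors hp
    have hpg := Nat.dvd_of_mem_primeFactors hp
    have h2 : (p : ℤ) ∣ a :=
      Int.natCast_dvd.2 (hpp.dvd_of_dvd_pow (hpg.trans (Nat.gcd_dvd_left _ _)))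
    have h3 : (p : ℤ) ∣ b :=
      Int.natCast_dvd.2 (hpp.dvd_of_dvd_pow (hpg.trans (Nat.gcd_dvd_right _ _)))
    rw [Finset.mem_union]
    by_cases h5 : p < 5
    · left
      have h4 := hpp.two_le
      have h6 : p ≠ 4 := by
        rintro rfl
        exact absurd hpp (by norm_num)
      simp only [Finset.mem_insert, Finset.mem_singleton]
      omega
    · right
      refine Finset.mem_filter.2 ⟨?_, by omega, h2⟩
      refine Nat.mem_primeFactors.2 ⟨hpp, ?_, hDn⟩
      apply Int.natCast_dvd.1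
      unfold Dd
      exact dvd_sub ((dvd_pow h2 (by norm_num)).mul_left 4) ((dvd_pow h3 (by norm_num)).mul_left 27)
  have hpr : ∀ p ∈ ({2, 3} : Finset ℕ) ∪ Ad a b, 1 ≤ p := by
    intro p hp
    rcases Finset.mem_union.1 hp with h | h
    · simp only [Finset.mem_insert, Finset.mem_singleton] at h
      omega
    · exact (prime_of (Finset.mem_filter.1 h).1).pos
  calc g = g.factorization.prod (fun p k => p ^ k) := (Nat.prod_factorization_pow_eq_self hg0).symm
    _ = ∏ p ∈ g.primeFactors, p ^ g.factorization p := rfl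
    _ ≤ ∏ p ∈ g.primeFactors, p ^ 10 := by
        refine Finset.prod_le_prod' fun p hp => ?_
        exact Nat.pow_le_pow_right (Nat.prime_of_mem_primeFactors hp).pos (hfac p)
    _ ≤ ∏ p ∈ ({2, 3} : Finset ℕ) ∪ Ad a b, p ^ 10 := by
        refine Finset.prod_le_prod_of_subset_of_one_le' hsub fun p hp _ => ?_
        exact Nat.one_le_pow _ _ (hpr p hp)
    _ = (∏ p ∈ ({2, 3} : Finset ℕ) ∪ Ad a b, p) ^ 10 := Finset.prod_pow _ _ _
    _ ≤ (6 * qa a b) ^ 10 := by
        apply Nat.pow_le_pow_left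
        have hdis : Disjoint ({2, 3} : Finset ℕ) (Ad a b) := by
          rw [Finset.disjoint_left]
          intro p hp hp'
          have := (Finset.mem_filter.1 hp').2.1
          simp only [Finset.mem_insert, Finset.mem_singleton] at hp
          omega
        rw [Finset.prod_union hdis]
        exact Nat.mul_le_mul (by decide) le_rfl

/-- the denominator of the invariant -/
theorem den_low {a b : ℤ} (hmn : Mn a b) :
    |((Dd a b : ℤ) : ℝ)| ≤ 186624 * (6 * (qa a b : ℝ)) ^ 10 * ((jE a b).den : ℝ) := by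
  have hg := gcd_le' hmn
  obtain ⟨M, hM⟩ : ∃ M : ℕ, M = (6 * qa a b) ^ 10 := ⟨_, rfl⟩
  rw [← hM] at hg
  have hj := Pool.Agent.N40.FH.jE_eq hmn.1
  set q := jE a b with hq
  have hD' : ((Dd a b : ℤ) : ℚ) ≠ 0 := by exact_mod_cast hmn.1
  have hden : (q.den : ℚ) ≠ 0 := by exact_mod_cast q.den_ne_zero
  have h1 : q.num * Dd a b = 6912 * a ^ 3 * q.den := by
    have h2 : (q.num : ℚ) = q * q.den := (Rat.mul_den_eq_num q).symm
    have h3 : (q.num : ℚ) * (Dd a b : ℤ) = 6912 * (a : ℚ) ^ 3 * q.den := by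
      rw [h2, hj]
      field_simp
    exact_mod_cast h3
  have hcop : IsCoprime q.num (q.den : ℤ) := by
    rw [Int.isCoprime_iff_gcd_eq_one]
    have := q.reduced
    rwa [Nat.Coprime, ← Int.natAbs_natCast q.den] at this
  have hdvd : (q.den : ℤ) ∣ Dd a b := by
    apply hcop.symm.dvd_of_dvd_mul_left
    rw [h1]
    exact Dvd.intro_left _ rfl
  obtain ⟨e, he⟩ := hdvd
  have hden' : (q.den : ℤ) ≠ 0 := by exact_mod_cast q.den_ne_zero
  have h2 : q.num * e = 6912 * a ^ 3 := by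
    apply mul_right_cancel₀ hden'
    rw [← h1, he]
    ring
  have e1 : e ∣ 186624 * a ^ 3 := ⟨27 * q.num, by linear_combination (-27) * h2⟩
  have e2 : e ∣ 186624 * b ^ 2 := by
    refine ⟨4 * q.num - 6912 * q.den, ?_⟩
    have h3 : 4 * a ^ 3 - 27 * b ^ 2 = q.den * e := he
    linear_combination (-4) * h2 + (-6912) * h3
  have e3 : e.natAbs ∣ 186624 * Nat.gcd (a.natAbs ^ 3) (b.natAbs ^ 2) := by
    rw [← Nat.gcd_mul_left]
    apply Nat.dvd_gcd
    · have := Int.natAbs_dvd_natAbs.2 e1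
      rwa [Int.natAbs_mul, Int.natAbs_pow] at this
    · have := Int.natAbs_dvd_natAbs.2 e2
      rwa [Int.natAbs_mul, Int.natAbs_pow] at this
  have hgpos : 0 < Nat.gcd (a.natAbs ^ 3) (b.natAbs ^ 2) := by
    rw [Nat.pos_iff_ne_zero]
    intro h0
    rw [Nat.gcd_eq_zero_iff] at h0
    have ha : a = 0 := Int.natAbs_eq_zero.1 (pow_eq_zero_iff (by norm_num) |>.1 h0.1)
    have hb : b = 0 := Int.natAbs_eq_zero.1 (pow_eq_zero_iff (by norm_num) |>.1 h0.2)
    apply hmn.1
    rw [ha, hb]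
    rfl
  have e4 : e.natAbs ≤ 186624 * M := by
    calc e.natAbs ≤ _ := Nat.le_of_dvd (by positivity) e3
      _ ≤ 186624 * M := Nat.mul_le_mul_left _ hg
  have e5 : |(e : ℝ)| ≤ 186624 * (6 * (qa a b : ℝ)) ^ 10 := by
    rw [← Int.cast_abs, ← Nat.cast_natAbs]
    rw [hM] at e4
    exact_mod_cast e4
  rw [he]
  push_cast
  rw [abs_mul, abs_of_nonneg (by positivity : (0 : ℝ) ≤ (q.den : ℝ)), mul_comm]
  exact mul_le_mul_of_nonneg_right e5 (by positivity)

end Pool.Agent.U853.AN
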