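import Pool.Agent.N163.FH_UPAG
import Pool.Agent.N692.FH_UPG

/-!
# Anatomy of the violators of the inequality of Frey: the upper bound with weights

The method of `Pool.Agent.N163.FH.upag` (Rankin), with the weights `z ^ ω(n)`, `(n / T) ^ (1/2)` and
`rad(n) ^ (θ u)`.
-/

set_option autoImplicit false

namespace Pool.Agent.U853.AN

open Finset Filter Topology Pool.Agent.N906.SZ Pool.Agent.N906.FH
open Pool.Agent.N50.SZ (rd_pos rd_le)

/-- the product of the primes dividing `n` -/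
def rad (n : ℕ) : ℕ := ∏ p ∈ n.primeFactors, p

theorem rad_pos (n : ℕ) : 1 ≤ rad n :=
  Finset.prod_pos fun _ hp => (Nat.prime_of_mem_primeFactors hp).pos

/-- the tilted generating function -/
def TiltG (w : ℕ → ℝ) (μ z θ : ℝ) : Prop := ∃ C : ℝ, 0 < C ∧ ∀ ε : ℝ, 0 < ε →
  ∃ u₀ : ℝ, 0 < u₀ ∧ u₀ < 1 / 2 ∧ ∀ u : ℝ, 0 < u → u < u₀ →
    ∀ F : Finset ℕ, (∀ n ∈ F, 1 ≤ n) →
      ∑ n ∈ F, w n * z ^ n.primeFactors.card * (n : ℝ) ^ (-u) * (rad n : ℝ) ^ (θ * u) / rd n ≤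
        C * Real.exp ((1 + ε) * (μ * z) / (u * Real.log (1 / u)))

/-- the constants of one block -/
theorem tilt_block {P : ℕ → ℤ → ℤ → Prop} {w : ℕ → ℝ} {μ z θ : ℝ} (hμ : 0 < μ) (hz : 0 < z)
    (hθ : 0 ≤ θ) (hθ1 : θ ≤ 1) (hw : ∀ n, 0 ≤ w n) (hcnt : S_CNTg P w) (hT : TiltG w μ z θ)
    {lam lam₁ δ K ε : ℝ} (hlam6 : lam < 1 / 6) (_hδ : 0 ≤ δ)
    (hκ : 0 < 6 * lam₁ - θ * δ) (hK : 1 ≤ K) (hε : 0 < ε) :
    ∃ X₀ : ℝ, 3 < X₀ ∧ ∀ (X Y T B : ℝ) (F : Finset (ℤ × ℤ)) (N : ℤ × ℤ → ℕ), X₀ ≤ X → 1 ≤ Y →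
      1 ≤ T → T ≤ K * X ^ (6 * lam₁) → Y ≤ K * T * X ^ (6 - 6 * lam) → 0 ≤ B →
      (∀ x ∈ F, Mn x.1 x.2 ∧ Rg X Y x.1 x.2 ∧ 1 ≤ N x ∧ T ≤ N x ∧ (N x : ℝ) ≤ X ∧
        P (N x) x.1 x.2 ∧ X ^ δ ≤ K * rad (N x) ∧
        B ≤ z ^ (N x).primeFactors.card * ((N x : ℝ) / T) ^ (1 / 2 : ℝ)) →
      B * F.card ≤ Real.exp ((5 - 6 * lam) * Real.log X +
        (1 + ε) * √(8 * (μ * z) * (6 * lam₁ - θ * δ) * Real.log X /
          Real.log (Real.log X))) := by
  classical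
  obtain ⟨C, hC, hcnt⟩ := hcnt
  obtain ⟨CT, hCT, hT⟩ := hT
  obtain ⟨u₀, hu₀, hu₀2, hgen⟩ := hT (ε / 2) (half_pos hε)
  have hμz : 0 < μ * z := mul_pos hμ hz
  have hK0 : 0 < K := by linarith
  obtain ⟨κ, hκe⟩ : ∃ κ : ℝ, κ = 6 * lam₁ - θ * δ := ⟨_, rfl⟩
  rw [← hκe] at hκ
  -- the fixed u
  obtain ⟨u₁, hu₁⟩ : ∃ u₁ : ℝ, u₁ = u₀ / 2 := ⟨_, rfl⟩
  have hu₁0 : 0 < u₁ := by rw [hu₁]; positivity
  have hu₁1 : u₁ < u₀ := by rw [hu₁]; linarith
  obtain ⟨G₁, hG₁⟩ : ∃ G₁ : ℝ, G₁ =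
      CT * Real.exp ((1 + ε / 2) * (μ * z) / (u₁ * Real.log (1 / u₁))) := ⟨_, rfl⟩
  have hG₁0 : 0 < G₁ := by rw [hG₁]; positivity
  obtain ⟨A, hA⟩ : ∃ A : ℝ, A = C * (K * K * K * CT) + C * G₁ := ⟨_, rfl⟩
  have hev := (Pool.Agent.N163.FH.numg hκ (half_pos hε) hu₀ hμz).and
    ((Pool.Agent.N50.SZ.cst (κ := μ * z * κ / 2) (A := A) (by positivity)
      (show 0 < ε / 2 by positivity)).and (eventually_ge_atTop (2 : ℝ)))
  obtain ⟨L₀, hL₀⟩ := eventually_atTop.1 hev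
  refine ⟨max (Real.exp L₀) 4, lt_max_of_lt_right (by norm_num), ?_⟩
  intro X Y T B F N hX hY hT1 hTX hYT hB0 hF
  have hX4 : 4 ≤ X := (le_max_right _ _).trans hX
  have hX0 : 0 < X := by linarith
  have hX1 : 1 ≤ X := by linarith
  obtain ⟨L, hL⟩ : ∃ L : ℝ, L = Real.log X := ⟨_, rfl⟩
  have hLL : L₀ ≤ L := by
    rw [hL, Real.le_log_iff_exp_le hX0]
    exact (le_max_left _ _).trans hX
  obtain ⟨⟨u, hu0, huu, hunum⟩, hAs, hL2⟩ := hL₀ L hLL
  rw [← hL, ← hκe]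
  have hS16 : 16 * (μ * z * κ / 2) * L = 8 * (μ * z) * κ * L := by ring
  rw [hS16] at hAs
  obtain ⟨S, hS⟩ : ∃ S : ℝ, S = √(8 * (μ * z) * κ * L / Real.log L) := ⟨_, rfl⟩
  rw [← hS] at hunum hAs ⊢
  have hS0 : 0 ≤ S := by rw [hS]; exact Real.sqrt_nonneg _
  have hu12 : u < 1 / 2 := by linarith
  have hu1 : u < 1 := by linarith
  have hY0 : 0 < Y := by linarith
  have hT0 : 0 < T := by linarith
  have hD : ∀ n ∈ F.image N, 1 ≤ n ∧ T ≤ n ∧ (n : ℝ) ≤ X ∧ X ^ δ ≤ K * rad n ∧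
      B ≤ z ^ n.primeFactors.card * ((n : ℝ) / T) ^ (1 / 2 : ℝ) := by
    intro n hn
    obtain ⟨x, hx, rfl⟩ := mem_image.1 hn
    obtain ⟨-, -, q1, q2, q3, -, q4, q5⟩ := hF x hx
    exact ⟨q1, q2, q3, q4, q5⟩
  have hcard : B * (F.card : ℝ) ≤ ∑ n ∈ F.image N,
      z ^ n.primeFactors.card * ((n : ℝ) / T) ^ (1 / 2 : ℝ) *
        (C * w n * (Y / (X * (n * rd n : ℕ)) + X ^ 2)) := by
    rw [card_eq_sum_card_image N F]
    push_cast
    rw [Finset.mul_sum]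
    refine Finset.sum_le_sum fun n hn => ?_
    obtain ⟨q1, q2, q3, -, q5⟩ := hD n hn
    have := hcnt X Y n hX1 hY q1 (by
      have r2 : (rd n : ℝ) ≤ n := by exact_mod_cast rd_le q1
      push_cast
      have r3 : (0 : ℝ) ≤ n := Nat.cast_nonneg _
      have r4 : (0 : ℝ) ≤ rd n := Nat.cast_nonneg _
      nlinarith) {x ∈ F | N x = n} (by
      intro x hx
      rw [mem_filter] at hx
      obtain ⟨hxF, rfl⟩ := hx
      exact ⟨(hF x hxF).1, (hF x hxF).2.1, (hF x hxF).2.2.2.2.2.1⟩)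
    push_cast at this ⊢
    exact mul_le_mul q5 this (Nat.cast_nonneg _) (by positivity)
  -- the first part
  have p1 : ∑ n ∈ F.image N, z ^ n.primeFactors.card * ((n : ℝ) / T) ^ (1 / 2 : ℝ) *
      (w n * (Y / (X * (n * rd n : ℕ)))) ≤
      Y / X * T ^ (u - 1) * (K * X ^ (-(θ * δ * u))) *
        (CT * Real.exp ((1 + ε / 2) * (μ * z) / (u * Real.log (1 / u)))) := by
    have g := hgen u hu0 huu (F.image N) (fun n hn => (hD n hn).1)
    refine le_trans ?_ (mul_le_mul_of_nonneg_left g (by positivity))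
    rw [Finset.mul_sum]
    refine Finset.sum_le_sum fun n hn => ?_
    obtain ⟨q1, q2, q3, q4, -⟩ := hD n hn
    have hn0 : (0 : ℝ) < n := by exact_mod_cast q1
    have hr0 : (0 : ℝ) < rd n := by exact_mod_cast rd_pos n
    have hw0 := hw n
    have hrad : (1 : ℝ) ≤ rad n := by exact_mod_cast rad_pos n
    have k1 : ((n : ℝ) / T) ^ (1 / 2 : ℝ) * (n : ℝ)⁻¹ ≤ T ^ (u - 1) * (n : ℝ) ^ (-u) := by
      have k2 : ((n : ℝ) / T) ^ (1 / 2 : ℝ) * (n : ℝ)⁻¹ =
          T ^ (-(1 / 2) : ℝ) * ((n : ℝ) ^ (u - 1 / 2) * (n : ℝ) ^ (-u)) := by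
        rw [Real.div_rpow hn0.le hT0.le, Real.rpow_neg hT0.le, ← Real.rpow_add hn0,
          show u - 1 / 2 + -u = 1 / 2 - 1 by ring, Real.rpow_sub_one hn0.ne']
        field_simp
      have k3 : T ^ (u - 1) = T ^ (-(1 / 2) : ℝ) * T ^ (u - 1 / 2) := by
        rw [← Real.rpow_add hT0]
        congr 1
        ring
      rw [k2, k3, mul_assoc]
      apply mul_le_mul_of_nonneg_left _ (by positivity)
      apply mul_le_mul_of_nonneg_right _ (by positivity)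
      exact Real.rpow_le_rpow_of_nonpos hT0 q2 (by linarith)
    have k4 : (1 : ℝ) ≤ K * X ^ (-(θ * δ * u)) * (rad n : ℝ) ^ (θ * u) := by
      have k5 : (X ^ δ) ^ (θ * u) ≤ (K * rad n) ^ (θ * u) :=
        Real.rpow_le_rpow (by positivity) q4 (by positivity)
      rw [Real.mul_rpow hK0.le (by positivity), ← Real.rpow_mul hX0.le] at k5
      have k6 : K ^ (θ * u) ≤ K := by
        calc K ^ (θ * u) ≤ K ^ (1 : ℝ) :=
              Real.rpow_le_rpow_of_exponent_le hK (by nlinarith)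
          _ = K := Real.rpow_one K
      rw [Real.rpow_neg hX0.le, mul_right_comm, ← div_eq_mul_inv, le_div_iff₀ (by positivity),
        one_mul]
      calc X ^ (θ * δ * u) = X ^ (δ * (θ * u)) := by congr 1; ring
        _ ≤ K ^ (θ * u) * (rad n : ℝ) ^ (θ * u) := k5
        _ ≤ K * (rad n : ℝ) ^ (θ * u) := mul_le_mul_of_nonneg_right k6 (by positivity)
    have hc : (0 : ℝ) ≤ Y / X * (z ^ n.primeFactors.card * w n / rd n) := by positivity
    calc z ^ n.primeFactors.card * ((n : ℝ) / T) ^ (1 / 2 : ℝ) * (w n * (Y / (X * (n * rd n : ℕ))))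
        = Y / X * (z ^ n.primeFactors.card * w n / rd n) *
          (((n : ℝ) / T) ^ (1 / 2 : ℝ) * (n : ℝ)⁻¹) := by
          push_cast; field_simp
      _ ≤ Y / X * (z ^ n.primeFactors.card * w n / rd n) * (T ^ (u - 1) * (n : ℝ) ^ (-u)) :=
          mul_le_mul_of_nonneg_left k1 hc
      _ ≤ Y / X * (z ^ n.primeFactors.card * w n / rd n) * (T ^ (u - 1) * (n : ℝ) ^ (-u)) *
          (K * X ^ (-(θ * δ * u)) * (rad n : ℝ) ^ (θ * u)) :=
          le_mul_of_one_le_right (mul_nonneg hc (by positivity)) k4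
      _ = _ := by ring
  -- the second part
  have p2 : ∑ n ∈ F.image N, z ^ n.primeFactors.card * ((n : ℝ) / T) ^ (1 / 2 : ℝ) * w n ≤
      X ^ (1 / 2 : ℝ) * (X ^ (1 + u₁) * G₁) := by
    have g := hgen u₁ hu₁0 hu₁1 (F.image N) (fun n hn => (hD n hn).1)
    rw [← hG₁] at g
    rw [← mul_assoc]
    refine le_trans ?_ (mul_le_mul_of_nonneg_left g (by positivity))
    rw [Finset.mul_sum]
    refine Finset.sum_le_sum fun n hn => ?_
    obtain ⟨q1, q2, q3, -, -⟩ := hD n hn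
    have hn0 : (0 : ℝ) < n := by exact_mod_cast q1
    have hr0 : (0 : ℝ) < rd n := by exact_mod_cast rd_pos n
    have hrn : (rd n : ℝ) ≤ n := by exact_mod_cast rd_le q1
    have hrad : (1 : ℝ) ≤ rad n := by exact_mod_cast rad_pos n
    have hw0 := hw n
    have k0 : ((n : ℝ) / T) ^ (1 / 2 : ℝ) ≤ X ^ (1 / 2 : ℝ) := by
      refine Real.rpow_le_rpow (by positivity) ?_ (by norm_num)
      exact (div_le_self hn0.le hT1).trans q3
    have k1 : (1 : ℝ) ≤ X ^ (1 + u₁) * ((n : ℝ) ^ (-u₁) * (rad n : ℝ) ^ (θ * u₁) / rd n) := by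
      rw [mul_div_assoc', le_div_iff₀ hr0, one_mul]
      have k2 : (1 : ℝ) ≤ (rad n : ℝ) ^ (θ * u₁) := Real.one_le_rpow hrad (by positivity)
      calc (rd n : ℝ) ≤ n := hrn
        _ = (n : ℝ) ^ (1 + u₁) * (n : ℝ) ^ (-u₁) := by
            rw [← Real.rpow_add hn0, show 1 + u₁ + -u₁ = 1 by ring, Real.rpow_one]
        _ ≤ X ^ (1 + u₁) * (n : ℝ) ^ (-u₁) := by
            apply mul_le_mul_of_nonneg_right _ (by positivity)
            exact Real.rpow_le_rpow hn0.le q3 (by linarith)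
        _ ≤ X ^ (1 + u₁) * (n : ℝ) ^ (-u₁) * (rad n : ℝ) ^ (θ * u₁) :=
            le_mul_of_one_le_right (by positivity) k2
        _ = _ := by ring
    calc z ^ n.primeFactors.card * ((n : ℝ) / T) ^ (1 / 2 : ℝ) * w n
        ≤ z ^ n.primeFactors.card * X ^ (1 / 2 : ℝ) * w n := by
          apply mul_le_mul_of_nonneg_right _ hw0
          exact mul_le_mul_of_nonneg_left k0 (by positivity)
      _ = z ^ n.primeFactors.card * X ^ (1 / 2 : ℝ) * w n * 1 := (mul_one _).symm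
      _ ≤ z ^ n.primeFactors.card * X ^ (1 / 2 : ℝ) * w n *
          (X ^ (1 + u₁) * ((n : ℝ) ^ (-u₁) * (rad n : ℝ) ^ (θ * u₁) / rd n)) :=
          mul_le_mul_of_nonneg_left k1 (by positivity)
      _ = _ := by ring
  have hcard2 : B * (F.card : ℝ) ≤ C * (Y / X * T ^ (u - 1) * (K * X ^ (-(θ * δ * u))) *
        (CT * Real.exp ((1 + ε / 2) * (μ * z) / (u * Real.log (1 / u))))) +
        C * X ^ 2 * (X ^ (1 / 2 : ℝ) * (X ^ (1 + u₁) * G₁)) := by
    refine hcard.trans ?_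
    have e1 : ∑ n ∈ F.image N, z ^ n.primeFactors.card * ((n : ℝ) / T) ^ (1 / 2 : ℝ) *
        (C * w n * (Y / (X * (n * rd n : ℕ)) + X ^ 2)) =
        C * (∑ n ∈ F.image N, z ^ n.primeFactors.card * ((n : ℝ) / T) ^ (1 / 2 : ℝ) *
          (w n * (Y / (X * (n * rd n : ℕ))))) +
        C * X ^ 2 * ∑ n ∈ F.image N,
          z ^ n.primeFactors.card * ((n : ℝ) / T) ^ (1 / 2 : ℝ) * w n := by
      rw [Finset.mul_sum, Finset.mul_sum, ← Finset.sum_add_distrib]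
      exact Finset.sum_congr rfl fun n _ => by ring
    rw [e1]
    exact add_le_add (mul_le_mul_of_nonneg_left p1 hC.le)
      (mul_le_mul_of_nonneg_left p2 (by positivity))
  -- the sizes
  have hXe : X = Real.exp L := by rw [hL, Real.exp_log hX0]
  have s2 : X ^ 2 * (X ^ (1 / 2 : ℝ) * (X ^ (1 + u₁) * G₁)) ≤
      G₁ * Real.exp ((5 - 6 * lam) * L) := by
    have k1 : X ^ (1 / 2 : ℝ) * X ^ (1 + u₁) ≤ X ^ (2 : ℝ) := by
      rw [← Real.rpow_add hX0]
      exact Real.rpow_le_rpow_of_exponent_le hX1 (by linarith)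
    rw [Real.rpow_two] at k1
    have k2 : X ^ 4 ≤ Real.exp ((5 - 6 * lam) * L) := by
      rw [hXe, ← Real.exp_nat_mul]
      apply Real.exp_le_exp.2
      push_cast
      nlinarith
    calc X ^ 2 * (X ^ (1 / 2 : ℝ) * (X ^ (1 + u₁) * G₁))
        = X ^ 2 * ((X ^ (1 / 2 : ℝ) * X ^ (1 + u₁)) * G₁) := by ring
      _ ≤ X ^ 2 * (X ^ 2 * G₁) := by
          apply mul_le_mul_of_nonneg_left _ (by positivity)
          exact mul_le_mul_of_nonneg_right k1 hG₁0.le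
      _ = G₁ * X ^ 4 := by ring
      _ ≤ _ := mul_le_mul_of_nonneg_left k2 hG₁0.le
  have s1 : Y / X * T ^ (u - 1) * (K * X ^ (-(θ * δ * u))) ≤
      (K * K * K) * Real.exp ((5 - 6 * lam) * L + u * κ * L) := by
    have k1 : T * T ^ (u - 1) = T ^ u := by
      rw [Real.rpow_sub_one hT0.ne']; field_simp
    have k2 : T ^ u ≤ K * Real.exp (u * (6 * lam₁) * L) := by
      calc T ^ u ≤ (K * X ^ (6 * lam₁)) ^ u := Real.rpow_le_rpow hT0.le hTX hu0.le
        _ = K ^ u * (X ^ (6 * lam₁)) ^ u := Real.mul_rpow hK0.le (by positivity)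
        _ = K ^ u * Real.exp (u * (6 * lam₁) * L) := by
            congr 1
            rw [hXe, ← Real.exp_mul, ← Real.exp_mul]
            congr 1; ring
        _ ≤ K * Real.exp (u * (6 * lam₁) * L) := by
            apply mul_le_mul_of_nonneg_right _ (Real.exp_pos _).le
            calc K ^ u ≤ K ^ (1 : ℝ) := Real.rpow_le_rpow_of_exponent_le hK hu1.le
              _ = K := Real.rpow_one K
    have k3 : X ^ (6 - 6 * lam) / X = Real.exp ((5 - 6 * lam) * L) := by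
      rw [hXe, ← Real.exp_mul, ← Real.exp_sub]
      congr 1; ring
    have k4 : X ^ (-(θ * δ * u)) = Real.exp (-(θ * δ * u) * L) := by
      rw [hXe, ← Real.exp_mul]
      congr 1; ring
    calc Y / X * T ^ (u - 1) * (K * X ^ (-(θ * δ * u)))
        ≤ (K * T * X ^ (6 - 6 * lam)) / X * T ^ (u - 1) * (K * X ^ (-(θ * δ * u))) := by
          apply mul_le_mul_of_nonneg_right _ (by positivity)
          apply mul_le_mul_of_nonneg_right _ (by positivity)
          exact div_le_div_of_nonneg_right hYT hX0.le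
      _ = K * (X ^ (6 - 6 * lam) / X) * (T * T ^ (u - 1)) * (K * X ^ (-(θ * δ * u))) := by ring
      _ ≤ K * (X ^ (6 - 6 * lam) / X) * (K * Real.exp (u * (6 * lam₁) * L)) *
          (K * X ^ (-(θ * δ * u))) := by
          rw [k1]
          apply mul_le_mul_of_nonneg_right _ (by positivity)
          exact mul_le_mul_of_nonneg_left k2 (by positivity)
      _ = (K * K * K) * (Real.exp ((5 - 6 * lam) * L) * Real.exp (u * (6 * lam₁) * L) *
          Real.exp (-(θ * δ * u) * L)) := by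
          rw [k3, k4]; ring
      _ = _ := by
          rw [← Real.exp_add, ← Real.exp_add, hκe]
          congr 2
          ring
  -- the end
  have t1 : Y / X * T ^ (u - 1) * (K * X ^ (-(θ * δ * u))) *
        (CT * Real.exp ((1 + ε / 2) * (μ * z) / (u * Real.log (1 / u)))) ≤
      (K * K * K * CT) * (Real.exp ((5 - 6 * lam) * L) * Real.exp ((1 + ε / 2) * S)) := by
    refine (mul_le_mul_of_nonneg_right s1 (by positivity)).trans ?_
    have k5 : Real.exp ((5 - 6 * lam) * L + u * κ * L) *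
        Real.exp ((1 + ε / 2) * (μ * z) / (u * Real.log (1 / u))) ≤
        Real.exp ((5 - 6 * lam) * L) * Real.exp ((1 + ε / 2) * S) := by
      rw [← Real.exp_add, ← Real.exp_add]
      apply Real.exp_le_exp.2
      nlinarith
    calc K * K * K * Real.exp ((5 - 6 * lam) * L + u * κ * L) *
        (CT * Real.exp ((1 + ε / 2) * (μ * z) / (u * Real.log (1 / u))))
        = (K * K * K * CT) * (Real.exp ((5 - 6 * lam) * L + u * κ * L) *
          Real.exp ((1 + ε / 2) * (μ * z) / (u * Real.log (1 / u)))) := by ring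
      _ ≤ _ := mul_le_mul_of_nonneg_left k5 (by positivity)
  have t2 : X ^ 2 * (X ^ (1 / 2 : ℝ) * (X ^ (1 + u₁) * G₁)) ≤
      G₁ * (Real.exp ((5 - 6 * lam) * L) * Real.exp ((1 + ε / 2) * S)) := by
    refine s2.trans ?_
    apply mul_le_mul_of_nonneg_left _ (by positivity)
    have : 1 ≤ Real.exp ((1 + ε / 2) * S) := Real.one_le_exp (by positivity)
    nlinarith [Real.exp_pos ((5 - 6 * lam) * L)]
  calc B * (F.card : ℝ) ≤ _ := hcard2
    _ ≤ C * ((K * K * K * CT) *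
          (Real.exp ((5 - 6 * lam) * L) * Real.exp ((1 + ε / 2) * S))) +
        C * (G₁ * (Real.exp ((5 - 6 * lam) * L) * Real.exp ((1 + ε / 2) * S))) := by
        rw [mul_assoc C (X ^ 2)]
        exact add_le_add (mul_le_mul_of_nonneg_left t1 hC.le)
          (mul_le_mul_of_nonneg_left t2 hC.le)
    _ = A * (Real.exp ((5 - 6 * lam) * L) * Real.exp ((1 + ε / 2) * S)) := by rw [hA]; ring
    _ ≤ Real.exp (ε / 2 * S) * (Real.exp ((5 - 6 * lam) * L) * Real.exp ((1 + ε / 2) * S)) :=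
        mul_le_mul_of_nonneg_right hAs (by positivity)
    _ = Real.exp ((5 - 6 * lam) * L + (1 + ε) * S) := by
        rw [← Real.exp_add, ← Real.exp_add]
        congr 1; ring

end Pool.Agent.U853.AN
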